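import Pool.Agent.Helper17.FQSetup

/-!
# Lattice counting (piece A of MP_9dd525_an)
-/

open scoped BigOperators
open Filter Topology

noncomputable section

namespace FQ

variable {d n : ℕ}

/-- additive maps out of `ℤ^k` are bounded -/
lemma add_bound {k : ℕ} {V : Type*} [SeminormedAddCommGroup V] (f : Gm k →+ V) :
    ∃ C : ℕ, ∀ m, ‖f m‖ ≤ C * ‖m‖ := by
  refine ⟨⌈∑ i, ‖f (Pi.single i 1)‖⌉₊, fun m => ?_⟩
  have h1 : m = ∑ i, m i • (Pi.single i 1 : Gm k) := by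
    ext j
    simp [Finset.sum_apply, Pi.single_apply]
  have h2 : f m = ∑ i, m i • f (Pi.single i 1) := by
    conv_lhs => rw [h1]
    rw [map_sum]
    exact Finset.sum_congr rfl fun i _ => map_zsmul _ _ _
  rw [h2]
  calc ‖∑ i, m i • f (Pi.single i 1)‖ ≤ ∑ i, ‖m i • f (Pi.single i 1)‖ := norm_sum_le _ _
    _ ≤ ∑ i, ‖f (Pi.single i 1)‖ * ‖m‖ := by
        refine Finset.sum_le_sum fun i _ => ?_
        refine (norm_zsmul_le _ _).trans ?_
        rw [mul_comm]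
        exact mul_le_mul_of_nonneg_left (norm_le_pi_norm m i) (norm_nonneg _)
    _ = (∑ i, ‖f (Pi.single i 1)‖) * ‖m‖ := by rw [Finset.sum_mul]
    _ ≤ _ := mul_le_mul_of_nonneg_right (Nat.le_ceil _) (norm_nonneg _)

/-- boxes -/
def bx (k N : ℕ) : Finset (Gm k) := Fintype.piFinset fun _ => Finset.Icc (-(N : ℤ)) N

lemma mem_bx {k N : ℕ} (q : Gm k) : q ∈ bx k N ↔ ‖q‖ ≤ (N : ℝ) := by
  unfold bx
  rw [Fintype.mem_piFinset, pi_norm_le_iff_of_nonneg (by positivity)]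
  refine forall_congr' fun i => ?_
  rw [Finset.mem_Icc, Int.norm_eq_abs, ← Int.cast_abs, ← abs_le]
  norm_cast

lemma card_bx (k N : ℕ) : (bx k N).card = (2 * N + 1) ^ k := by
  unfold bx
  rw [Fintype.card_piFinset_const, Int.card_Icc]
  congr 1
  omega

lemma fin_bx (k N : ℕ) : {q : Gm k | ‖q‖ ≤ (N : ℝ)}.Finite :=
  (bx k N).finite_toSet.subset fun q hq => (mem_bx q).mpr hq

namespace FQG

variable (G : FQG d n)

/-- (D1) -/
lemma count_up (R : ℝ) : ∃ C K : ℕ, ∀ N : ℕ,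
    {r : Gm n | ‖G.L r‖ < R ∧ ‖r‖ ≤ (N : ℝ)}.ncard * (2 * N + 1) ^ d ≤
      (2 * (C * N) + 1) ^ n * K := by
  classical
  obtain ⟨a, ha⟩ := add_bound G.std
  set R' : ℕ := ⌈R⌉₊ with hR'
  refine ⟨1 + a, (2 * R' + 1) ^ d, fun N => ?_⟩
  have hfin : {r : Gm n | ‖G.L r‖ < R ∧ ‖r‖ ≤ (N : ℝ)}.Finite :=
    (fin_bx n N).subset fun q hq => hq.2
  rw [Set.ncard_eq_toFinset_card _ hfin, ← card_bx d N, ← card_bx n, ← card_bx d R',
    ← Finset.card_product, ← Finset.card_product]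
  refine Finset.card_le_card_of_injOn
    (fun p => (p.1 + G.std p.2, fun i => ⌊G.L p.1 i⌋)) ?_ ?_
  · rintro ⟨r, m⟩ hp
    rw [Finset.mem_coe, Finset.mem_product, Set.Finite.mem_toFinset, mem_bx] at hp
    obtain ⟨⟨h1, h2⟩, h3⟩ := hp
    simp only at h1 h2 h3
    rw [Finset.mem_coe, Finset.mem_product, mem_bx, mem_bx]
    refine ⟨?_, ?_⟩
    · simp only
      refine (norm_add_le _ _).trans ?_
      have h4 := ha m
      have h5 : (a : ℝ) * ‖m‖ ≤ a * N := mul_le_mul_of_nonneg_left h3 (by positivity)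
      push_cast
      nlinarith
    · simp only
      rw [pi_norm_le_iff_of_nonneg (by positivity)]
      intro i
      have h6 : |G.L r i| < R' := by
        have h7 : ‖G.L r i‖ ≤ ‖G.L r‖ := PiLp.norm_apply_le _ i
        rw [Real.norm_eq_abs] at h7
        exact (h7.trans_lt h1).trans_le (Nat.le_ceil _)
      rw [abs_lt] at h6
      rw [Int.norm_eq_abs, ← Int.cast_abs]
      have h8 : |⌊G.L r i⌋| ≤ (R' : ℤ) := by
        rw [abs_le]
        constructor
        · rw [Int.le_floor]; push_cast; linarith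
        · have := Int.floor_le (G.L r i)
          have h9 : ((⌊G.L r i⌋ : ℤ) : ℝ) ≤ (R' : ℝ) := by linarith
          exact_mod_cast h9
      exact_mod_cast h8
  · rintro ⟨r, m⟩ _ ⟨r', m'⟩ _ heq
    simp only [Prod.mk.injEq] at heq
    obtain ⟨h1, h2⟩ := heq
    have h3 : G.L r + zv m = G.L r' + zv m' := by
      rw [← G.hstd, ← G.hstd, ← map_add, ← map_add, h1]
    have h4 : m = m' := by
      ext i
      have h5 := congrArg (fun v : E d => ⌊v i⌋) h3
      have h6 := congrFun h2 i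
      simp only [PiLp.add_apply, zv_apply, Int.floor_add_intCast] at h5
      omega
    subst h4
    rw [Prod.mk.injEq]
    exact ⟨add_right_cancel h1, rfl⟩

/-- (D2) -/
lemma count_low : ∃ C K : ℕ, 1 ≤ C ∧ ∀ s M : ℕ, 1 ≤ s → 1 ≤ M →
    (2 * (s * M) + 1) ^ n ≤
      {q : Gm n | ‖G.L q‖ ≤ s * (d + 1) ∧ ‖q‖ ≤ ((C * (s * M) : ℕ) : ℝ)}.ncard * (K * M) ^ d := by
  classical
  obtain ⟨a, ha⟩ := add_bound G.std
  obtain ⟨b, hb⟩ := add_bound G.L
  refine ⟨1 + a * (b + 1), 2 * b + 3, by omega, fun s M hs hM => ?_⟩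
  set C : ℕ := 1 + a * (b + 1) with hC
  have hfin : {q : Gm n | ‖G.L q‖ ≤ s * (d + 1) ∧ ‖q‖ ≤ ((C * (s * M) : ℕ) : ℝ)}.Finite :=
    (fin_bx n _).subset fun q hq => hq.2
  have hs' : (1 : ℝ) ≤ s := by exact_mod_cast hs
  have hM' : (1 : ℝ) ≤ M := by exact_mod_cast hM
  have hs0 : (0 : ℝ) < s := by linarith
  have h0 : (2 * (s * M) + 1) ^ n ≤
      {q : Gm n | ‖G.L q‖ ≤ s * (d + 1) ∧ ‖q‖ ≤ ((C * (s * M) : ℕ) : ℝ)}.ncard *
        (2 * (b * M + 1) + 1) ^ d := by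
    rw [Set.ncard_eq_toFinset_card _ hfin, ← card_bx n, ← card_bx d, ← Finset.card_product]
    -- the map
    let μ : Gm n → Gm d := fun q i => ⌊G.L q i / s⌋
    have hμ : ∀ q i, (μ q i : ℝ) * s ≤ G.L q i ∧ G.L q i < (μ q i : ℝ) * s + s := by
      intro q i
      have h1 := Int.floor_le (G.L q i / s)
      have h2 := Int.lt_floor_add_one (G.L q i / s)
      rw [le_div_iff₀ hs0] at h1
      rw [div_lt_iff₀ hs0] at h2
      exact ⟨h1, by simp only [μ]; linarith⟩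
    refine Finset.card_le_card_of_injOn
      (fun q => (q - G.std ((s : ℤ) • μ q), μ q)) ?_ ?_
    · intro q hq
      rw [Finset.mem_coe, mem_bx] at hq
      have hLq : ∀ i, |G.L q i| ≤ b * (s * M) := by
        intro i
        have h7 : ‖G.L q i‖ ≤ ‖G.L q‖ := PiLp.norm_apply_le _ i
        rw [Real.norm_eq_abs] at h7
        refine h7.trans ((hb q).trans ?_)
        push_cast at hq
        exact mul_le_mul_of_nonneg_left hq (by positivity)
      have hμb : ‖μ q‖ ≤ ((b * M + 1 : ℕ) : ℝ) := by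
        rw [pi_norm_le_iff_of_nonneg (by positivity)]
        intro i
        obtain ⟨h1, h2⟩ := hμ q i
        have h3 := abs_le.mp (hLq i)
        rw [Int.norm_eq_abs, abs_le]
        push_cast
        constructor
        · have h4 : -((b : ℝ) * M + 1) * s ≤ (μ q i : ℝ) * s := by nlinarith
          exact le_of_mul_le_mul_right h4 hs0
        · have h4 : (μ q i : ℝ) * s ≤ ((b : ℝ) * M + 1) * s := by nlinarith
          exact le_of_mul_le_mul_right h4 hs0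
      rw [Finset.mem_coe, Finset.mem_product, Set.Finite.mem_toFinset, mem_bx]
      refine ⟨⟨?_, ?_⟩, hμb⟩
      · simp only
        rw [map_sub, G.hstd]
        have h5 : ∀ i, |(G.L q - zv ((s : ℤ) • μ q)) i| ≤ s := by
          intro i
          obtain ⟨h1, h2⟩ := hμ q i
          rw [PiLp.sub_apply, zv_apply, Pi.smul_apply, smul_eq_mul]
          push_cast
          rw [abs_le]
          constructor <;> nlinarith
        rw [EuclideanSpace.norm_eq]
        have h6 : ∑ i, ‖(G.L q - zv ((s : ℤ) • μ q)) i‖ ^ 2 ≤ d * (s : ℝ) ^ 2 := by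
          calc ∑ i, ‖(G.L q - zv ((s : ℤ) • μ q)) i‖ ^ 2 ≤ ∑ _i : Fin d, (s : ℝ) ^ 2 := by
                refine Finset.sum_le_sum fun i _ => ?_
                rw [Real.norm_eq_abs]
                exact pow_le_pow_left₀ (abs_nonneg _) (h5 i) 2
            _ = _ := by simp
        have h7 : (d : ℝ) * (s : ℝ) ^ 2 ≤ ((s : ℝ) * (d + 1)) ^ 2 := by
          have : (0 : ℝ) ≤ d := by positivity
          have h8 : (d : ℝ) ≤ (d + 1) ^ 2 := by nlinarith
          nlinarith [sq_nonneg (s : ℝ)]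
        calc Real.sqrt (∑ i, ‖(G.L q - zv ((s : ℤ) • μ q)) i‖ ^ 2)
            ≤ Real.sqrt (((s : ℝ) * (d + 1)) ^ 2) := Real.sqrt_le_sqrt (h6.trans h7)
          _ = _ := Real.sqrt_sq (by positivity)
      · simp only
        have h9 : ‖G.std ((s : ℤ) • μ q)‖ ≤ a * (s * (b * M + 1)) := by
          refine (ha _).trans (mul_le_mul_of_nonneg_left ?_ (by positivity))
          refine (norm_zsmul_le _ _).trans ?_
          rw [Int.norm_eq_abs]
          push_cast at hμb ⊢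
          rw [abs_of_nonneg hs0.le]
          exact mul_le_mul_of_nonneg_left hμb hs0.le
        refine (norm_sub_le _ _).trans ?_
        rw [hC]
        push_cast at hq ⊢
        have ha0 : (0 : ℝ) ≤ a := by positivity
        have h10 : (a : ℝ) * (s * (b * M + 1)) ≤ a * (s * ((b + 1) * M)) := by
          gcongr
          nlinarith
        nlinarith
    · intro q _ q' _ heq
      simp only [Prod.mk.injEq] at heq
      obtain ⟨h1, h2⟩ := heq
      rw [h2] at h1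
      exact sub_left_injective h1
  refine h0.trans (Nat.mul_le_mul_left _ (Nat.pow_le_pow_left ?_ _))
  nlinarith

/-- **Piece A** (lattice counting) -/
theorem count_contra (R c B : ℝ) (hc : 0 < c) (Cf : ℕ → ℕ)
    (h : ∀ s : ℕ, 1 ≤ s → ∀ N : ℕ,
      c * (s * (d + 1)) * ({q : Gm n | ‖G.L q‖ ≤ s * (d + 1) ∧ ‖q‖ ≤ N}.ncard : ℝ) ≤
      B * (s * (d + 1)) ^ d *
        ({r : Gm n | ‖G.L r‖ < R ∧ ‖r‖ ≤ (N + Cf s : ℕ)}.ncard : ℝ)) : False := by
  obtain ⟨C₁, K₁, h1⟩ := G.count_up R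
  obtain ⟨C₂, K₂, hC₂, h2⟩ := G.count_low
  set C₃ : ℕ := C₂ + 1 with hC₃
  set D : ℝ := |B| * (d + 1) ^ d * (K₂ : ℝ) ^ d * (((C₁ * C₃ + 1 : ℕ) : ℝ) ^ n * K₁) with hD
  obtain ⟨s, hs⟩ := exists_nat_gt (D / (c * (d + 1)))
  have hD0 : 0 ≤ D := by positivity
  have hcd : 0 < c * (d + 1) := by positivity
  have hs0 : (0 : ℝ) < s := lt_of_le_of_lt (by positivity) hs
  have hs1 : 1 ≤ s := by
    have : 0 < s := by exact_mod_cast hs0
    omega
  set M : ℕ := Cf s + 1 with hM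
  have hM1 : 1 ≤ M := by omega
  have hM0 : (0 : ℝ) < M := by exact_mod_cast hM1
  have e1 := h s hs1 (C₂ * (s * M))
  have e2 := h2 s M hs1 hM1
  have e3 := h1 (C₃ * (s * M))
  -- names
  set q : ℕ := {q : Gm n | ‖G.L q‖ ≤ s * (d + 1) ∧ ‖q‖ ≤ ((C₂ * (s * M) : ℕ) : ℝ)}.ncard with hq
  set p : ℕ := {r : Gm n | ‖G.L r‖ < R ∧ ‖r‖ ≤ ((C₃ * (s * M) : ℕ) : ℝ)}.ncard with hp
  have e4 : {r : Gm n | ‖G.L r‖ < R ∧ ‖r‖ ≤ ((C₂ * (s * M) + Cf s : ℕ) : ℝ)}.ncard ≤ p := by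
    refine Set.ncard_le_ncard ?_ ((fin_bx n _).subset fun q hq => hq.2)
    rintro r ⟨hr1, hr2⟩
    refine ⟨hr1, hr2.trans ?_⟩
    have : C₂ * (s * M) + Cf s ≤ C₃ * (s * M) := by
      rw [hC₃, add_mul, one_mul]
      have : Cf s ≤ s * M := by nlinarith
      omega
    exact_mod_cast this
  -- real versions
  have f1 : c * (s * (d + 1)) * (q : ℝ) ≤ |B| * (s * (d + 1)) ^ d * p := by
    refine e1.trans ?_
    have e5 : (({r : Gm n | ‖G.L r‖ < R ∧ ‖r‖ ≤ ((C₂ * (s * M) + Cf s : ℕ) : ℝ)}.ncard : ℕ) : ℝ) ≤ p := by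
      exact_mod_cast e4
    have e6 := le_abs_self B
    gcongr
  set X : ℝ := 2 * ((s : ℝ) * M) + 1 with hX
  have hX0 : 0 < X := by positivity
  have f2 : X ^ n ≤ q * ((K₂ : ℝ) * M) ^ d := by
    rw [hX]; exact_mod_cast e2
  have f3 : (p : ℝ) * (2 * ((C₃ : ℝ) * (s * M)) + 1) ^ d ≤
      (2 * ((C₁ : ℝ) * (C₃ * (s * M))) + 1) ^ n * K₁ := by exact_mod_cast e3
  have f4 : (p : ℝ) * ((s : ℝ) * M) ^ d ≤ ((((C₁ * C₃ + 1 : ℕ) : ℝ)) * X) ^ n * K₁ := by
    refine le_trans ?_ (f3.trans ?_)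
    · have hC3 : (1 : ℝ) ≤ C₃ := by exact_mod_cast (by omega : 1 ≤ C₃)
      gcongr
      have : 0 < (s : ℝ) * M := by positivity
      nlinarith
    · gcongr
      rw [hX]
      push_cast
      have h0 : (0 : ℝ) ≤ C₁ * C₃ := by positivity
      have h1 : (0 : ℝ) ≤ (s : ℝ) * M := by positivity
      nlinarith
  -- combine
  have g1 : c * (s * (d + 1)) * X ^ n ≤
      |B| * (d + 1) ^ d * (K₂ : ℝ) ^ d * (((((C₁ * C₃ + 1 : ℕ) : ℝ)) * X) ^ n * K₁) := by
    calc c * (s * (d + 1)) * X ^ n ≤ c * (s * (d + 1)) * (q * ((K₂ : ℝ) * M) ^ d) := by gcongr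
      _ = (c * (s * (d + 1)) * q) * ((K₂ : ℝ) * M) ^ d := by ring
      _ ≤ (|B| * (s * (d + 1)) ^ d * p) * ((K₂ : ℝ) * M) ^ d := by gcongr
      _ = |B| * (d + 1) ^ d * (K₂ : ℝ) ^ d * (p * ((s : ℝ) * M) ^ d) := by
          rw [mul_pow, mul_pow, mul_pow]; ring
      _ ≤ _ := by gcongr
  have g2 : c * (s * (d + 1)) ≤ D := by
    have h5 : |B| * (d + 1) ^ d * (K₂ : ℝ) ^ d * (((((C₁ * C₃ + 1 : ℕ) : ℝ)) * X) ^ n * K₁) =
        D * X ^ n := by
      rw [hD, mul_pow]; ring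
    rw [h5] at g1
    exact le_of_mul_le_mul_right g1 (by positivity)
  rw [div_lt_iff₀ hcd] at hs
  nlinarith

end FQG

end FQ
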