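import Pool.Agent.Helper7.Steps

set_option autoImplicit false

/-!
Runs with all heads on blank cells: displacements, and the analysis of flights.
-/

namespace Pool.Agent.Helper7

open Letter Stk

section drift

variable {P : Type} [Fintype P] (f : P → P) (w : P → ℤ)

/-- displacement after `t` steps -/
def disp (s : P) (t : ℕ) : ℤ := ∑ i ∈ Finset.range t, w (f^[i] s)

omit [Fintype P] in
lemma disp_succ (s : P) (t : ℕ) : disp f w s (t + 1) = disp f w s t + w (f^[t] s) := by
  simp [disp, Finset.sum_range_succ]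

omit [Fintype P] in
lemma abs_disp_le (hw : ∀ s, |w s| ≤ 1) (s : P) (t : ℕ) : |disp f w s t| ≤ t := by
  induction t with
  | zero => simp [disp]
  | succ t ih =>
    rw [disp_succ]
    have h1 := hw (f^[t] s)
    have h2 := abs_add_le (disp f w s t) (w (f^[t] s))
    push_cast
    linarith

/-- eventual periodicity of the displacement -/
lemma disp_periodic (s : P) : ∃ i l : ℕ, 1 ≤ l ∧ i + l ≤ Fintype.card P ∧
    ∀ t, i ≤ t → disp f w s (t + l) = disp f w s t + (disp f w s (i + l) - disp f w s i) := by
  obtain ⟨x, y, hxy, hf⟩ := Fintype.exists_ne_map_eq_of_card_lt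
    (fun i : Fin (Fintype.card P + 1) => f^[i.val] s) (by simp)
  have main : ∀ x y : ℕ, x < y → y ≤ Fintype.card P → f^[x] s = f^[y] s →
      ∃ i l : ℕ, 1 ≤ l ∧ i + l ≤ Fintype.card P ∧
        ∀ t, i ≤ t → disp f w s (t + l) = disp f w s t + (disp f w s (i + l) - disp f w s i) := by
    intro x y hlt hy hf
    refine ⟨x, y - x, by omega, by omega, ?_⟩
    have hper : ∀ t, x ≤ t → f^[t + (y - x)] s = f^[t] s := by
      intro t ht
      obtain ⟨r, rfl⟩ : ∃ r, t = r + x := ⟨t - x, by omega⟩
      rw [show r + x + (y - x) = r + y by omega, Function.iterate_add_apply,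
        Function.iterate_add_apply, hf]
    intro t ht
    induction t, ht using Nat.le_induction with
    | base => ring
    | succ t ht ih =>
      rw [show t + 1 + (y - x) = t + (y - x) + 1 by ring, disp_succ, disp_succ, ih, hper t ht]
      ring
  rcases Nat.lt_or_ge x.val y.val with h | h
  · exact main x.val y.val h (by omega) hf
  · have hne : x.val ≠ y.val := fun h => hxy (Fin.ext h)
    exact main y.val x.val (by omega) (by omega) hf.symm

theorem disp_one_side (hw : ∀ s, |w s| ≤ 1) (s : P) :
    (∀ t, disp f w s t ≤ Fintype.card P) ∨ (∀ t, -(Fintype.card P : ℤ) ≤ disp f w s t) := by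
  obtain ⟨i, l, hl, hil, hper⟩ := disp_periodic f w s
  rcases le_total (disp f w s (i + l) - disp f w s i) 0 with hD | hD
  · left
    intro t
    induction t using Nat.strong_induction_on with
    | _ t ih =>
      rcases Nat.lt_or_ge (i + l) t with h | h
      · have h1 := hper (t - l) (by omega)
        rw [show t - l + l = t by omega] at h1
        have h2 := ih (t - l) (by omega)
        linarith
      · have h1 := abs_le.1 (abs_disp_le f w hw s t)
        have h2 : (t : ℤ) ≤ Fintype.card P := by exact_mod_cast h.trans hil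
        linarith [h1.2]
  · right
    intro t
    induction t using Nat.strong_induction_on with
    | _ t ih =>
      rcases Nat.lt_or_ge (i + l) t with h | h
      · have h1 := hper (t - l) (by omega)
        rw [show t - l + l = t by omega] at h1
        have h2 := ih (t - l) (by omega)
        linarith
      · have h1 := abs_le.1 (abs_disp_le f w hw s t)
        have h2 : (t : ℤ) ≤ Fintype.card P := by exact_mod_cast h.trans hil
        linarith [h1.1]

theorem disp_unbounded (hw : ∀ s, |w s| ≤ 1) (s : P)
    (h : ∃ t, (Fintype.card P : ℤ) < |disp f w s t|) (B : ℕ) : ∃ t, (B : ℤ) < |disp f w s t| := by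
  obtain ⟨i, l, hl, hil, hper⟩ := disp_periodic f w s
  set D := disp f w s (i + l) - disp f w s i with hD
  by_cases hD0 : D = 0
  · exfalso
    obtain ⟨t₀, ht₀⟩ := h
    have : ∀ t, |disp f w s t| ≤ Fintype.card P := by
      intro t
      induction t using Nat.strong_induction_on with
      | _ t ih =>
        rcases Nat.lt_or_ge (i + l) t with h | h
        · have h1 := hper (t - l) (by omega)
          rw [show t - l + l = t by omega, hD0, add_zero] at h1
          rw [h1]
          exact ih (t - l) (by omega)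
        · have h2 : (t : ℤ) ≤ Fintype.card P := by exact_mod_cast h.trans hil
          exact (abs_disp_le f w hw s t).trans h2
    exact absurd (this t₀) (not_le.2 ht₀)
  · have hmul : ∀ m : ℕ, disp f w s (i + m * l) = disp f w s i + m * D := by
      intro m
      induction m with
      | zero => simp
      | succ m ih =>
        rw [show i + (m + 1) * l = i + m * l + l by ring, hper _ (by omega), ih]
        push_cast
        ring
    refine ⟨i + (B + Fintype.card P + 1) * l, ?_⟩
    rw [hmul]
    have h1 : |disp f w s i| ≤ Fintype.card P := by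
      refine (abs_disp_le f w hw s i).trans ?_
      exact_mod_cast (by omega : i ≤ Fintype.card P)
    have h2 : (1 : ℤ) ≤ |D| := Int.one_le_abs hD0
    have h3 : |((B + Fintype.card P + 1 : ℕ) : ℤ) * D| = (B + Fintype.card P + 1 : ℕ) * |D| := by
      rw [abs_mul, Nat.abs_cast]
    have h4 := abs_sub_abs_le_abs_sub (((B + Fintype.card P + 1 : ℕ) : ℤ) * D) (-disp f w s i)
    rw [abs_neg, sub_neg_eq_add, add_comm _ (disp f w s i), h3] at h4
    have h5 : ((B + Fintype.card P + 1 : ℕ) : ℤ) ≤ (B + Fintype.card P + 1 : ℕ) * |D| := by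
      have : (0 : ℤ) ≤ ((B + Fintype.card P + 1 : ℕ) : ℤ) := Int.natCast_nonneg _
      nlinarith
    push_cast at h4 h5 ⊢
    linarith

end drift

namespace Sim

variable {k : ℕ} (A : Sim k)

/-- next state on blanks -/
def fB (s : A.P) : A.P := (A.η s oBlank).1
/-- displacement of coordinate `a` on blanks -/
def wB (a : Fin (k + 1)) (s : A.P) : ℤ := (((A.η s oBlank).2 a).val : ℤ) - 1

variable {A}

lemma abs_wB (a : Fin (k + 1)) (s : A.P) : |A.wB a s| ≤ 1 := by
  simp only [wB]
  have := ((A.η s oBlank).2 a).isLt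
  rw [abs_le]
  constructor <;> omega

/-- `D` has its intended meaning -/
def Good (A : Sim k) [Fintype A.P] : Prop := ∀ s,
  (A.D s = none → (∀ t, A.fB^[t] s ∉ A.G) ∧
    ∀ a t, |disp A.fB (A.wB a) s t| ≤ Fintype.card A.P) ∧
  (∀ dir, A.D s = some dir →
    ((∃ t, A.fB^[t] s ∈ A.G) ∨ ∃ a t, (Fintype.card A.P : ℤ) < |disp A.fB (A.wB a) s t|) ∧
    (∀ a, dir a = true → ∀ t, disp A.fB (A.wB a) s t ≤ Fintype.card A.P) ∧
    (∀ a, dir a = false → ∀ t, -(Fintype.card A.P : ℤ) ≤ disp A.fB (A.wB a) s t))

/-- all coordinates on blanks -/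
def In (A : Sim k) (p : Fin (k + 1) → ℕ) : Prop := ∀ a, A.n < p a ∧ p a < A.R

lemma blank_run (X : A.P × (Fin (k + 1) → ℕ)) (t : ℕ)
    (h : ∀ j < t, In A (A.stepM^[j] X).2) :
    (A.stepM^[t] X).1 = A.fB^[t] X.1 ∧
      ∀ a, (((A.stepM^[t] X).2 a : ℕ) : ℤ) = X.2 a + disp A.fB (A.wB a) X.1 t := by
  induction t with
  | zero => simp [disp]
  | succ t ih =>
    obtain ⟨h1, h2⟩ := ih (fun j hj => h j (by omega))
    have hin := h t (Nat.lt_succ_self t)
    rw [Function.iterate_succ_apply', Function.iterate_succ_apply']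
    set Y := A.stepM^[t] X with hY
    have ho : (fun j => sym (tape (rowsW A.rs) A.N) (Y.2 j)) = (oBlank : Ob k) := by
      funext j
      have := hin j
      simp only [n, R] at this
      rw [sym_blank (by omega) (by omega)]
      rfl
    refine ⟨?_, ?_⟩
    · simp only [stepM, ho, h1, fB]
    · intro a
      rw [disp_succ, ← h1]
      have hin' := hin a
      simp only [stepM, ho, tape_length, wB]
      simp only [n, R] at hin'
      have h3 : (A.η Y.1 oBlank).2 a = 0 ∨ (A.η Y.1 oBlank).2 a = 1 ∨
          (A.η Y.1 oBlank).2 a = 2 := by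
        generalize (A.η Y.1 oBlank).2 a = d
        fin_cases d <;> simp
      have h2a := h2 a
      rcases h3 with h | h | h <;> rw [h] <;> simp only [mv] <;> simp <;> omega

theorem loop_never [Fintype A.P] (hcard : Fintype.card A.P ≤ A.n) (hgood : Good A)
    {X : A.P × (Fin (k + 1) → ℕ)} (hfar : Far A X.2) (hD : A.D X.1 = none) (t : ℕ) :
    (A.stepM^[t] X).1 ∉ A.G := by
  obtain ⟨h1, h2⟩ := (hgood X.1).1 hD
  have hin : ∀ t, In A (A.stepM^[t] X).2 := by
    intro t
    induction t using Nat.strong_induction_on with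
    | _ t ih =>
      intro a
      have h3 := (blank_run X t ih).2 a
      have h4 := abs_le.1 (h2 a t)
      have h5 := hfar a
      have h6 : (Fintype.card A.P : ℤ) ≤ A.n := by exact_mod_cast hcard
      constructor <;> omega
  rw [(blank_run X t (fun j _ => hin j)).1]
  exact h1 t

/-- the main loop -/
noncomputable abbrev loop (q : Mode k) : Prog Letter Stk (k + 1) Bool := iter mainBody q

theorem flight [Fintype A.P] (hC : A.Coded) (hcard : Fintype.card A.P ≤ A.n)
    (hgood : Good A) {X : A.P × (Fin (k + 1) → ℕ)} (hfar : Far A X.2)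
    {dir : Fin (k + 1) → Bool} (hD : A.D X.1 = some dir) {c : Fin (k + 1)}
    {π : Equiv.Perm (Fin (k + 1))} {T : ℕ} {pos : Fin (k + 1) → ℕ} {st : List Stk}
    (h : A.InvFL c (dir c) π X T pos st) :
    ((∃ m', (loop (false, c, dir c, π)).Runs A.v (pos, st) false m') ∧
      ∃ j, (A.stepM^[j] X).1 ∈ A.G) ∨
    (∃ τ, (∀ j < τ, (A.stepM^[j] X).1 ∉ A.G) ∧ ∃ b' sd' π' pos' st',
      A.InvFC b' sd' π' (A.stepM^[τ] X) T pos' st' ∧
      ∀ x m', (loop (true, b', sd', π')).Runs A.v (pos', st') x m' →
        (loop (false, c, dir c, π)).Runs A.v (pos, st) x m') := by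
  obtain ⟨hev, hdt, hdf⟩ := (hgood X.1).2 dir hD
  have hc6 : (Fintype.card A.P : ℤ) ≤ A.n := by exact_mod_cast hcard
  -- some time at which the state is accepting or a coordinate is not on a blank
  have hex : ∃ t, (A.stepM^[t] X).1 ∈ A.G ∨ ¬ In A (A.stepM^[t] X).2 := by
    by_contra hno
    push Not at hno
    have hrun := fun t => blank_run X t (fun j _ => (hno j).2)
    rcases hev with ⟨t, ht⟩ | ⟨a, ht⟩
    · apply (hno t).1
      rw [(hrun t).1]
      exact ht
    · obtain ⟨t, ht⟩ := disp_unbounded A.fB (A.wB a) (abs_wB a) X.1 ht A.R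
      have h1 := (hrun t).2 a
      have h2 := (hno t).2 a
      have h3 := hfar a
      have h4 : |disp A.fB (A.wB a) X.1 t| ≤ A.R := by
        rw [abs_le]; constructor <;> omega
      exact absurd h4 (not_le.2 ht)
  classical
  set τ := Nat.find hex with hτ
  have hτ1 := Nat.find_spec hex
  have hτ2 : ∀ j < τ, (A.stepM^[j] X).1 ∉ A.G ∧ In A (A.stepM^[j] X).2 := by
    intro j hj
    have := Nat.find_min hex hj
    push Not at this
    exact this
  rw [← hτ] at hτ1
  -- induction on the time left
  have key : ∀ d t, t + d = τ → ∀ pos₁ st₁, A.InvFL c (dir c) π (A.stepM^[t] X) T pos₁ st₁ →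
      (∀ x m', (loop (false, c, dir c, π)).Runs A.v (pos₁, st₁) x m' →
        (loop (false, c, dir c, π)).Runs A.v (pos, st) x m') →
      ((∃ m', (loop (false, c, dir c, π)).Runs A.v (pos, st) false m') ∧
        ∃ j, (A.stepM^[j] X).1 ∈ A.G) ∨
      (∃ τ, (∀ j < τ, (A.stepM^[j] X).1 ∉ A.G) ∧ ∃ b' sd' π' pos' st',
        A.InvFC b' sd' π' (A.stepM^[τ] X) T pos' st' ∧
        ∀ x m', (loop (true, b', sd', π')).Runs A.v (pos', st') x m' →
          (loop (false, c, dir c, π)).Runs A.v (pos, st) x m') := by
    intro d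
    induction d with
    | zero =>
      intro t ht pos₁ st₁ hinv hback
      obtain rfl : t = τ := by omega
      rcases hτ1 with hG | hnin
      · left
        obtain ⟨m', hm'⟩ := fl_accept hC hinv hG
        exact ⟨⟨m', hback _ _ (iter_exit hm')⟩, _, hG⟩
      · exact absurd hinv.hin hnin
    | succ d ih =>
      intro t ht pos₁ st₁ hinv hback
      have hlt : t < τ := by omega
      obtain ⟨hG, -⟩ := hτ2 t hlt
      have hr := (blank_run X (t + 1) (fun j hj => (hτ2 j (by omega)).2)).2 c
      rw [Function.iterate_succ_apply'] at hr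
      have hf := hfar c
      have hsafe : (dir c = true → (A.stepM (A.stepM^[t] X)).2 c < A.R) ∧
          (dir c = false → A.n < (A.stepM (A.stepM^[t] X)).2 c) := by
        constructor
        · intro hd
          have := hdt c hd (t + 1)
          omega
        · intro hd
          have := hdf c hd (t + 1)
          omega
      rcases fl_step hC hinv hG hsafe with ⟨b', sd', π', pos', st', hrun, hinv'⟩ |
        ⟨pos', st', hrun, hinv'⟩
      · right
        refine ⟨t + 1, fun j hj => (hτ2 j (by omega)).1, b', sd', π', pos', st', ?_, ?_⟩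
        · rw [Function.iterate_succ_apply']; exact hinv'
        · intro x m' hx
          exact hback _ _ (iter_cont hrun hx)
      · refine ih (t + 1) (by omega) pos' st' ?_ ?_
        · rw [Function.iterate_succ_apply']; exact hinv'
        · intro x m' hx
          exact hback _ _ (iter_cont hrun hx)
  exact key τ 0 (by omega) pos st h (fun x m' hx => hx)

theorem run_reject [Fintype A.P] (hC : A.Coded) (hcard : Fintype.card A.P ≤ A.n)
    (hgood : Good A) (T : ℕ) : ∀ (X : A.P × (Fin (k + 1) → ℕ))
    (_ : ∀ j, (A.stepM^[j] X).1 ∉ A.G) (b : Fin (k + 1)) (sd : Bool)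
    (π : Equiv.Perm (Fin (k + 1))) (pos : Fin (k + 1) → ℕ) (st : List Stk)
    (_ : A.InvFC b sd π X T pos st), ∃ m', (loop (true, b, sd, π)).Runs A.v (pos, st) true m' := by
  induction T using Nat.strong_induction_on with
  | _ T ih =>
    intro X hX b sd π pos st hinv
    match T, hinv, ih with
    | 0, hinv, _ =>
      obtain ⟨m', hm'⟩ := fc_timeout0 hinv
      exact ⟨m', iter_exit hm'⟩
    | 1, hinv, _ =>
      obtain ⟨m', hm'⟩ := fc_timeout1 hC hinv (hX 0)
      exact ⟨m', iter_exit hm'⟩
    | T + 2, hinv, ih =>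
      have hX1 : ∀ j, (A.stepM^[j] (A.stepM X)).1 ∉ A.G := fun j => by
        have := hX (j + 1)
        rwa [Function.iterate_succ_apply] at this
      rcases fc_step hC hinv (hX 0) with ⟨b', sd', π', pos', st', hrun, hinv'⟩ |
        ⟨-, -, m', hm'⟩ | ⟨dir, c, π', pos', st', hD, hfar, hrun, hinv'⟩
      · obtain ⟨m', hm'⟩ := ih T (by omega) (A.stepM X) hX1 b' sd' π' pos' st' hinv'
        exact ⟨m', iter_cont hrun hm'⟩
      · exact ⟨m', iter_exit hm'⟩
      · rcases flight hC hcard hgood hfar hD hinv' with ⟨-, j, hj⟩ |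
          ⟨τ, -, b', sd', π'', pos'', st'', hinv'', hback⟩
        · exact absurd hj (hX1 j)
        · obtain ⟨m', hm'⟩ := ih T (by omega) (A.stepM^[τ] (A.stepM X)) (fun j => by
            rw [← Function.iterate_add_apply]; exact hX1 _) b' sd' π'' pos'' st'' hinv''
          exact ⟨m', iter_cont hrun (hback _ _ hm')⟩

/-- some coordinate is near an end -/
def NearX (A : Sim k) (X : A.P × (Fin (k + 1) → ℕ)) : Prop :=
  ∃ b sd, nearS (rowsW A.rs) A.N sd (X.2 b)

open Classical in
/-- number of near configurations up to time `m` -/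
noncomputable def cnt (A : Sim k) (X : A.P × (Fin (k + 1) → ℕ)) (m : ℕ) : ℕ :=
  ((Finset.range (m + 1)).filter (fun j => NearX A (A.stepM^[j] X))).card

lemma cnt_shift (X : A.P × (Fin (k + 1) → ℕ)) (m τ : ℕ) :
    cnt A (A.stepM^[τ] X) m ≤ cnt A X (m + τ) := by
  classical
  refine Finset.card_le_card_of_injOn (fun j => j + τ) ?_ ?_
  · intro j hj
    simp only [Finset.coe_filter, Finset.mem_range, Set.mem_ofPred_eq] at hj ⊢
    refine ⟨by omega, ?_⟩
    rw [Function.iterate_add_apply]
    exact hj.2
  · intro x _ y _ h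
    simpa using h

lemma cnt_succ {X : A.P × (Fin (k + 1) → ℕ)} (hX : NearX A X) (m : ℕ) :
    cnt A (A.stepM X) m + 1 ≤ cnt A X (m + 1) := by
  classical
  have h1 : insert 0 (((Finset.range (m + 1)).filter
      (fun j => NearX A (A.stepM^[j] (A.stepM X)))).map (addRightEmbedding 1)) ⊆
      (Finset.range (m + 1 + 1)).filter (fun j => NearX A (A.stepM^[j] X)) := by
    intro j hj
    rw [Finset.mem_insert, Finset.mem_map] at hj
    rw [Finset.mem_filter, Finset.mem_range]
    rcases hj with rfl | ⟨i, hi, rfl⟩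
    · exact ⟨by omega, hX⟩
    · rw [Finset.mem_filter, Finset.mem_range] at hi
      simp only [addRightEmbedding_apply]
      refine ⟨by omega, ?_⟩
      rw [Function.iterate_succ_apply]
      exact hi.2
  have h2 := Finset.card_le_card h1
  rw [Finset.card_insert_of_notMem (by simp), Finset.card_map] at h2
  exact h2

theorem run_accept [Fintype A.P] (hC : A.Coded) (hcard : Fintype.card A.P ≤ A.n)
    (hgood : Good A) (m : ℕ) : ∀ (X : A.P × (Fin (k + 1) → ℕ))
    (_ : (A.stepM^[m] X).1 ∈ A.G) (_ : ∀ j < m, (A.stepM^[j] X).1 ∉ A.G) (T : ℕ)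
    (_ : 2 * cnt A X m ≤ T) (b : Fin (k + 1)) (sd : Bool)
    (π : Equiv.Perm (Fin (k + 1))) (pos : Fin (k + 1) → ℕ) (st : List Stk)
    (_ : A.InvFC b sd π X T pos st), ∃ m', (loop (true, b, sd, π)).Runs A.v (pos, st) false m' := by
  induction m using Nat.strong_induction_on with
  | _ m ih =>
    intro X hacc hmin T hT b sd π pos st hinv
    have hnear : NearX A X := ⟨b, sd, hinv.hnear⟩
    have hcnt : 1 ≤ cnt A X m := by
      classical
      unfold cnt
      rw [Nat.one_le_iff_ne_zero, ne_eq, Finset.card_eq_zero]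
      intro he
      have : (0 : ℕ) ∈ (Finset.range (m + 1)).filter (fun j => NearX A (A.stepM^[j] X)) := by
        rw [Finset.mem_filter, Finset.mem_range]
        exact ⟨by omega, hnear⟩
      rw [he] at this
      simp at this
    obtain ⟨T, rfl⟩ : ∃ T', T = T' + 1 + 1 := ⟨T - 2, by omega⟩
    cases m with
    | zero =>
      obtain ⟨m', hm'⟩ := fc_accept hC hinv hacc
      exact ⟨m', iter_exit hm'⟩
    | succ m =>
      have hG : X.1 ∉ A.G := hmin 0 (by omega)
      have hacc' : (A.stepM^[m] (A.stepM X)).1 ∈ A.G := by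
        rwa [Function.iterate_succ_apply] at hacc
      have hmin' : ∀ j < m, (A.stepM^[j] (A.stepM X)).1 ∉ A.G := fun j hj => by
        have := hmin (j + 1) (by omega)
        rwa [Function.iterate_succ_apply] at this
      have hc := cnt_succ hnear m
      rcases fc_step hC hinv hG with ⟨b', sd', π', pos', st', hrun, hinv'⟩ |
        ⟨hD, hfar, -⟩ | ⟨dir, c, π', pos', st', hD, hfar, hrun, hinv'⟩
      · obtain ⟨m', hm'⟩ := ih m (by omega) (A.stepM X) hacc' hmin' T (by omega)
          b' sd' π' pos' st' hinv'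
        exact ⟨m', iter_cont hrun hm'⟩
      · exact absurd hacc' (loop_never hcard hgood hfar hD m)
      · rcases flight hC hcard hgood hfar hD hinv' with ⟨⟨m', hm'⟩, -⟩ |
          ⟨τ, hτ, b', sd', π'', pos'', st'', hinv'', hback⟩
        · exact ⟨m', iter_cont hrun hm'⟩
        · have hτm : τ ≤ m := by
            by_contra hlt
            exact hτ m (by omega) hacc'
          have hc2 := cnt_shift (A.stepM X) (m - τ) τ
          rw [show m - τ + τ = m by omega] at hc2
          obtain ⟨m', hm'⟩ := ih (m - τ) (by omega) (A.stepM^[τ] (A.stepM X))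
            (by rw [← Function.iterate_add_apply, show m - τ + τ = m by omega]; exact hacc')
            (fun j hj => by rw [← Function.iterate_add_apply]; exact hmin' _ (by omega))
            T (by omega) b' sd' π'' pos'' st'' hinv''
          exact ⟨m', iter_cont hrun (hback _ _ hm')⟩

end Sim

end Pool.Agent.Helper7
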