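import Pool.Agent.Helper7.Swap

set_option autoImplicit false

/-!
Code words for transition tables, and the program which looks up a table entry and carries it out.
-/

namespace Pool.Agent.Helper7

open Letter Stk

/-- position `p` of the tape `u` is the start of the word `l` -/
def AtS (u : List Letter) (p : ℕ) (l : List Letter) : Prop := 1 ≤ p ∧ u.drop (p - 1) = l

lemma AtS.add {u : List Letter} {p : ℕ} {l₁ l₂ : List Letter} (h : AtS u p (l₁ ++ l₂)) :
    AtS u (p + l₁.length) l₂ := by
  obtain ⟨h1, h2⟩ := h
  refine ⟨by omega, ?_⟩
  have e : p + l₁.length - 1 = (p - 1) + l₁.length := by omega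
  rw [e, ← List.drop_drop, h2]
  simp

lemma AtS.sym {u : List Letter} {p : ℕ} {c : Letter} {l : List Letter} (h : AtS u p (c :: l)) :
    sym u p = (false, some c) := by
  obtain ⟨h1, h2⟩ := h
  have h3 : u[p - 1]? = some c := by
    have := congrArg (fun l => l[0]?) h2
    simpa using this
  simp [Helper7.sym, h3]
  omega

lemma AtS.le {u : List Letter} {p : ℕ} {c : Letter} {l : List Letter} (h : AtS u p (c :: l)) :
    p ≤ u.length := by
  obtain ⟨h1, h2⟩ := h
  have := congrArg List.length h2
  simp at this
  omega

/-- stop at the letter `c` -/
def stopLet (c : Letter) (s : Bool × Option Letter) : Bool := decide (s.2 = some c)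
/-- stop at a letter other than `one` -/
def notOne (s : Bool × Option Letter) : Bool := decide (s.2 ≠ some one)

section

variable {K : ℕ} {v : Fin K → List Letter} {h : Fin K}

lemma getElem_AtS {u : List Letter} {p : ℕ} {l₁ : List Letter} {l₂ : List Letter}
    (hat : AtS u p (l₁ ++ l₂)) {i : ℕ} (hi : i < l₁.length) :
    ∃ l, AtS u (p + i) (l₁[i] :: l) := by
  have h1 : l₁ ++ l₂ = l₁.take i ++ (l₁[i] :: (l₁.drop (i + 1) ++ l₂)) := by
    conv_lhs => rw [← List.take_append_drop i l₁, List.drop_eq_getElem_cons hi]
    rw [List.append_assoc, List.cons_append]
  rw [h1] at hat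
  have h2 := hat.add
  have h3 : (l₁.take i).length = i := by simp; omega
  rw [h3] at h2
  exact ⟨_, h2⟩

theorem walkTo_runs {c : Letter} {l₁ l₂ : List Letter} (pos : Fin K → ℕ)
    (hat : AtS (v h) (pos h) (l₁ ++ c :: l₂)) (hl : ∀ x ∈ l₁, x ≠ c) (st : List Stk) :
    (walk h 2 (stopLet c) []).Runs v (pos, st) ()
      (Function.update pos h (pos h + l₁.length), st) := by
  have := walk_runs (h := h) (d := 2) (stop := stopLet c) (l := ([] : List Stk)) (v := v)
    l₁.length pos st (fun i => pos h + i) (by simp) (fun i hi => by
      obtain ⟨l, hl'⟩ := getElem_AtS hat hi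
      refine ⟨?_, ?_⟩
      · rw [hl'.sym]
        simp only [stopLet, decide_eq_false_iff_not]
        intro hc
        exact hl _ (List.getElem_mem hi) (Option.some.inj hc)
      · rw [mv_right hl'.le]; omega) (by
      rw [hat.add.sym]; simp [stopLet])
  simpa using this

theorem walkOnes_runs {c : Letter} {t : ℕ} {l₂ : List Letter} (hc : c ≠ one) (pos : Fin K → ℕ)
    (hat : AtS (v h) (pos h) (List.replicate t one ++ c :: l₂)) (st : List Stk) :
    (walk h 2 notOne [unit]).Runs v (pos, st) ()
      (Function.update pos h (pos h + t), List.replicate t unit ++ st) := by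
  have := walk_runs (h := h) (d := 2) (stop := notOne) (l := [unit]) (v := v)
    t pos st (fun i => pos h + i) (by simp) (fun i hi => by
      obtain ⟨l, hl'⟩ := getElem_AtS hat (i := i) (by simpa using hi)
      refine ⟨?_, ?_⟩
      · rw [hl'.sym]
        simp [notOne]
      · rw [mv_right hl'.le]; omega) (by
      have h1 := hat.add
      rw [List.length_replicate] at h1
      rw [h1.sym]; simp [notOne, hc])
  simpa using this

/-- the code of one table entry -/
def entryW (e : ℕ × ℕ) : List Letter :=
  List.replicate e.1 one ++ zero :: (List.replicate e.2 one ++ [sep])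

/-- the code of a list of entries -/
def entriesW (es : List (ℕ × ℕ)) : List Letter := (es.map entryW).flatten

/-- the code of a row -/
def rowW (es : List (ℕ × ℕ)) : List Letter := entriesW es ++ [row]

/-- the code of a list of rows -/
def rowsW (rs : List (List (ℕ × ℕ))) : List Letter := (rs.map rowW).flatten

lemma entriesW_cons (e : ℕ × ℕ) (es : List (ℕ × ℕ)) :
    entriesW (e :: es) = entryW e ++ entriesW es := by simp [entriesW]

lemma rowsW_cons (r : List (ℕ × ℕ)) (rs : List (List (ℕ × ℕ))) :
    rowsW (r :: rs) = rowW r ++ rowsW rs := by simp [rowsW]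

lemma row_notMem_entriesW (es : List (ℕ × ℕ)) : ∀ x ∈ entriesW es, x ≠ row := by
  intro x hx
  simp only [entriesW, List.mem_flatten, List.mem_map] at hx
  obtain ⟨l, ⟨e, -, rfl⟩, hx⟩ := hx
  simp only [entryW, List.mem_append, List.mem_cons, List.mem_replicate, List.not_mem_nil,
    or_false] at hx
  rcases hx with ⟨-, rfl⟩ | rfl | ⟨-, rfl⟩ | rfl <;> simp

/-- skip `j` entries -/
def skipE (h : Fin K) : ℕ → Prog Letter Stk K Unit
  | 0 => pureP ()
  | j + 1 => (walk h 2 (stopLet sep) []).bind fun _ => (moveS h 2).bind fun _ => skipE h j

theorem skipE_runs (j : ℕ) : ∀ (es : List (ℕ × ℕ)) (rest : List Letter) (pos : Fin K → ℕ)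
    (_ : AtS (v h) (pos h) (entriesW es ++ rest)) (_ : j ≤ es.length) (st : List Stk),
    (skipE h j).Runs v (pos, st) () (Function.update pos h (pos h + (entriesW (es.take j)).length),
      st) := by
  induction j with
  | zero =>
    intro es rest pos _ _ st
    simpa [skipE, entriesW] using pureP_runs () v (pos, st)
  | succ j ih =>
    intro es rest pos hat hj st
    cases es with
    | nil => simp at hj
    | cons e es =>
      have h1 : entriesW (e :: es) ++ rest =
          (List.replicate e.1 one ++ zero :: List.replicate e.2 one) ++
            sep :: (entriesW es ++ rest) := by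
        simp [entriesW_cons, entryW]
      rw [h1] at hat
      refine bind_runs (walkTo_runs pos hat (by
        intro x hx
        simp only [List.mem_append, List.mem_cons, List.mem_replicate] at hx
        rcases hx with ⟨-, rfl⟩ | rfl | ⟨-, rfl⟩ <;> simp) st) ?_
      refine bind_runs (moveS_runs _ _ _ _ _) ?_
      have h2 := hat.add
      have h3 := AtS.add (l₁ := [sep]) (l₂ := entriesW es ++ rest) (by simpa using h2)
      simp only [Function.update_self, Function.update_idem]
      rw [mv_right h2.le]
      have := ih es rest (Function.update pos h (pos h + (List.replicate e.1 one ++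
        zero :: List.replicate e.2 one).length + 1)) (by simpa using h3) (by simpa using hj) st
      simp only [Function.update_self, Function.update_idem] at this
      have e2 : pos h + (entriesW ((e :: es).take (j + 1))).length =
          pos h + (List.replicate e.1 one ++ zero :: List.replicate e.2 one).length + 1 +
            (entriesW (es.take j)).length := by
        simp [entriesW_cons, entryW]; omega
      rw [e2]
      exact this

/-- jump over rows: one row per unit on the stack -/
def jumpBody (h : Fin K) (_ : Unit) : Prog Letter Stk K (Unit ⊕ Unit) :=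
  (lookS fun _ t => decide (t = some unit)).bind fun b =>
    bif b then popS.bind fun _ => (walk h 2 (stopLet row) []).bind fun _ =>
      (moveS h 2).bind fun _ => pureP (Sum.inl ())
    else pureP (Sum.inr ())

theorem jump_runs (t : ℕ) : ∀ (rs : List (List (ℕ × ℕ))) (rest : List Letter) (pos : Fin K → ℕ)
    (_ : AtS (v h) (pos h) (rowsW rs ++ rest)) (_ : t ≤ rs.length) (st : List Stk)
    (_ : st.head? ≠ some unit),
    (iter (jumpBody h) ()).Runs v (pos, List.replicate t unit ++ st) ()
      (Function.update pos h (pos h + (rowsW (rs.take t)).length), st) := by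
  induction t with
  | zero =>
    intro rs rest pos _ _ st hst
    have e : Function.update pos h (pos h + (rowsW (rs.take 0)).length) = pos := by
      simp [rowsW]
    rw [e]
    refine iter_exit ?_
    refine bind_runs (lookS_runs _ _ _ _) ?_
    simp only [List.replicate_zero, List.nil_append, hst, decide_false, cond_false]
    exact pureP_runs _ _ _
  | succ t ih =>
    intro rs rest pos hat ht st hst
    cases rs with
    | nil => simp at ht
    | cons r rs =>
      have h1 : rowsW (r :: rs) ++ rest = entriesW r ++ row :: (rowsW rs ++ rest) := by
        simp [rowsW_cons, rowW]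
      rw [h1] at hat
      have h2 := hat.add
      have h3 := AtS.add (l₁ := [row]) (l₂ := rowsW rs ++ rest) (by simpa using h2)
      refine iter_cont (e' := ()) (m' := (Function.update pos h
        (pos h + (entriesW r).length + 1), List.replicate t unit ++ st)) ?_ ?_
      · refine bind_runs (lookS_runs _ _ _ _) ?_
        simp only [List.replicate_succ, List.cons_append, List.head?_cons, decide_true, cond_true]
        refine bind_runs (popS_runs _ _ _ _) ?_
        refine bind_runs (walkTo_runs pos hat (row_notMem_entriesW r) _) ?_
        refine bind_runs (moveS_runs _ _ _ _ _) ?_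
        simp only [Function.update_self, Function.update_idem]
        rw [mv_right h2.le]
        exact pureP_runs _ _ _
      · have := ih rs rest (Function.update pos h (pos h + (entriesW r).length + 1))
          (by simpa using h3) (by simpa using ht) st hst
        simp only [Function.update_self, Function.update_idem] at this
        have e2 : pos h + (rowsW ((r :: rs).take (t + 1))).length =
            pos h + (entriesW r).length + 1 + (rowsW (rs.take t)).length := by
          simp [rowsW_cons, rowW]; omega
        rw [e2]
        exact this

section values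

variable {V : Type} [Fintype V] [Inhabited V]

/-- number of a value -/
noncomputable def encV (x : V) : ℕ := (Fintype.equivFin V x).val
/-- value of a number -/
noncomputable def decV (V : Type) [Fintype V] [Inhabited V] (c : ℕ) : V :=
  if h : c < Fintype.card V then (Fintype.equivFin V).symm ⟨c, h⟩ else default

lemma decV_encV (x : V) : decV V (encV x) = x := by
  simp [decV, encV]

lemma encV_lt (x : V) : encV x < Fintype.card V := (Fintype.equivFin V x).isLt

/-- read a value -/
noncomputable def readV (V : Type) [Fintype V] [Inhabited V] (h : Fin K) :
    ℕ → ℕ → Prog Letter Stk K V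
  | 0, c => pureP (decV V c)
  | f + 1, c => (lookS fun o _ => decide ((o h).2 = some one)).bind fun b =>
      bif b then (moveS h 2).bind fun _ => readV V h f (c + 1) else pureP (decV V c)

theorem readV_runs (f : ℕ) : ∀ (a c : ℕ) (l : List Letter) (pos : Fin K → ℕ)
    (_ : AtS (v h) (pos h) (List.replicate a one ++ zero :: l)) (_ : a ≤ f) (st : List Stk),
    (readV V h f c).Runs v (pos, st) (decV V (c + a)) (Function.update pos h (pos h + a), st) := by
  induction f with
  | zero =>
    intro a c l pos _ ha st
    obtain rfl : a = 0 := by omega
    simpa [readV] using pureP_runs (decV V c) v (pos, st)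
  | succ f ih =>
    intro a c l pos hat ha st
    cases a with
    | zero =>
      have hs : sym (v h) (pos h) = (false, some zero) := AtS.sym (by simpa using hat)
      refine bind_runs (lookS_runs _ _ _ _) ?_
      simp only [obs, hs, Option.some.injEq, reduceCtorEq, decide_false, cond_false, Nat.add_zero,
        Function.update_eq_self]
      exact pureP_runs _ _ _
    | succ a =>
      have hat' : AtS (v h) (pos h) (one :: (List.replicate a one ++ zero :: l)) := by
        simpa [List.replicate_succ] using hat
      have hs : sym (v h) (pos h) = (false, some one) := hat'.sym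
      refine bind_runs (lookS_runs _ _ _ _) ?_
      simp only [obs, hs, decide_true, cond_true]
      refine bind_runs (moveS_runs _ _ _ _ _) ?_
      rw [mv_right hat'.le]
      have h3 := AtS.add (l₁ := [one]) (l₂ := List.replicate a one ++ zero :: l)
        (by simpa using hat')
      have := ih a (c + 1) l (Function.update pos h (pos h + 1)) (by simpa using h3)
        (by omega) st
      simp only [Function.update_self, Function.update_idem] at this
      rw [show c + (a + 1) = c + 1 + a by ring, show pos h + (a + 1) = pos h + 1 + a by ring]
      exact this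

/-- update of a number on the stack -/
def updN (d : Fin 3) (y : ℕ) : ℕ := if d = 0 then y - 1 else if d = 1 then y else y + 1

/-- new stack top -/
def updT (d : Fin 3) (t : Option Stk) : List Stk :=
  if d = 0 then (if t = some unit then [] else t.toList) else if d = 1 then t.toList
  else unit :: t.toList

/-- carry out the moves and update the number on the stack -/
def applyS (mvs : Fin K → Fin 3) (d : Fin 3) : Prog Letter Stk K Unit :=
  stepP fun _ t => ((), mvs, updT d t)

theorem applyS_runs (mvs : Fin K → Fin 3) (d : Fin 3) (pos : Fin K → ℕ) (y : ℕ)
    (st : List Stk) :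
    (applyS mvs d).Runs v (pos, List.replicate y unit ++ bar :: st) ()
      ((fun i => mv (v i).length (pos i) (mvs i)), List.replicate (updN d y) unit ++ bar :: st) := by
  have h1 := stepP_runs (fun _ t => ((), mvs, updT d t)) v
    (pos, List.replicate y unit ++ bar :: st)
  have e : upd v (pos, List.replicate y unit ++ bar :: st)
      (mvs, updT d (List.replicate y unit ++ bar :: st).head?) =
      ((fun i => mv (v i).length (pos i) (mvs i)),
        List.replicate (updN d y) unit ++ bar :: st) := by
    refine Prod.ext rfl ?_
    simp only [upd, updT, updN]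
    by_cases h0 : d = 0
    · cases y with
      | zero => simp [h0]
      | succ y => simp [h0, List.replicate_succ]
    · by_cases h1 : d = 1
      · simp only [h1, if_true, one_ne_zero, if_false]
        rw [toList_append_tail]
      · simp only [h0, h1, if_false]
        rw [List.cons_append, toList_append_tail]
        rfl
  simp only at h1
  rw [e] at h1
  exact h1

/-- look up entry `j` of the current row, jump to the row of the target and carry out the entry -/
noncomputable def exec (V : Type) [Fintype V] [Inhabited V] (h : Fin K) (j : ℕ)
    (mvs : V → Fin K → Fin 3) (act : V → Fin 3) : Prog Letter Stk K V :=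
  (skipE h j).bind fun _ => (readV V h (Fintype.card V) 0).bind fun x =>
  (moveS h 2).bind fun _ => (pushS [bar]).bind fun _ => (walk h 2 notOne [unit]).bind fun _ =>
  (toZero h).bind fun _ => (moveS h 2).bind fun _ => (iter (jumpBody h) ()).bind fun _ =>
  popS.bind fun _ => (applyS (mvs x) (act x)).bind fun _ => pureP x

/-- the position of row `s` -/
def rowPos (rs : List (List (ℕ × ℕ))) (s : ℕ) : ℕ := 1 + (rowsW (rs.take s)).length

theorem exec_runs (rs : List (List (ℕ × ℕ))) {N : ℕ} (hv : v h = tape (rowsW rs) N)
    (s j t : ℕ) (x : V) (es : List (ℕ × ℕ)) (hs : rs[s]? = some es)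
    (hj : es[j]? = some (encV x, t)) (ht : t < rs.length)
    (mvs : V → Fin K → Fin 3) (act : V → Fin 3)
    (pos : Fin K → ℕ) (hpos : pos h = rowPos rs s) (y : ℕ) (st : List Stk) :
    (exec V h j mvs act).Runs v (pos, List.replicate y unit ++ bar :: st) x
      ((fun i => mv (v i).length (Function.update pos h (rowPos rs t) i) (mvs x i)),
        List.replicate (updN (act x) y) unit ++ bar :: st) := by
  have hslt : s < rs.length := by
    by_contra hc
    rw [List.getElem?_eq_none (by omega)] at hs
    simp at hs
  have hes : rs[s] = es := by
    rw [List.getElem?_eq_getElem hslt] at hs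
    exact Option.some.inj hs
  have hjlt : j < es.length := by
    by_contra hc
    rw [List.getElem?_eq_none (by omega)] at hj
    simp at hj
  have hjj : es[j] = (encV x, t) := by
    rw [List.getElem?_eq_getElem hjlt] at hj
    exact Option.some.inj hj
  set rest₀ : List Letter := dollar :: List.replicate N blank with hrest₀
  -- the tape from row `s` on
  have hsplit : rowsW rs = rowsW (rs.take s) ++ (entriesW es ++ row :: rowsW (rs.drop (s + 1))) := by
    conv_lhs => rw [← List.take_append_drop s rs]
    rw [List.drop_eq_getElem_cons hslt, hes]
    simp [rowsW, rowW]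
  have h0 : AtS (v h) (1 + (rowsW (rs.take s)).length)
      (entriesW es ++ (row :: rowsW (rs.drop (s + 1)) ++ rest₀)) := by
    refine AtS.add ⟨le_refl 1, ?_⟩
    simp only [Nat.sub_self, List.drop_zero, hv, tape, hsplit]
    simp [hrest₀]
  have hfst : AtS (v h) 1 (rowsW rs ++ rest₀) := ⟨le_refl 1, by simp [hv, tape, hrest₀]⟩
  -- the tape from entry `j` on
  have hsplit2 : entriesW es = entriesW (es.take j) ++
      (entryW (encV x, t) ++ entriesW (es.drop (j + 1))) := by
    conv_lhs => rw [← List.take_append_drop j es]
    rw [List.drop_eq_getElem_cons hjlt, hjj]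
    simp [entriesW]
  refine bind_runs (skipE_runs j es _ pos (by rw [hpos]; exact h0) (by omega) _) ?_
  have h1 : AtS (v h) (pos h + (entriesW (es.take j)).length)
      (List.replicate (encV x) one ++ zero :: (List.replicate t one ++ sep ::
        (entriesW (es.drop (j + 1)) ++ (row :: rowsW (rs.drop (s + 1)) ++ rest₀)))) := by
    refine AtS.add ?_
    rw [hpos]
    have e : entriesW (es.take j) ++ (List.replicate (encV x) one ++ zero ::
        (List.replicate t one ++ sep :: (entriesW (es.drop (j + 1)) ++
          (row :: rowsW (rs.drop (s + 1)) ++ rest₀)))) =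
        entriesW es ++ (row :: rowsW (rs.drop (s + 1)) ++ rest₀) := by
      rw [hsplit2]
      simp [entryW]
    rw [e]
    exact h0
  refine bind_runs (readV_runs (V := V) (Fintype.card V) (encV x) 0 _ _ (by simpa using h1)
    (encV_lt x).le _) ?_
  simp only [Nat.zero_add, decV_encV, Function.update_self, Function.update_idem]
  refine bind_runs (moveS_runs _ _ _ _ _) ?_
  have h2 := h1.add
  simp only [List.length_replicate] at h2
  simp only [Function.update_self, Function.update_idem]
  rw [mv_right h2.le]
  refine bind_runs (pushS_runs _ _ _ _) ?_
  have h3 := AtS.add (l₁ := [zero]) (l₂ := List.replicate t one ++ sep ::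
    (entriesW (es.drop (j + 1)) ++ (row :: rowsW (rs.drop (s + 1)) ++ rest₀))) (by simpa using h2)
  refine bind_runs (walkOnes_runs (t := t) (c := sep) (by simp) _ (by simpa using h3) _) ?_
  refine bind_runs (toZero_runs _ _) ?_
  refine bind_runs (moveS_runs _ _ _ _ _) ?_
  simp only [Function.update_self, Function.update_idem]
  rw [mv_right (Nat.zero_le _)]
  refine bind_runs (jump_runs t rs rest₀ _ (by simpa using hfst) ht.le _ (by simp)) ?_
  refine bind_runs (popS_runs _ _ _ _) ?_
  simp only [Function.update_self, Function.update_idem]
  refine bind_runs (applyS_runs _ _ _ _ _) ?_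
  exact pureP_runs _ _ _

end values

end

end Pool.Agent.Helper7
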