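import Pool.Agent.Helper7.Blank

set_option autoImplicit false

/-!
Counting near configurations, building the code of a given machine, and the diagonal argument.
-/

namespace Pool.Agent.Helper7

open Letter Stk

lemma clockN_eq {k : ℕ} (W : List Letter) (M : Fin (k + 1) → ℕ) (l : List (Fin (k + 1))) :
    clockN W M l = (l.map (fun h => W.length + 1 + M h + 2)).prod := by
  induction l with
  | nil => simp [clockN]
  | cons h l ih => simp [clockN, ih]

lemma prod_ite_one {k : ℕ} (a : Fin (k + 1)) (x y : ℕ) :
    ∏ i, (if i = a then x else y) = x * y ^ k := by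
  rw [Fin.prod_univ_succAbove _ a]
  simp [Fin.succAbove_ne]

namespace Sim

variable {k : ℕ} {A : Sim k}

lemma iter_le {X : A.P × (Fin (k + 1) → ℕ)} (hX : ∀ a, X.2 a ≤ A.R) (j : ℕ)
    (a : Fin (k + 1)) : (A.stepM^[j] X).2 a ≤ A.R := by
  induction j generalizing a with
  | zero => exact hX a
  | succ j ih =>
    rw [Function.iterate_succ_apply']
    exact stepM_le ih a

theorem cnt_bound [Fintype A.P] {X : A.P × (Fin (k + 1) → ℕ)} (hX : ∀ a, X.2 a ≤ A.R) (m : ℕ)
    (hacc : (A.stepM^[m] X).1 ∈ A.G) (hmin : ∀ j < m, (A.stepM^[j] X).1 ∉ A.G) :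
    cnt A X m ≤ (k + 1) * (Fintype.card A.P * ((3 * A.n + 2) * (A.R + 1) ^ k)) := by
  classical
  set S : Finset (Fin (A.R + 1)) :=
    Finset.univ.filter (fun q => q.val ≤ 2 * A.n ∨ A.R - q.val ≤ A.n) with hS
  have hScard : S.card ≤ 3 * A.n + 2 := by
    have h1 : S ⊆ (Finset.univ.filter (fun q : Fin (A.R + 1) => q.val ≤ 2 * A.n)) ∪
        (Finset.univ.filter (fun q : Fin (A.R + 1) => A.R - q.val ≤ A.n)) := by
      intro q hq
      rw [hS, Finset.mem_filter] at hq
      rw [Finset.mem_union, Finset.mem_filter, Finset.mem_filter]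
      rcases hq.2 with h | h
      · exact Or.inl ⟨Finset.mem_univ _, h⟩
      · exact Or.inr ⟨Finset.mem_univ _, h⟩
    have h2 : (Finset.univ.filter (fun q : Fin (A.R + 1) => q.val ≤ 2 * A.n)).card ≤
        2 * A.n + 1 := by
      have := Finset.card_le_card_of_injOn
        (s := Finset.univ.filter (fun q : Fin (A.R + 1) => q.val ≤ 2 * A.n))
        (t := Finset.range (2 * A.n + 1)) (fun q => q.val)
        (fun q hq => by
          simp only [Finset.coe_filter, Finset.mem_univ, true_and, Set.mem_ofPred_eq] at hq
          simp only [Finset.coe_range, Set.mem_Iio]; omega)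
        (fun x _ y _ h => Fin.ext h)
      rwa [Finset.card_range] at this
    have h3 : (Finset.univ.filter (fun q : Fin (A.R + 1) => A.R - q.val ≤ A.n)).card ≤
        A.n + 1 := by
      have := Finset.card_le_card_of_injOn
        (s := Finset.univ.filter (fun q : Fin (A.R + 1) => A.R - q.val ≤ A.n))
        (t := Finset.range (A.n + 1)) (fun q => A.R - q.val)
        (fun q hq => by
          simp only [Finset.coe_filter, Finset.mem_univ, true_and, Set.mem_ofPred_eq] at hq
          simp only [Finset.coe_range, Set.mem_Iio]; omega)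
        (fun x _ y _ h => by
          have hx := x.isLt
          have hy := y.isLt
          simp only at h
          exact Fin.ext (by omega))
      rwa [Finset.card_range] at this
    have h4 := (Finset.card_le_card h1).trans (Finset.card_union_le _ _)
    omega
  set enc : ℕ → A.P × (Fin (k + 1) → Fin (A.R + 1)) := fun j =>
    ((A.stepM^[j] X).1, fun a => ⟨(A.stepM^[j] X).2 a, Nat.lt_succ_of_le (iter_le hX j a)⟩)
    with henc
  have hinj : ∀ i j, i < j → j ≤ m → enc i ≠ enc j := by
    intro i j hij hjm he
    have hX' : A.stepM^[i] X = A.stepM^[j] X := by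
      rw [henc] at he
      simp only [Prod.mk.injEq] at he
      refine Prod.ext he.1 ?_
      funext a
      have := congrFun he.2 a
      simpa using this
    have h1 : A.stepM^[m] X = A.stepM^[m - j + i] X := by
      rw [show m = m - j + j by omega, Function.iterate_add_apply, ← hX',
        ← Function.iterate_add_apply]
      congr 1
      omega
    rw [h1] at hacc
    exact hmin _ (by omega) hacc
  have h1 : cnt A X m ≤ (Finset.univ.biUnion (fun a : Fin (k + 1) =>
      (Finset.univ : Finset A.P) ×ˢ Fintype.piFinset
        (fun i => if i = a then S else (Finset.univ : Finset (Fin (A.R + 1)))))).card := by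
    refine Finset.card_le_card_of_injOn enc ?_ ?_
    · intro j hj
      simp only [Finset.coe_filter, Finset.mem_range, Set.mem_ofPred_eq] at hj
      obtain ⟨-, b, sd, hb⟩ := hj
      rw [Finset.mem_coe, Finset.mem_biUnion]
      refine ⟨b, Finset.mem_univ _, ?_⟩
      rw [Finset.mem_product]
      refine ⟨Finset.mem_univ _, ?_⟩
      rw [Fintype.mem_piFinset]
      intro i
      by_cases hi : i = b
      · subst hi
        simp only [if_true]
        rw [hS, Finset.mem_filter]
        refine ⟨Finset.mem_univ _, ?_⟩
        simp only [henc]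
        cases sd with
        | true => left; simpa [nearS, n] using hb
        | false => right; simpa [nearS, n, R] using hb
      · simp [hi]
    · intro x hx y hy hxy
      simp only [Finset.coe_filter, Finset.mem_range, Set.mem_ofPred_eq] at hx hy
      rcases Nat.lt_trichotomy x y with h | h | h
      · exact absurd hxy (hinj x y h (by omega))
      · exact h
      · exact absurd hxy.symm (hinj y x h (by omega))
  refine h1.trans (Finset.card_biUnion_le.trans ?_)
  have h2 : ∀ a : Fin (k + 1), ((Finset.univ : Finset A.P) ×ˢ Fintype.piFinset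
        (fun i => if i = a then S else (Finset.univ : Finset (Fin (A.R + 1))))).card ≤
      Fintype.card A.P * ((3 * A.n + 2) * (A.R + 1) ^ k) := by
    intro a
    rw [Finset.card_product, Fintype.card_piFinset, Finset.card_univ]
    have h3 : ∀ i : Fin (k + 1), (if i = a then S else (Finset.univ :
        Finset (Fin (A.R + 1)))).card = if i = a then S.card else A.R + 1 := by
      intro i
      by_cases hi : i = a
      · simp [hi]
      · simp [hi]
    simp only [h3]
    rw [prod_ite_one]
    exact Nat.mul_le_mul_left _ (Nat.mul_le_mul_right _ hScard)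
  refine (Finset.sum_le_sum (fun a _ => h2 a)).trans ?_
  simp

/-- the number of cells of the short tape needed -/
def need (k n : ℕ) : ℕ := 2 * (k + 1) * n * (3 * n + 2) + 6 * n * n + 6 * n

theorem univ_runs [Fintype A.P] (hC : A.Coded) (hcard : Fintype.card A.P ≤ A.n)
    (hgood : Good A) (p₀ : A.P) (hp₀ : A.idx p₀ = 0) (hneed : need k A.n ≤ A.N')
    {B : Bool} (hB : B = true ↔ ∀ j, (A.stepM^[j] (p₀, fun _ => 0)).1 ∉ A.G) :
    ∃ m', (univP k).Runs A.v ((fun _ => 0), []) B m' := by
  classical
  set M : Fin (k + 1) → ℕ := fun h => if h = Fin.last k then A.N' else A.N with hM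
  have hv : ∀ h, A.v h = tape (rowsW A.rs) (M h) := by
    intro h
    by_cases hh : h = Fin.last k
    · subst hh; simp [hM, A.hvl]
    · simp [hM, hh, A.hv h hh]
  obtain ⟨pos', -, -, hclock⟩ := clockP_runs A.hW hv (List.finRange (k + 1))
    (List.nodup_finRange _) (fun _ => 0) []
  set T := clockN (rowsW A.rs) M (List.finRange (k + 1)) with hT
  have hTval : T = (A.R + 1) ^ k * (A.n + A.N' + 2) := by
    rw [hT, clockN_eq, ← Fin.prod_univ_def, Fin.prod_univ_castSucc]
    have h1 : ∀ i : Fin k, (rowsW A.rs).length + 1 + M i.castSucc + 2 = A.R + 1 := by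
      intro i
      have : i.castSucc ≠ Fin.last k := (Fin.castSucc_lt_last i).ne
      simp only [hM, if_neg this, R]
    simp only [h1]
    simp [hM, n]
  have hzero := zeroAll_runs (v := A.v) (List.finRange (k + 1)) pos'
    (List.replicate T clock ++ [])
  have e : (fun i => if i ∈ List.finRange (k + 1) then 0 else pos' i) =
      (fun _ : Fin (k + 1) => (0 : ℕ)) := by
    funext i; simp [List.mem_finRange]
  rw [e] at hzero
  have hpush := pushS_runs (K := k + 1) [unit, bar] A.v (fun _ => (0 : ℕ))
    (List.replicate T clock ++ [])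
  have hinv : A.InvFC (Fin.last k) true (1 : Equiv.Perm (Fin (k + 1))) (p₀, fun _ => 0) T
      (fun _ => 0) ([unit, bar] ++ (List.replicate T clock ++ [])) := by
    refine ⟨rfl, fun _ _ => rfl, rfl, ?_, fun a => Nat.zero_le _, ?_⟩
    · simp [nearS]
    · simp [hp₀, rowPos, rowsW]
  have hfinish : ∀ m', (loop (true, Fin.last k, true, (1 : Equiv.Perm (Fin (k + 1))))).Runs A.v
      ((fun _ => 0), [unit, bar] ++ (List.replicate T clock ++ [])) B m' →
      (univP k).Runs A.v ((fun _ => 0), []) B m' := by
    intro m' hm'
    exact bind_runs hclock (bind_runs hzero (bind_runs hpush hm'))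
  by_cases hall : ∀ j, (A.stepM^[j] (p₀, fun _ => 0)).1 ∉ A.G
  · obtain rfl := hB.2 hall
    obtain ⟨m', hm'⟩ := run_reject hC hcard hgood T _ hall _ _ _ _ _ hinv
    exact ⟨m', hfinish m' hm'⟩
  · have hB' : B = false := by
      cases B with
      | true => exact absurd (hB.1 rfl) hall
      | false => rfl
    subst hB'
    push Not at hall
    set m := Nat.find hall with hm
    have hacc := Nat.find_spec hall
    have hmin : ∀ j < m, (A.stepM^[j] (p₀, fun _ => 0)).1 ∉ A.G := fun j hj =>
      Nat.find_min hall hj
    rw [← hm] at hacc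
    have hcb := cnt_bound (A := A) (X := (p₀, fun _ => 0)) (fun a => Nat.zero_le _) m hacc hmin
    have hle : 2 * cnt A (p₀, fun _ => 0) m ≤ T := by
      rw [hTval]
      have h1 : 2 * ((k + 1) * (Fintype.card A.P * ((3 * A.n + 2) * (A.R + 1) ^ k))) ≤
          (A.R + 1) ^ k * (2 * (k + 1) * A.n * (3 * A.n + 2)) := by
        calc 2 * ((k + 1) * (Fintype.card A.P * ((3 * A.n + 2) * (A.R + 1) ^ k)))
            ≤ 2 * ((k + 1) * (A.n * ((3 * A.n + 2) * (A.R + 1) ^ k))) :=
              Nat.mul_le_mul_left _ (Nat.mul_le_mul_left _ (Nat.mul_le_mul_right _ hcard))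
          _ = (A.R + 1) ^ k * (2 * (k + 1) * A.n * (3 * A.n + 2)) := by ring
      have h2 : (A.R + 1) ^ k * (2 * (k + 1) * A.n * (3 * A.n + 2)) ≤
          (A.R + 1) ^ k * (A.n + A.N' + 2) := by
        apply Nat.mul_le_mul_left
        simp only [need] at hneed
        have : 0 ≤ 6 * A.n * A.n + 6 * A.n := Nat.zero_le _
        omega
      omega
    obtain ⟨m', hm'⟩ := run_accept hC hcard hgood m _ hacc hmin T hle _ _ _ _ _ hinv
    exact ⟨m', hfinish m' hm'⟩

end Sim

section build

variable {k : ℕ} {P : Type} [Fintype P]

open Classical in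
/-- flight information of a state -/
noncomputable def mkD (η : P → Ob k → P × (Fin (k + 1) → Fin 3)) (G : Set P) (s : P) :
    Option (Fin (k + 1) → Bool) :=
  if (∀ t, (fun s => (η s oBlank).1)^[t] s ∉ G) ∧
    ∀ a t, |disp (fun s => (η s oBlank).1) (fun s => (((η s oBlank).2 a).val : ℤ) - 1) s t| ≤
      Fintype.card P then none
  else some (fun a => decide (∀ t, disp (fun s => (η s oBlank).1)
    (fun s => (((η s oBlank).2 a).val : ℤ) - 1) s t ≤ Fintype.card P))

open Classical in
/-- values of entries -/
noncomputable def mkVal (η : P → Ob k → P × (Fin (k + 1) → Fin 3)) (G : Set P) (s : P)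
    (o : Ob k) : Val k := ((η s o).2, mkD η G (η s o).1, decide (s ∈ G))

/-- the code of a machine -/
noncomputable def mkRows (η : P → Ob k → P × (Fin (k + 1) → Fin 3)) (G : Set P) {m : ℕ}
    (e : P ≃ Fin m) : List (List (ℕ × ℕ)) :=
  List.ofFn (fun i : Fin m => List.ofFn (fun j : Fin (Fintype.card (Ob k)) =>
    (encV (mkVal η G (e.symm i) ((Fintype.equivFin (Ob k)).symm j)),
      (e (η (e.symm i) ((Fintype.equivFin (Ob k)).symm j)).1).val)))

lemma mem_rowsW {rs : List (List (ℕ × ℕ))} {c : Letter} (h : c ∈ rowsW rs) :
    c ≠ dollar ∧ c ≠ blank := by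
  simp only [rowsW, List.mem_flatten, List.mem_map] at h
  obtain ⟨l, ⟨es, -, rfl⟩, hx⟩ := h
  simp only [rowW, entriesW, List.mem_append, List.mem_flatten, List.mem_map,
    List.mem_singleton] at hx
  rcases hx with ⟨l, ⟨e, -, rfl⟩, hx⟩ | rfl
  · simp only [entryW, List.mem_append, List.mem_cons, List.mem_replicate, List.not_mem_nil,
      or_false] at hx
    rcases hx with ⟨-, rfl⟩ | rfl | ⟨-, rfl⟩ | rfl <;> simp
  · simp

lemma length_le_rowsW (rs : List (List (ℕ × ℕ))) : rs.length ≤ (rowsW rs).length := by
  induction rs with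
  | nil => simp
  | cons r rs ih =>
    rw [rowsW_cons, List.length_append, List.length_cons]
    simp only [rowW, List.length_append, List.length_singleton]
    omega

lemma tape_take {W : List Letter} {N q : ℕ} (h : W.length + 1 ≤ q) :
    (tape W N).take q = tape W (min q (W.length + 1 + N) - (W.length + 1)) := by
  obtain ⟨r, rfl⟩ : ∃ r, q = W.length + (r + 1) := ⟨q - W.length - 1, by omega⟩
  simp only [tape]
  rw [List.take_length_add_append, List.take_succ_cons, List.take_replicate]
  congr 3
  omega

/-- The diagonal argument: on some input the universal machine with short last tape disagrees with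
the given machine. -/
theorem diagonal (hk : 1 ≤ k) (g : ℕ → ℕ) (hg : ∀ B, ∃ n, B ≤ g n)
    (η : P → Ob k → P × (Fin (k + 1) → Fin 3)) (p₀ : P) (G : Set P) :
    ∃ w : List Letter, ∃ B : Bool,
      (B = true ↔ ∀ j, ((fun X : P × (Fin (k + 1) → ℕ) =>
        ((η X.1 (fun j => sym w (X.2 j))).1, fun i => mv w.length (X.2 i)
          ((η X.1 (fun j => sym w (X.2 j))).2 i)))^[j] (p₀, fun _ => 0)).1 ∉ G) ∧
      ∃ m', (univP k).Runs (fun h => if h = Fin.last k then w.take (g w.length) else w)
        ((fun _ => 0), []) B m' := by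
  classical
  -- numbering of the states with `p₀` first
  have hpos : 0 < Fintype.card P := Fintype.card_pos_iff.2 ⟨p₀⟩
  set e : P ≃ Fin (Fintype.card P) :=
    (Fintype.equivFin P).trans (Equiv.swap (Fintype.equivFin P p₀) ⟨0, hpos⟩) with he
  have he0 : e p₀ = ⟨0, hpos⟩ := by simp [he]
  set rs := mkRows η G e with hrs
  have hrslen : rs.length = Fintype.card P := by simp [hrs, mkRows]
  set n := (rowsW rs).length + 1 with hn
  have hnr := length_le_rowsW rs
  have hW : GoodW (rowsW rs) := by
    refine ⟨?_, fun c hc => mem_rowsW hc⟩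
    intro h0
    rw [h0, List.length_nil] at hnr
    omega
  -- the length of the input
  set B₀ := n + Sim.need k n with hB₀
  obtain ⟨L, hL⟩ := hg (B₀ + (∑ i ∈ Finset.range B₀, g i) + 1)
  have hLB : B₀ ≤ L := by
    by_contra hlt
    have : g L ≤ ∑ i ∈ Finset.range B₀, g i :=
      Finset.single_le_sum (f := g) (fun i _ => Nat.zero_le _) (Finset.mem_range.2 (by omega))
    omega
  have hgL : B₀ ≤ g L := by omega
  set N := L - n with hN
  set w := tape (rowsW rs) N with hw
  have hwlen : w.length = L := by rw [hw, tape_length]; omega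
  set N' := min (g L) (n + N) - n with hN'
  have hneed6 : 6 * n * n + 6 * n ≤ Sim.need k n := by
    simp only [Sim.need]; omega
  have hN'need : Sim.need k n ≤ N' := by omega
  set A : Sim k :=
    { P := P, η := η, G := G, D := mkD η G, idx := fun s => (e s).val, rs := rs, N := N,
      N' := N', v := fun h => if h = Fin.last k then w.take (g w.length) else w, hk := hk,
      hW := hW, hNN := by omega, hN := le_trans hneed6 hN'need,
      hv := fun h hh => by simp [hh, hw],
      hvl := by
        simp only [if_true]
        rw [hwlen, hw, tape_take (by omega)],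
      hidx := fun s => by rw [hrslen]; exact (e s).isLt } with hA
  let _ : Fintype A.P := inferInstanceAs (Fintype P)
  have hC : A.Coded := by
    intro s o
    refine ⟨List.ofFn (fun j : Fin (Fintype.card (Ob k)) =>
      (encV (mkVal η G s ((Fintype.equivFin (Ob k)).symm j)),
        (e (η s ((Fintype.equivFin (Ob k)).symm j)).1).val)), ?_, ?_⟩
    · change rs[(e s).val]? = _
      rw [hrs, mkRows, List.getElem?_ofFn, dif_pos (e s).isLt]
      simp only [Fin.eta, Equiv.symm_apply_apply]
    · change _ = some (encV (mkVal η G s o), (e (η s o).1).val)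
      rw [encV, List.getElem?_ofFn, dif_pos (Fintype.equivFin (Ob k) o).isLt]
      simp only [Fin.eta, Equiv.symm_apply_apply]
  have hcard : Fintype.card A.P ≤ A.n := by
    change Fintype.card P ≤ (rowsW rs).length + 1
    omega
  have hgood : Sim.Good A := by
    intro s
    constructor
    · intro hD
      change mkD η G s = none at hD
      unfold mkD at hD
      split_ifs at hD with h
      exact h
    · intro dir hD
      change mkD η G s = some dir at hD
      unfold mkD at hD
      split_ifs at hD with h
      have hdir := Option.some.inj hD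
      refine ⟨?_, ?_, ?_⟩
      · rw [not_and_or] at h
        rcases h with h | h
        · left; push Not at h; exact h
        · right; push Not at h; exact h
      · intro a ha
        rw [← hdir] at ha
        exact of_decide_eq_true ha
      · intro a ha
        rw [← hdir] at ha
        have ha' := of_decide_eq_false ha
        rcases disp_one_side A.fB (A.wB a) (Sim.abs_wB a) s with h1 | h1
        · exact absurd h1 ha'
        · exact h1
  set B : Bool := decide (∀ j, (A.stepM^[j] (p₀, fun _ => 0)).1 ∉ A.G) with hB
  have hB' : B = true ↔ ∀ j, (A.stepM^[j] (p₀, fun _ => 0)).1 ∉ A.G := by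
    rw [hB, decide_eq_true_eq]
  obtain ⟨m', hm'⟩ := Sim.univ_runs (A := A) hC hcard hgood p₀ (by
    change (e p₀).val = 0
    rw [he0]) hN'need hB'
  exact ⟨w, B, hB', m', hm'⟩

end build

end Pool.Agent.Helper7
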