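import Pool.Agent.Helper7.Machine

set_option autoImplicit false

/-!
Invariants of the universal machine and the effect of one round of its main loop.
-/

namespace Pool.Agent.Helper7

open Letter Stk

section general

variable {W : List Letter}

lemma sym_tape_congr (hW : GoodW W) {N N' p : ℕ} (h : p ≤ W.length + 1 + N)
    (h' : p ≤ W.length + 1 + N') : sym (tape W N') p = sym (tape W N) p := by
  rcases Nat.eq_zero_or_pos p with h0 | h0
  · subst h0
    obtain ⟨h1, -⟩ := hW
    cases W with
    | nil => exact absurd rfl h1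
    | cons c W => simp [sym, tape]
  · rcases Nat.lt_trichotomy p (W.length + 1) with h1 | h1 | h1
    · simp only [sym, tape]
      rw [List.getElem?_append_left (by omega), List.getElem?_append_left (by omega)]
    · subst h1; rw [sym_dollar, sym_dollar]
    · rw [sym_blank h1 h, sym_blank h1 h']

/-- near one of the two ends -/
def nearS (W : List Letter) (N : ℕ) (sd : Bool) (p : ℕ) : Prop :=
  bif sd then p ≤ 2 * (W.length + 1) else W.length + 1 + N + 1 - p ≤ W.length + 1

/-- distance from the marker or the right end -/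
def distOf (W : List Letter) (N : ℕ) (sd : Bool) (p : ℕ) : ℕ :=
  bif sd then p - (W.length + 1) else W.length + 1 + N + 1 - p

lemma nearVal_some {N p : ℕ} {sd : Bool} (h : nearVal W N p = some sd) : nearS W N sd p := by
  unfold nearVal at h
  split_ifs at h with h1 h2
  · obtain rfl := Option.some.inj h; simpa [nearS] using h1
  · obtain rfl := Option.some.inj h; simpa [nearS] using h2

lemma nearVal_none {N p : ℕ} (h : nearVal W N p = none) :
    2 * (W.length + 1) < p ∧ W.length + 1 < W.length + 1 + N + 1 - p := by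
  unfold nearVal at h
  split_ifs at h with h1 h2
  omega

lemma upd_num {N p : ℕ} {sd : Bool} (hN : 2 * (W.length + 1) ≤ N)
    (hp : p ≤ W.length + 1 + N + 1) (hn : nearS W N sd p) (d : Fin 3) :
    updN (bif sd then d else rev3 d) (numOf W N sd p) =
      numOf W N sd (mv (W.length + 1 + N) p d) := by
  cases sd with
  | true =>
    simp only [nearS, cond_true] at hn
    simp only [cond_true, numOf, updN, mv]
    split_ifs <;> omega
  | false =>
    simp only [nearS, cond_false] at hn
    simp only [cond_false, numOf, updN, mv, rev3]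
    have h3 : d = 0 ∨ d = 1 ∨ d = 2 := by fin_cases d <;> simp
    rcases h3 with h | h | h <;> subst h <;> simp <;> omega

lemma upd_dist {N p : ℕ} {sd : Bool} (hp : W.length + 1 < p) (hp' : p < W.length + 1 + N + 1)
    (d : Fin 3) :
    updN (bif sd then d else rev3 d) (distOf W N sd p) =
      distOf W N sd (mv (W.length + 1 + N) p d) := by
  have h3 : d = 0 ∨ d = 1 ∨ d = 2 := by fin_cases d <;> simp
  cases sd with
  | true =>
    simp only [cond_true, distOf, updN, mv]
    rcases h3 with h | h | h <;> subst h <;> simp <;> omega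
  | false =>
    simp only [cond_false, distOf, updN, mv, rev3]
    rcases h3 with h | h | h <;> subst h <;> simp <;> omega

lemma rowsW_append (a b : List (List (ℕ × ℕ))) : rowsW (a ++ b) = rowsW a ++ rowsW b := by
  simp [rowsW]

lemma rowPos_le (rs : List (List (ℕ × ℕ))) {s : ℕ} (hs : s < rs.length) :
    rowPos rs s ≤ (rowsW rs).length := by
  have h0 : rs = rs.take s ++ (rs[s] :: rs.drop (s + 1)) := by
    rw [← List.drop_eq_getElem_cons hs, List.take_append_drop]
  have h1 : rowsW rs = rowsW (rs.take s) ++ (rowW rs[s] ++ rowsW (rs.drop (s + 1))) := by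
    rw [← rowsW_cons, ← rowsW_append]
    exact congrArg rowsW h0
  have h2 := congrArg List.length h1
  simp only [List.length_append, rowW, List.length_singleton] at h2
  simp only [rowPos]
  omega

end general

/-- the data of a simulated machine and its code -/
structure Sim (k : ℕ) where
  P : Type
  η : P → Ob k → P × (Fin (k + 1) → Fin 3)
  G : Set P
  D : P → Option (Fin (k + 1) → Bool)
  idx : P → ℕ
  rs : List (List (ℕ × ℕ))
  N : ℕ
  N' : ℕ
  v : Fin (k + 1) → List Letter
  hk : 1 ≤ k
  hW : GoodW (rowsW rs)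
  hNN : N' ≤ N
  hN : 6 * ((rowsW rs).length + 1) * ((rowsW rs).length + 1) + 6 * ((rowsW rs).length + 1) ≤ N'
  hv : ∀ h, h ≠ Fin.last k → v h = tape (rowsW rs) N
  hvl : v (Fin.last k) = tape (rowsW rs) N'
  hidx : ∀ s, idx s < rs.length

namespace Sim

open Classical in
/-- value of an entry -/
noncomputable def val {k : ℕ} (A : Sim k) (s : A.P) (o : Ob k) : Val k :=
  ((A.η s o).2, A.D (A.η s o).1, decide (s ∈ A.G))

/-- the code is correct -/
def Coded {k : ℕ} (A : Sim k) : Prop :=
  ∀ s o, ∃ es, A.rs[A.idx s]? = some es ∧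
    es[encV o]? = some (encV (A.val s o), A.idx (A.η s o).1)

variable {k : ℕ} (A : Sim k)

/-- length of the code -/
abbrev n : ℕ := (rowsW A.rs).length + 1
/-- the right end -/
abbrev R : ℕ := (rowsW A.rs).length + 1 + A.N + 1

/-- one step of the simulated machine -/
def stepM (X : A.P × (Fin (k + 1) → ℕ)) : A.P × (Fin (k + 1) → ℕ) :=
  ((A.η X.1 (fun j => sym (tape (rowsW A.rs) A.N) (X.2 j))).1,
   fun i => mv (tape (rowsW A.rs) A.N).length (X.2 i)
    ((A.η X.1 (fun j => sym (tape (rowsW A.rs) A.N) (X.2 j))).2 i))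

/-- invariant near an end -/
structure InvFC (b : Fin (k + 1)) (sd : Bool) (π : Equiv.Perm (Fin (k + 1)))
    (X : A.P × (Fin (k + 1) → ℕ)) (T : ℕ) (pos : Fin (k + 1) → ℕ) (st : List Stk) : Prop where
  hb : π b = Fin.last k
  hpos : ∀ a, a ≠ b → pos (π a) = X.2 a
  hlast : pos (Fin.last k) = numOf (rowsW A.rs) A.N sd (X.2 b)
  hnear : nearS (rowsW A.rs) A.N sd (X.2 b)
  hle : ∀ a, X.2 a ≤ A.R
  hst : st = List.replicate (rowPos A.rs (A.idx X.1)) unit ++ bar :: List.replicate T clock

/-- invariant in a flight -/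
structure InvFL (c : Fin (k + 1)) (sd : Bool) (π : Equiv.Perm (Fin (k + 1)))
    (X : A.P × (Fin (k + 1) → ℕ)) (T : ℕ) (pos : Fin (k + 1) → ℕ) (st : List Stk) : Prop where
  hb : π c = Fin.last k
  hpos : ∀ a, a ≠ c → pos (π a) = X.2 a
  hlast : pos (Fin.last k) = rowPos A.rs (A.idx X.1)
  hin : ∀ a, A.n < X.2 a ∧ X.2 a < A.R
  hst : st = List.replicate (distOf (rowsW A.rs) A.N sd (X.2 c)) unit ++
    bar :: List.replicate T clock

variable {A}

lemma perm_ne {π : Equiv.Perm (Fin (k + 1))} {b a : Fin (k + 1)} (hb : π b = Fin.last k)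
    (ha : a ≠ b) : π a ≠ Fin.last k := by
  intro h
  exact ha (π.injective (h.trans hb.symm))

lemma two_le_n : 2 ≤ A.n := by
  have h1 := A.hW.1
  have h2 : 0 < (rowsW A.rs).length := List.length_pos_iff.2 h1
  simp only [n]; omega

lemma big : 2 * A.n + 2 ≤ A.N' ∧ 2 * A.n + 2 ≤ A.N := by
  have h1 := A.hN
  have h2 := A.hNN
  have h3 : 0 ≤ 6 * ((rowsW A.rs).length + 1) * ((rowsW A.rs).length + 1) := Nat.zero_le _
  constructor
  · simp only [n]; omega
  · simp only [n]; omega

lemma swap_bound {x y : ℕ} (hx : x ≤ 2 * A.n + 1) (hy : y ≤ 2 * A.n + 1) :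
    x * (3 * A.n) + y ≤ A.n + A.N' + 1 := by
  have h1 := A.hN
  have h2 : x * (3 * A.n) ≤ (2 * A.n + 1) * (3 * A.n) := Nat.mul_le_mul_right _ hx
  have h3 : (2 * A.n + 1) * (3 * A.n) = 6 * A.n * A.n + 3 * A.n := by ring
  simp only [n] at *
  omega

lemma obs_fc {b : Fin (k + 1)} {sd : Bool} {π : Equiv.Perm (Fin (k + 1))}
    {X : A.P × (Fin (k + 1) → ℕ)} {T : ℕ} {pos : Fin (k + 1) → ℕ} {st : List Stk}
    (h : A.InvFC b sd π X T pos st) :
    obsOf b sd π (obs A.v (pos, st)) = fun a => sym (tape (rowsW A.rs) A.N) (X.2 a) := by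
  obtain ⟨hb, hpos, hlast, hnear, hle, -⟩ := h
  obtain ⟨hbig1, hbig2⟩ := big (A := A)
  simp only [n] at hbig1 hbig2
  funext a
  simp only [obsOf]
  by_cases ha : a = b
  · subst ha
    rw [if_pos rfl]
    have hR := hle a
    simp only [R] at hR
    cases sd with
    | true =>
      simp only [cond_true, obs, A.hvl, hlast, numOf]
      simp only [nearS, cond_true] at hnear
      exact sym_tape_congr A.hW (by omega) (by omega)
    | false =>
      simp only [nearS, cond_false] at hnear
      simp only [cond_false, obs, sym, hlast, numOf]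
      by_cases h0 : X.2 a = A.R
      · simp only [R] at h0
        rw [h0]
        simp only [Nat.sub_self, decide_true, cond_true]
        have := sym_end (W := rowsW A.rs) (N := A.N) (p := (rowsW A.rs).length + 1 + A.N + 1) rfl
        simp only [sym] at this
        exact this.symm
      · simp only [R] at h0
        have h1 : decide ((rowsW A.rs).length + 1 + A.N + 1 - X.2 a = 0) = false := by
          simp only [decide_eq_false_iff_not]; omega
        rw [h1, cond_false]
        have := sym_blank (W := rowsW A.rs) (N := A.N) (p := X.2 a) (by omega) (by omega)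
        simp only [sym] at this
        exact this.symm
  · rw [if_neg ha]
    simp only [obs, A.hv _ (perm_ne hb ha), hpos a ha]

/-- the part of the body after the table look-up -/
def rest (b : Fin (k + 1)) (sd : Bool) (π : Equiv.Perm (Fin (k + 1))) (x : Val k) :
    Prog Letter Stk (k + 1) (Mode k ⊕ Bool) :=
  bif x.2.2 then pureP (Sum.inr false) else
      (swapP (Fin.last k)).bind fun r' => bif r' then fcTail b sd π x.2.1 else pureP (Sum.inr true)

lemma stepM_le {X : A.P × (Fin (k + 1) → ℕ)} (hle : ∀ a, X.2 a ≤ A.R) (a : Fin (k + 1)) :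
    (A.stepM X).2 a ≤ A.R := by
  have := hle a
  simp only [stepM, tape_length, mv, R] at *
  split_ifs <;> omega

theorem fc_first (hC : A.Coded) {b : Fin (k + 1)} {sd : Bool} {π : Equiv.Perm (Fin (k + 1))}
    {X : A.P × (Fin (k + 1) → ℕ)} {T : ℕ} {pos : Fin (k + 1) → ℕ} {st : List Stk}
    (h : A.InvFC b sd π X (T + 1) pos st) :
    ∃ pos₂ : Fin (k + 1) → ℕ, pos₂ (Fin.last k) = rowPos A.rs (A.idx (A.stepM X).1) ∧
      (∀ a, a ≠ b → pos₂ (π a) = (A.stepM X).2 a) ∧
      ∀ y m'', (rest b sd π (A.val X.1 (fun a => sym (tape (rowsW A.rs) A.N) (X.2 a)))).Runs A.v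
        (pos₂, List.replicate (numOf (rowsW A.rs) A.N sd ((A.stepM X).2 b)) unit ++
          bar :: List.replicate T clock) y m'' → (fcBody b sd π).Runs A.v (pos, st) y m'' := by
  have hobs := obs_fc h
  obtain ⟨hb, hpos, hlast, hnear, hle, rfl⟩ := h
  obtain ⟨hbig1, hbig2⟩ := big (A := A)
  set o : Ob k := fun a => sym (tape (rowsW A.rs) A.N) (X.2 a) with ho
  obtain ⟨es, hes, hent⟩ := hC X.1 o
  have hX' : (A.stepM X).1 = (A.η X.1 o).1 := rfl
  have hnum : numOf (rowsW A.rs) A.N sd (X.2 b) ≤ 2 * A.n := by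
    have := hle b
    cases sd with
    | true => simpa [nearS, numOf, n] using hnear
    | false =>
      simp only [nearS, cond_false] at hnear
      simp only [numOf, cond_false, n]; omega
  have hrp := rowPos_le A.rs (A.hidx X.1)
  refine ⟨fun i => mv (A.v i).length (Function.update (Function.update pos (Fin.last k)
    (rowPos A.rs (A.idx X.1))) (Fin.last k) (rowPos A.rs (A.idx (A.η X.1 o).1)) i)
    (mvsOf π (A.val X.1 o) i), ?_, ?_, ?_⟩
  · simp [mvsOf, mv_stay, hX']
  · intro a ha
    have hne := perm_ne hb ha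
    simp only [Function.update_of_ne hne, mvsOf, if_neg hne, Equiv.symm_apply_apply, hpos a ha,
      A.hv _ hne, val, stepM]
    rfl
  · intro y m'' hrun
    refine bind_runs (lookS_runs _ _ _ _) ?_
    rw [hobs]
    rw [show List.replicate (T + 1) clock = clock :: List.replicate T clock from rfl]
    refine bind_runs (swapP_runs A.hW A.hvl pos _ _ hlast (by omega)
      (swap_bound (A := A) (x := numOf (rowsW A.rs) A.N sd (X.2 b))
        (y := rowPos A.rs (A.idx X.1)) (by omega) (by simp only [n]; omega)) _) ?_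
    simp only [cond_true]
    refine bind_runs (exec_runs A.rs A.hvl (A.idx X.1) (encV o) (A.idx (A.η X.1 o).1)
      (A.val X.1 o) es hes hent (A.hidx _) (mvsOf π) (actOf b sd) _ (by simp) _ _) ?_
    have hact : updN (actOf b sd (A.val X.1 o)) (numOf (rowsW A.rs) A.N sd (X.2 b)) =
        numOf (rowsW A.rs) A.N sd ((A.stepM X).2 b) := by
      have := upd_num (W := rowsW A.rs) (N := A.N) (p := X.2 b) (sd := sd)
        (by simp only [n] at hbig2; omega) (hle b) hnear ((A.η X.1 o).2 b)
      simp only [actOf, val]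
      rw [this]
      simp only [stepM, tape_length, ho]
    rw [hact]
    exact hrun

theorem fc_accept (hC : A.Coded) {b : Fin (k + 1)} {sd : Bool} {π : Equiv.Perm (Fin (k + 1))}
    {X : A.P × (Fin (k + 1) → ℕ)} {T : ℕ} {pos : Fin (k + 1) → ℕ} {st : List Stk}
    (h : A.InvFC b sd π X (T + 1) pos st) (hG : X.1 ∈ A.G) :
    ∃ m', (fcBody b sd π).Runs A.v (pos, st) (Sum.inr false) m' := by
  obtain ⟨pos₂, -, -, h3⟩ := fc_first hC h
  refine ⟨_, h3 _ (pos₂, List.replicate (numOf (rowsW A.rs) A.N sd ((A.stepM X).2 b)) unit ++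
          bar :: List.replicate T clock) ?_⟩
  simp only [rest, val, hG, decide_true, cond_true]
  exact pureP_runs _ _ _

lemma num_le {b : Fin (k + 1)} {sd : Bool} {X : A.P × (Fin (k + 1) → ℕ)}
    (hle : ∀ a, X.2 a ≤ A.R) (hnear : nearS (rowsW A.rs) A.N sd (X.2 b)) :
    numOf (rowsW A.rs) A.N sd ((A.stepM X).2 b) ≤ 2 * A.n + 1 ∧
    (¬ nearS (rowsW A.rs) A.N sd ((A.stepM X).2 b) →
      (A.stepM X).2 b = launchPos (rowsW A.rs) A.N sd) := by
  have h1 := hle b
  obtain ⟨hbig1, hbig2⟩ := big (A := A)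
  simp only [n] at hbig1 hbig2
  cases sd with
  | true =>
    simp only [nearS, cond_true] at hnear
    simp only [nearS, cond_true, numOf, launchPos, n, stepM, tape_length, mv, R] at *
    split_ifs <;> constructor <;> omega
  | false =>
    simp only [nearS, cond_false] at hnear
    simp only [nearS, cond_false, numOf, launchPos, n, stepM, tape_length, mv, R] at *
    split_ifs <;> constructor <;> omega

theorem fc_second (hC : A.Coded) {b : Fin (k + 1)} {sd : Bool} {π : Equiv.Perm (Fin (k + 1))}
    {X : A.P × (Fin (k + 1) → ℕ)} {T : ℕ} {pos : Fin (k + 1) → ℕ} {st : List Stk}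
    (h : A.InvFC b sd π X (T + 1 + 1) pos st) (hG : X.1 ∉ A.G) :
    ∃ pos₂ : Fin (k + 1) → ℕ, pos₂ (Fin.last k) = numOf (rowsW A.rs) A.N sd ((A.stepM X).2 b) ∧
      (∀ a, a ≠ b → pos₂ (π a) = (A.stepM X).2 a) ∧
      ∀ y m'', (fcTail b sd π (A.D (A.stepM X).1)).Runs A.v
        (pos₂, List.replicate (rowPos A.rs (A.idx (A.stepM X).1)) unit ++
          bar :: List.replicate T clock) y m'' → (fcBody b sd π).Runs A.v (pos, st) y m'' := by
  obtain ⟨pos₂, h1, h2, h3⟩ := fc_first hC h
  obtain ⟨hnum, -⟩ := num_le h.hle h.hnear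
  have hrp := rowPos_le A.rs (A.hidx (A.stepM X).1)
  refine ⟨Function.update pos₂ (Fin.last k) (numOf (rowsW A.rs) A.N sd ((A.stepM X).2 b)),
    by simp, fun a ha => ?_, fun y m'' hrun => ?_⟩
  · rw [Function.update_of_ne (perm_ne h.hb ha)]; exact h2 a ha
  · refine h3 y m'' ?_
    simp only [rest, val, hG, decide_false, cond_false]
    rw [show List.replicate (T + 1) clock = clock :: List.replicate T clock from rfl]
    have h2n := two_le_n (A := A)
    refine bind_runs (swapP_runs A.hW A.hvl pos₂ _ _ h1 (by simp only [n] at hnum h2n; omega)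
      (swap_bound (A := A) (x := rowPos A.rs (A.idx (A.stepM X).1))
        (y := numOf (rowsW A.rs) A.N sd ((A.stepM X).2 b)) (by simp only [n]; omega) hnum) _) ?_
    simp only [cond_true]
    exact hrun

theorem fc_timeout1 (hC : A.Coded) {b : Fin (k + 1)} {sd : Bool}
    {π : Equiv.Perm (Fin (k + 1))}
    {X : A.P × (Fin (k + 1) → ℕ)} {pos : Fin (k + 1) → ℕ} {st : List Stk}
    (h : A.InvFC b sd π X (0 + 1) pos st) (hG : X.1 ∉ A.G) :
    ∃ m', (fcBody b sd π).Runs A.v (pos, st) (Sum.inr true) m' := by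
  obtain ⟨pos₂, h1, h2, h3⟩ := fc_first hC h
  obtain ⟨hnum, -⟩ := num_le h.hle h.hnear
  have hrp := rowPos_le A.rs (A.hidx (A.stepM X).1)
  obtain ⟨m', hm'⟩ := swapP_timeout A.hW A.hvl pos₂ _
    (numOf (rowsW A.rs) A.N sd ((A.stepM X).2 b)) h1
    (swap_bound (A := A) (x := rowPos A.rs (A.idx (A.stepM X).1))
        (y := numOf (rowsW A.rs) A.N sd ((A.stepM X).2 b)) (by simp only [n]; omega) hnum)
  refine ⟨m', h3 _ _ ?_⟩
  simp only [rest, val, hG, decide_false, cond_false, List.replicate_zero]
  refine bind_runs hm' ?_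
  simp only [cond_false]
  exact pureP_runs _ _ _

theorem fc_timeout0 {b : Fin (k + 1)} {sd : Bool}
    {π : Equiv.Perm (Fin (k + 1))}
    {X : A.P × (Fin (k + 1) → ℕ)} {pos : Fin (k + 1) → ℕ} {st : List Stk}
    (h : A.InvFC b sd π X 0 pos st) :
    ∃ m', (fcBody b sd π).Runs A.v (pos, st) (Sum.inr true) m' := by
  have hrp := rowPos_le A.rs (A.hidx X.1)
  obtain ⟨hb, hpos, hlast, hnear, hle, rfl⟩ := h
  have hnum : numOf (rowsW A.rs) A.N sd (X.2 b) ≤ 2 * A.n := by
    have := hle b
    cases sd with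
    | true => simpa [nearS, numOf, n] using hnear
    | false =>
      simp only [nearS, cond_false] at hnear
      simp only [numOf, cond_false, n]; omega
  obtain ⟨m', hm'⟩ := swapP_timeout A.hW A.hvl pos _
    (rowPos A.rs (A.idx X.1)) hlast
    (swap_bound (A := A) (x := numOf (rowsW A.rs) A.N sd (X.2 b))
        (y := rowPos A.rs (A.idx X.1)) (by omega) (by simp only [n]; omega))
  refine ⟨m', ?_⟩
  refine bind_runs (lookS_runs _ _ _ _) ?_
  simp only [List.replicate_zero]
  refine bind_runs hm' ?_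
  simp only [cond_false]
  exact pureP_runs _ _ _

end Sim

end Pool.Agent.Helper7
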