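import Pool.Agent.Helper7.Near

set_option autoImplicit false

/-!
The universal machine: `k` heads which see the whole input, one head (the last) on its own tape,
and a pushdown.  Definition of the program.
-/

namespace Pool.Agent.Helper7

open Letter Stk

/-- values of table entries: moves, flight information of the target, acceptance of the source -/
abbrev Val (k : ℕ) := (Fin (k + 1) → Fin 3) × Option (Fin (k + 1) → Bool) × Bool
/-- observations of `k + 1` heads -/
abbrev Ob (k : ℕ) := Fin (k + 1) → Bool × Option Letter
/-- modes of the main loop -/
abbrev Mode (k : ℕ) := Bool × Fin (k + 1) × Bool × Equiv.Perm (Fin (k + 1))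

section

variable {k : ℕ}

/-- moves of the heads of the simulating machine -/
def mvsOf (π : Equiv.Perm (Fin (k + 1))) (x : Val k) (i : Fin (k + 1)) : Fin 3 :=
  if i = Fin.last k then 1 else x.1 (π.symm i)

/-- reversed direction -/
def rev3 (d : Fin 3) : Fin 3 := if d = 0 then 2 else if d = 1 then 1 else 0

/-- action on the number of the virtual coordinate -/
def actOf (b : Fin (k + 1)) (sd : Bool) (x : Val k) : Fin 3 := bif sd then x.1 b else rev3 (x.1 b)

/-- the observation of the simulated machine -/
def obsOf (b : Fin (k + 1)) (sd : Bool) (π : Equiv.Perm (Fin (k + 1))) (o : Ob k) : Ob k :=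
  fun a => if a = b then
    (bif sd then o (Fin.last k) else bif (o (Fin.last k)).1 then (false, none)
      else (false, some blank)) else o (π a)

/-- a coordinate different from `b` (if `k ≥ 1`) -/
def other (b : Fin (k + 1)) : Fin (k + 1) := if b = 0 then Fin.last k else 0

lemma other_ne (hk : 1 ≤ k) (b : Fin (k + 1)) : other b ≠ b := by
  unfold other
  by_cases hb : b = 0
  · rw [if_pos hb, hb]
    intro h
    have := congrArg Fin.val h
    simp at this
    omega
  · rw [if_neg hb]
    exact fun h => hb h.symm

/-- is the virtual coordinate still near? -/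
def bTest (sd : Bool) : Prog Letter Stk (k + 1) Bool :=
  bif sd then (nearTest (Fin.last k)).bind fun r => pureP (decide (r = some true))
  else lookS fun o _ => isLow (o (Fin.last k)) || atDollar (o (Fin.last k))

/-- search for a near coordinate -/
def findNear (b : Fin (k + 1)) (π : Equiv.Perm (Fin (k + 1))) :
    List (Fin (k + 1)) → Prog Letter Stk (k + 1) (Option (Fin (k + 1) × Bool))
  | [] => pureP none
  | a :: l => if a = b then findNear b π l else
      (nearTest (π a)).bind fun r => match r with
        | some sd => pureP (some (a, sd))
        | none => findNear b π l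

/-- change the virtual coordinate from one at its launching position to `a` -/
def roleSwitch (sd : Bool) (a : Fin (k + 1)) (sd' : Bool) (π : Equiv.Perm (Fin (k + 1))) :
    Prog Letter Stk (k + 1) Unit :=
  (toNum (π a) sd').bind fun _ => (goLaunch (π a) sd).bind fun _ =>
    (toZero (Fin.last k)).bind fun _ => popNum (Fin.last k)

/-- start of a flight -/
def launch (sd : Bool) (c : Fin (k + 1)) (sdc : Bool) (π : Equiv.Perm (Fin (k + 1))) :
    Prog Letter Stk (k + 1) Unit :=
  (toZero (Fin.last k)).bind fun _ => (popNum (Fin.last k)).bind fun _ =>
    (pushDist (π c) sdc).bind fun _ => goLaunch (π c) sd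

/-- what to do when the virtual coordinate `b` is at its launching position -/
def afterNear (b : Fin (k + 1)) (sd : Bool) (π : Equiv.Perm (Fin (k + 1)))
    (D : Option (Fin (k + 1) → Bool)) :
    Option (Fin (k + 1) × Bool) → Prog Letter Stk (k + 1) (Mode k ⊕ Bool)
  | some (a, sd') => (roleSwitch sd a sd' π).bind fun _ =>
      pureP (Sum.inl (true, a, sd', π * Equiv.swap a b))
  | none => match D with
    | none => pureP (Sum.inr true)
    | some dir => (launch sd (other b) (dir (other b)) π).bind fun _ =>
        pureP (Sum.inl (false, other b, dir (other b), π * Equiv.swap b (other b)))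

/-- second half of a step near an end -/
def fcTail (b : Fin (k + 1)) (sd : Bool) (π : Equiv.Perm (Fin (k + 1)))
    (D : Option (Fin (k + 1) → Bool)) : Prog Letter Stk (k + 1) (Mode k ⊕ Bool) :=
  (bTest sd).bind fun nb => bif nb then pureP (Sum.inl (true, b, sd, π)) else
    (findNear b π (List.finRange (k + 1))).bind fun r => afterNear b sd π D r

/-- a step of the simulated machine near an end -/
noncomputable def fcBody (b : Fin (k + 1)) (sd : Bool) (π : Equiv.Perm (Fin (k + 1))) :
    Prog Letter Stk (k + 1) (Mode k ⊕ Bool) :=
  (lookS fun o _ => obsOf b sd π o).bind fun o => (swapP (Fin.last k)).bind fun r => bif r then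
    (exec (Val k) (Fin.last k) (encV o) (mvsOf π) (actOf b sd)).bind fun x =>
      bif x.2.2 then pureP (Sum.inr false) else
      (swapP (Fin.last k)).bind fun r' => bif r' then fcTail b sd π x.2.1 else pureP (Sum.inr true)
  else pureP (Sum.inr true)

/-- all heads read blank -/
def oBlank : Ob k := fun _ => (false, some blank)

/-- coordinate `e` is at the marker or at the right end -/
def atBd (o : Ob k) (c : Fin (k + 1)) (π : Equiv.Perm (Fin (k + 1))) (e : Fin (k + 1)) : Prop :=
  e ≠ c ∧ (atDollar (o (π e)) || atEnd (o (π e))) = true

open Classical in
/-- events in a flight -/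
noncomputable def event (c : Fin (k + 1)) (π : Equiv.Perm (Fin (k + 1))) (o : Ob k)
    (t : Option Stk) : Option (Option (Fin (k + 1) × Bool)) :=
  if t = some bar then some none else
    if h : ∃ e, atBd o c π e then
      some (some (Classical.choose h, atDollar (o (π (Classical.choose h))))) else none

/-- what to do after an event -/
def afterEvent (c : Fin (k + 1)) (sd : Bool) (π : Equiv.Perm (Fin (k + 1))) :
    Option (Option (Fin (k + 1) × Bool)) → Prog Letter Stk (k + 1) (Mode k ⊕ Bool)
  | none => pureP (Sum.inl (false, c, sd, π))
  | some none => popS.bind fun _ => (pushNum (Fin.last k)).bind fun _ =>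
      (bif sd then toMark (Fin.last k) else pureP ()).bind fun _ =>
        pureP (Sum.inl (true, c, sd, π))
  | some (some (e, sde)) => (popDist (π e) sd).bind fun _ => (pushNum (Fin.last k)).bind fun _ =>
      (bif sde then toMark (Fin.last k) else pureP ()).bind fun _ =>
        pureP (Sum.inl (true, e, sde, π * Equiv.swap c e))

/-- a step of the simulated machine in a flight -/
noncomputable def flBody (c : Fin (k + 1)) (sd : Bool) (π : Equiv.Perm (Fin (k + 1))) :
    Prog Letter Stk (k + 1) (Mode k ⊕ Bool) :=
  (exec (Val k) (Fin.last k) (encV (oBlank : Ob k)) (mvsOf π) (actOf c sd)).bind fun x =>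
    bif x.2.2 then pureP (Sum.inr false) else
      (lookS fun o t => event c π o t).bind fun r => afterEvent c sd π r

/-- body of the main loop -/
noncomputable def mainBody (q : Mode k) : Prog Letter Stk (k + 1) (Mode k ⊕ Bool) :=
  bif q.1 then fcBody q.2.1 q.2.2.1 q.2.2.2 else flBody q.2.1 q.2.2.1 q.2.2.2

/-- nested loops over a list of heads, pushing one clock symbol per round -/
def clockBody (h : Fin (k + 1)) (p : Prog Letter Stk (k + 1) Unit) (_ : Unit) :
    Prog Letter Stk (k + 1) (Unit ⊕ Unit) :=
  p.bind fun _ => (lookS fun o _ => atEnd (o h)).bind fun b => bif b then pureP (Sum.inr ())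
    else (moveS h 2).bind fun _ => pureP (Sum.inl ())

/-- push the clock -/
def clockP : List (Fin (k + 1)) → Prog Letter Stk (k + 1) Unit
  | [] => pushS [clock]
  | h :: l => (toZero h).bind fun _ => iter (clockBody h (clockP l)) ()

/-- all heads to the left end -/
def zeroAll : List (Fin (k + 1)) → Prog Letter Stk (k + 1) Unit
  | [] => pureP ()
  | h :: l => (toZero h).bind fun _ => zeroAll l

/-- the universal machine -/
noncomputable def univP (k : ℕ) : Prog Letter Stk (k + 1) Bool :=
  (clockP (List.finRange (k + 1))).bind fun _ => (zeroAll (List.finRange (k + 1))).bind fun _ =>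
    (pushS [unit, bar]).bind fun _ =>
      iter mainBody (true, Fin.last k, true, (1 : Equiv.Perm (Fin (k + 1))))

end

section clockSpec

variable {k : ℕ} {W : List Letter} {v : Fin (k + 1) → List Letter} {M : Fin (k + 1) → ℕ}

/-- the number of clock symbols pushed -/
def clockN (W : List Letter) (M : Fin (k + 1) → ℕ) : List (Fin (k + 1)) → ℕ
  | [] => 1
  | h :: l => (W.length + 1 + M h + 2) * clockN W M l

theorem clockP_runs (hW : GoodW W) (hv : ∀ h, v h = tape W (M h)) (l : List (Fin (k + 1))) :
    ∀ (_ : l.Nodup) (pos : Fin (k + 1) → ℕ) (st : List Stk),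
    ∃ pos', (∀ i, i ∉ l → pos' i = pos i) ∧
      (∀ i, pos i ≤ W.length + 1 + M i + 1 → pos' i ≤ W.length + 1 + M i + 1) ∧
      (clockP l).Runs v (pos, st) () (pos', List.replicate (clockN W M l) clock ++ st) := by
  induction l with
  | nil => exact fun _ pos st => ⟨pos, fun _ _ => rfl, fun _ h => h, pushS_runs _ _ _ _⟩
  | cons h l ih =>
    intro hnd pos st
    rw [List.nodup_cons] at hnd
    -- the loop from position `R - m`
    have key : ∀ (m : ℕ) (pos : Fin (k + 1) → ℕ) (st : List Stk),
        m ≤ W.length + 1 + M h + 1 → pos h = W.length + 1 + M h + 1 - m →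
        ∃ pos', (∀ i, i ∉ h :: l → pos' i = pos i) ∧
          (∀ i, pos i ≤ W.length + 1 + M i + 1 → pos' i ≤ W.length + 1 + M i + 1) ∧
          (iter (clockBody h (clockP l)) ()).Runs v (pos, st) ()
            (pos', List.replicate ((m + 1) * clockN W M l) clock ++ st) := by
      intro m
      induction m with
      | zero =>
        intro pos st _ hp
        obtain ⟨pos', h1, h2, h3⟩ := ih hnd.2 pos st
        have hh : pos' h = W.length + 1 + M h + 1 := by rw [h1 h hnd.1, hp]; omega
        refine ⟨pos', fun i hi => h1 i (fun h => hi (List.mem_cons_of_mem _ h)), h2, ?_⟩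
        refine iter_exit (bind_runs h3 (bind_runs (lookS_runs _ _ _ _) ?_))
        have : atEnd (obs v (pos', List.replicate (clockN W M l) clock ++ st) h) = true := by
          simp only [obs, hv]
          rw [atEnd_iff hW (by omega)]
          exact hh
        simp only [this, cond_true, Nat.zero_add, Nat.one_mul]
        exact pureP_runs _ _ _
      | succ m ihm =>
        intro pos st hm hp
        obtain ⟨pos', h1, h2, h3⟩ := ih hnd.2 pos st
        have hh : pos' h = W.length + 1 + M h + 1 - (m + 1) := by rw [h1 h hnd.1, hp]
        obtain ⟨pos'', g1, g2, g3⟩ := ihm (Function.update pos' h (pos' h + 1))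
          (List.replicate (clockN W M l) clock ++ st) (by omega) (by simp; omega)
        refine ⟨pos'', fun i hi => ?_, fun i hi => ?_, ?_⟩
        · rw [g1 i hi, Function.update_of_ne (by rintro rfl; simp at hi),
            h1 i (fun h => hi (List.mem_cons_of_mem _ h))]
        · apply g2
          by_cases hih : i = h
          · subst hih; simp; omega
          · rw [Function.update_of_ne hih]; exact h2 i hi
        · refine iter_cont (e' := ()) (m' := (Function.update pos' h (pos' h + 1),
            List.replicate (clockN W M l) clock ++ st)) ?_ ?_
          · refine bind_runs h3 (bind_runs (lookS_runs _ _ _ _) ?_)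
            have : atEnd (obs v (pos', List.replicate (clockN W M l) clock ++ st) h) = false := by
              simp only [obs, hv]
              rw [Bool.eq_false_iff, ne_eq, atEnd_iff hW (by omega)]
              omega
            simp only [this, cond_false]
            have h4 := moveS_runs (Γ := Stk) h 2 v pos' (List.replicate (clockN W M l) clock ++ st)
            rw [mv_right (by rw [hv, tape_length]; omega)] at h4
            exact bind_runs h4 (pureP_runs _ _ _)
          · have e : List.replicate ((m + 1 + 1) * clockN W M l) clock ++ st =
                List.replicate ((m + 1) * clockN W M l) clock ++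
                  (List.replicate (clockN W M l) clock ++ st) := by
              rw [← List.append_assoc, ← List.replicate_add]
              congr 2
              ring
            rw [e]
            exact g3
    obtain ⟨pos', h1, h2, h3⟩ := key (W.length + 1 + M h + 1) (Function.update pos h 0) st le_rfl
      (by simp)
    refine ⟨pos', fun i hi => ?_, fun i hi => ?_, ?_⟩
    · rw [h1 i hi, Function.update_of_ne (by rintro rfl; simp at hi)]
    · apply h2
      by_cases hih : i = h
      · subst hih; simp
      · rw [Function.update_of_ne hih]; exact hi
    · refine bind_runs (toZero_runs _ _) ?_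
      exact h3

theorem zeroAll_runs (l : List (Fin (k + 1))) : ∀ (pos : Fin (k + 1) → ℕ) (st : List Stk),
    (zeroAll l).Runs v (pos, st) () ((fun i => if i ∈ l then 0 else pos i), st) := by
  induction l with
  | nil => intro pos st; simpa [zeroAll] using pureP_runs () v (pos, st)
  | cons h l ih =>
    intro pos st
    refine bind_runs (toZero_runs _ _) ?_
    have := ih (Function.update pos h 0) st
    have e : (fun i => if i ∈ l then 0 else Function.update pos h 0 i) =
        (fun i => if i ∈ h :: l then 0 else pos i) := by
      funext i
      by_cases h1 : i = h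
      · subst h1; simp
      · by_cases h2 : i ∈ l
        · simp [h2]
        · simp [h1, h2]
    rw [e] at this
    exact this

end clockSpec

end Pool.Agent.Helper7
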