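import Pool.Agent.Helper7.Code

set_option autoImplicit false

/-!
Programs measuring distances of a head from the marker and from the right end.
-/

namespace Pool.Agent.Helper7

open Letter Stk

section

variable {K : ℕ} {W : List Letter} {N : ℕ} {v : Fin K → List Letter} {h : Fin K}

/-- push the distance to the marker (`true`) or to the right end (`false`) -/
def pushDist (h : Fin K) (sd : Bool) : Prog Letter Stk K Unit :=
  (pushS [bar]).bind fun _ => bif sd then walk h 0 atDollar [unit] else walk h 2 atEnd [unit]

theorem pushDist_runs_left (hW : GoodW W) (hv : v h = tape W N) (pos : Fin K → ℕ)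
    (hp : pos h ≤ W.length + 1 + N + 1) (hp' : W.length + 1 ≤ pos h) (st : List Stk) :
    (pushDist h true).Runs v (pos, st) () (Function.update pos h (W.length + 1),
      List.replicate (pos h - (W.length + 1)) unit ++ bar :: st) := by
  refine bind_runs (pushS_runs _ _ _ _) ?_
  have := walk_runs (h := h) (d := 0) (stop := atDollar) (l := [unit]) (v := v)
    (pos h - (W.length + 1)) pos ([bar] ++ st) (fun i => pos h - i) (by simp) (fun i hi => ⟨by
      have : ¬ (atDollar (sym (v h) (pos h - i)) = true) := by
        rw [hv, atDollar_iff hW (by omega)]; omega
      simpa using this, by rw [mv_left]; omega⟩)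
      (by rw [hv, atDollar_iff hW (by omega)]; omega)
  have e : pos h - (pos h - (W.length + 1)) = W.length + 1 := by omega
  simpa [e] using this

theorem pushDist_runs_right (hW : GoodW W) (hv : v h = tape W N) (pos : Fin K → ℕ)
    (hp : pos h ≤ W.length + 1 + N + 1) (st : List Stk) :
    (pushDist h false).Runs v (pos, st) () (Function.update pos h (W.length + 1 + N + 1),
      List.replicate (W.length + 1 + N + 1 - pos h) unit ++ bar :: st) := by
  refine bind_runs (pushS_runs _ _ _ _) ?_
  have := walk_runs (h := h) (d := 2) (stop := atEnd) (l := [unit]) (v := v)
    (W.length + 1 + N + 1 - pos h) pos ([bar] ++ st) (fun i => pos h + i) (by simp)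
    (fun i hi => ⟨by
      have : ¬ (atEnd (sym (v h) (pos h + i)) = true) := by
        rw [hv, atEnd_iff hW (by omega)]; omega
      simpa using this, by rw [hv, mv_right (by rw [tape_length]; omega)]; omega⟩)
      (by rw [hv, atEnd_iff hW (by omega)]; omega)
  have e : pos h + (W.length + 1 + N + 1 - pos h) = W.length + 1 + N + 1 := by omega
  simpa [e] using this

/-- move the head to the position whose distance from the marker (`true`) or from the right end
(`false`) is on the stack -/
def popDist (h : Fin K) (sd : Bool) : Prog Letter Stk K Unit :=
  bif sd then (toZero h).bind fun _ => (toMark h).bind fun _ => popNum h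
  else (toEnd h).bind fun _ => popNumL h

theorem popDist_runs_left (hW : GoodW W) (hv : v h = tape W N) (pos : Fin K → ℕ) (m : ℕ)
    (hm : m ≤ N + 1) (st : List Stk) :
    (popDist h true).Runs v (pos, List.replicate m unit ++ bar :: st) ()
      (Function.update pos h (W.length + 1 + m), st) := by
  refine bind_runs (toZero_runs _ _) ?_
  refine bind_runs (toMark_runs hW hv _ (by simp) _) ?_
  have := popNum_runs (h := h) (v := v)
    (Function.update (Function.update pos h 0) h (W.length + 1)) m
    (by rw [hv, tape_length]; simp; omega) st
  simpa [Function.update_idem] using this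

theorem popDist_runs_right (hW : GoodW W) (hv : v h = tape W N) (pos : Fin K → ℕ)
    (hp : pos h ≤ W.length + 1 + N + 1) (m : ℕ) (st : List Stk) :
    (popDist h false).Runs v (pos, List.replicate m unit ++ bar :: st) ()
      (Function.update pos h (W.length + 1 + N + 1 - m), st) := by
  refine bind_runs (toEnd_runs hW hv pos hp _) ?_
  have := popNumL_runs (h := h) (v := v)
    (Function.update pos h (W.length + 1 + N + 1)) m st
  simpa [Function.update_idem] using this

/-- is the distance to the marker / right end at most `|W|+1`? -/
def distTest (h : Fin K) (sd : Bool) : Prog Letter Stk K Bool :=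
  (pushDist h sd).bind fun _ => (toZero h).bind fun _ => (popUntil unit h 2 atDollar).bind fun _ =>
  (lookS fun _ t => decide (t = some bar)).bind fun r => (walk h 0 atZero [unit]).bind fun _ =>
  (popDist h sd).bind fun _ => pureP r

theorem distTest_mid (hW : GoodW W) (hv : v h = tape W N) (pos : Fin K → ℕ) (m : ℕ)
    (sd r : Bool) (pos' : Fin K → ℕ) (st : List Stk) (hr : r = decide (m ≤ W.length + 1))
    (hpd : (popDist h sd).Runs v (Function.update pos h 0, List.replicate m unit ++ bar :: st) ()
      (pos', st)) :
    ((popUntil unit h 2 atDollar).bind fun _ =>
      (lookS fun _ t => decide (t = some bar)).bind fun r => (walk h 0 atZero [unit]).bind fun _ =>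
        (popDist h sd).bind fun _ => pureP r).Runs v
      (Function.update pos h 0, List.replicate m unit ++ bar :: st) r (pos', st) := by
  have h1 := popUntil_runs (u := unit) (h := h) (d := 2) (stop := atDollar) (v := v)
    (st := bar :: st) (by simp) (min m (W.length + 1)) m (Function.update pos h 0) (fun i => i)
    (by simp) (by omega) (fun i hi => ⟨by
      have : ¬ (atDollar (sym (v h) i) = true) := by
        rw [hv, atDollar_iff hW (by omega)]; omega
      simpa using this, by rw [hv, mv_right (by rw [tape_length]; omega)]⟩)
    (by
      rcases Nat.le_total m (W.length + 1) with hle | hle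
      · left; omega
      · right; rw [hv, atDollar_iff hW (by omega)]; omega)
  refine bind_runs h1 ?_
  simp only [Function.update_idem]
  refine bind_runs (lookS_runs _ _ _ _) ?_
  have hr2 : decide ((List.replicate (m - min m (W.length + 1)) unit ++ bar :: st).head? =
      some bar) = r := by
    rw [hr]
    rcases Nat.lt_or_ge (W.length + 1) m with hlt | hle
    · obtain ⟨c, hc⟩ : ∃ c, m - min m (W.length + 1) = c + 1 := ⟨m - (W.length + 1) - 1, by omega⟩
      rw [hc]
      simp [List.replicate_succ]; omega
    · rw [show m - min m (W.length + 1) = 0 by omega]
      simp; omega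
  have h2 := walk_runs (h := h) (d := 0) (stop := atZero) (l := [unit]) (v := v)
    (min m (W.length + 1)) (Function.update pos h (min m (W.length + 1)))
    (List.replicate (m - min m (W.length + 1)) unit ++ bar :: st)
    (fun i => min m (W.length + 1) - i) (by simp) (fun i hi => ⟨by
      have : ¬ (atZero (sym (v h) (min m (W.length + 1) - i)) = true) := by
        rw [atZero_iff]; omega
      simpa using this, by rw [mv_left]; omega⟩) (by rw [atZero_iff]; omega)
  refine bind_runs h2 ?_
  have h3 : (List.replicate (min m (W.length + 1)) [unit]).flatten ++
      (List.replicate (m - min m (W.length + 1)) unit ++ bar :: st) =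
      List.replicate m unit ++ bar :: st := by
    rw [← List.append_assoc]
    congr 1
    have : (List.replicate (min m (W.length + 1)) [unit]).flatten =
      List.replicate (min m (W.length + 1)) unit := by simp
    rw [this, ← List.replicate_add]
    congr 1
    omega
  rw [h3]
  simp only [Function.update_idem, Nat.sub_self]
  refine bind_runs hpd ?_
  rw [hr2]
  exact pureP_runs _ _ _

theorem distTest_left (hW : GoodW W) (hv : v h = tape W N) (pos : Fin K → ℕ)
    (hp : pos h ≤ W.length + 1 + N + 1) (hp' : W.length + 1 ≤ pos h) (st : List Stk) :
    (distTest h true).Runs v (pos, st) (decide (pos h ≤ 2 * (W.length + 1))) (pos, st) := by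
  refine bind_runs (pushDist_runs_left hW hv pos hp hp' st) ?_
  refine bind_runs (toZero_runs _ _) ?_
  simp only [Function.update_idem]
  refine distTest_mid hW hv pos _ _ _ _ _ (by congr 1; simp only [eq_iff_iff]; omega) ?_
  have := popDist_runs_left hW hv (Function.update pos h 0) (pos h - (W.length + 1))
    (by omega) st
  simp only [Function.update_idem] at this
  rw [show W.length + 1 + (pos h - (W.length + 1)) = pos h by omega,
    Function.update_eq_self] at this
  exact this

theorem distTest_right (hW : GoodW W) (hv : v h = tape W N) (pos : Fin K → ℕ)
    (hp : pos h ≤ W.length + 1 + N + 1) (st : List Stk) :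
    (distTest h false).Runs v (pos, st)
      (decide (W.length + 1 + N + 1 - pos h ≤ W.length + 1)) (pos, st) := by
  refine bind_runs (pushDist_runs_right hW hv pos hp st) ?_
  refine bind_runs (toZero_runs _ _) ?_
  simp only [Function.update_idem]
  refine distTest_mid hW hv pos _ _ _ _ _ rfl ?_
  have := popDist_runs_right hW hv (Function.update pos h 0) (by simp)
    (W.length + 1 + N + 1 - pos h) st
  simp only [Function.update_idem] at this
  rw [show W.length + 1 + N + 1 - (W.length + 1 + N + 1 - pos h) = pos h by omega,
    Function.update_eq_self] at this
  exact this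

/-- is the head near the left end (`some true`), near the right end (`some false`), or neither -/
def nearTest (h : Fin K) : Prog Letter Stk K (Option Bool) :=
  (lookS fun o _ => bif isLow (o h) || atDollar (o h) then some (some true) else
    bif atEnd (o h) then some (some false) else none).bind fun (r : Option (Option Bool)) =>
  match r with
  | some x => pureP x
  | none => (distTest h true).bind fun b => bif b then pureP (some true) else
      (distTest h false).bind fun b => bif b then pureP (some false) else pureP none

/-- the value of the near test -/
def nearVal (W : List Letter) (N p : ℕ) : Option Bool :=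
  if p ≤ 2 * (W.length + 1) then some true
  else if W.length + 1 + N + 1 - p ≤ W.length + 1 then some false else none

theorem nearTest_runs (hW : GoodW W) (hv : v h = tape W N) (hN : W.length + 1 ≤ N)
    (pos : Fin K → ℕ) (hp : pos h ≤ W.length + 1 + N + 1) (st : List Stk) :
    (nearTest h).Runs v (pos, st) (nearVal W N (pos h)) (pos, st) := by
  refine bind_runs (lookS_runs _ _ _ _) ?_
  have ho : obs v (pos, st) h = sym (tape W N) (pos h) := by simp only [obs, hv]
  simp only [ho]
  have hlow := isLow_iff (N := N) hW hp
  have hdol := atDollar_iff (N := N) hW hp
  have hend := atEnd_iff (N := N) hW hp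
  by_cases h1 : pos h ≤ W.length + 1
  · have : (isLow (sym (tape W N) (pos h)) || atDollar (sym (tape W N) (pos h))) = true := by
      rw [Bool.or_eq_true, hlow, hdol]; omega
    simp only [this, cond_true]
    have e : nearVal W N (pos h) = some true := by
      simp only [nearVal]; rw [if_pos (by omega)]
    rw [e]
    exact pureP_runs _ _ _
  · have h2 : (isLow (sym (tape W N) (pos h)) || atDollar (sym (tape W N) (pos h))) = false := by
      rw [Bool.eq_false_iff, ne_eq, Bool.or_eq_true, hlow, hdol]; omega
    simp only [h2, cond_false]
    by_cases h3 : pos h = W.length + 1 + N + 1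
    · have h4 : atEnd (sym (tape W N) (pos h)) = true := hend.2 h3
      simp only [h4, cond_true]
      have e : nearVal W N (pos h) = some false := by
        simp only [nearVal]; rw [if_neg (by omega), if_pos (by omega)]
      rw [e]
      exact pureP_runs _ _ _
    · have h4 : atEnd (sym (tape W N) (pos h)) = false := by
        rw [Bool.eq_false_iff, ne_eq, hend]; exact h3
      simp only [h4, cond_false]
      refine bind_runs (distTest_left hW hv pos hp (by omega) st) ?_
      by_cases h5 : pos h ≤ 2 * (W.length + 1)
      · simp only [h5, decide_true, cond_true, nearVal, if_true]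
        exact pureP_runs _ _ _
      · simp only [h5, decide_false, cond_false]
        refine bind_runs (distTest_right hW hv pos hp st) ?_
        by_cases h6 : W.length + 1 + N + 1 - pos h ≤ W.length + 1
        · simp only [h6, decide_true, cond_true, nearVal, if_true, h5, if_false]
          exact pureP_runs _ _ _
        · simp only [h6, decide_false, cond_false, nearVal, h5, if_false]
          exact pureP_runs _ _ _

/-- go to the launching position -/
def goLaunch (h : Fin K) (sd : Bool) : Prog Letter Stk K Unit :=
  (toZero h).bind fun _ => (toMark h).bind fun _ => bif sd then (addN h).bind fun _ => moveS h 2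
  else (pushNum h).bind fun _ => (popDist h false).bind fun _ => moveS h 0

/-- the launching position -/
def launchPos (W : List Letter) (N : ℕ) (sd : Bool) : ℕ :=
  bif sd then 2 * (W.length + 1) + 1 else W.length + 1 + N + 1 - (W.length + 1 + 1)

theorem goLaunch_runs (hW : GoodW W) (hv : v h = tape W N) (hN : W.length + 1 ≤ N)
    (pos : Fin K → ℕ) (sd : Bool) (st : List Stk) :
    (goLaunch h sd).Runs v (pos, st) () (Function.update pos h (launchPos W N sd), st) := by
  refine bind_runs (toZero_runs _ _) ?_
  refine bind_runs (toMark_runs hW hv _ (by simp) _) ?_
  simp only [Function.update_idem]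
  cases sd with
  | true =>
    simp only [cond_true]
    refine bind_runs (addN_runs hW hv _ (by simp; omega) _) ?_
    have := moveS_runs (Γ := Stk) h 2 v (Function.update (Function.update pos h (W.length + 1)) h
      (Function.update pos h (W.length + 1) h + (W.length + 1))) st
    simp only [Function.update_self, Function.update_idem] at this ⊢
    rw [mv_right (by rw [hv, tape_length]; omega)] at this
    simpa [launchPos, Nat.two_mul] using this
  | false =>
    simp only [cond_false]
    refine bind_runs (pushNum_runs _ _) ?_
    simp only [Function.update_self, Function.update_idem]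
    refine bind_runs (popDist_runs_right hW hv _ (by simp) _ _) ?_
    have := moveS_runs (Γ := Stk) h 0 v (Function.update (Function.update pos h 0) h
      (W.length + 1 + N + 1 - (W.length + 1))) st
    simp only [Function.update_self, Function.update_idem] at this ⊢
    rw [mv_left] at this
    simpa [launchPos, Nat.sub_sub] using this

/-- push the number of a coordinate near the left (`true`) or right (`false`) end -/
def toNum (h : Fin K) (sd : Bool) : Prog Letter Stk K Unit :=
  bif sd then pushNum h else pushDist h false

/-- the number of a coordinate -/
def numOf (W : List Letter) (N : ℕ) (sd : Bool) (p : ℕ) : ℕ :=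
  bif sd then p else W.length + 1 + N + 1 - p

theorem toNum_runs (hW : GoodW W) (hv : v h = tape W N)
    (pos : Fin K → ℕ) (hp : pos h ≤ W.length + 1 + N + 1) (sd : Bool) (st : List Stk) :
    ∃ q, (toNum h sd).Runs v (pos, st) () (Function.update pos h q,
      List.replicate (numOf W N sd (pos h)) unit ++ bar :: st) := by
  cases sd with
  | true => exact ⟨0, pushNum_runs _ _⟩
  | false => exact ⟨_, pushDist_runs_right hW hv pos hp st⟩

end

end Pool.Agent.Helper7
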