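import Mathlib

set_option autoImplicit false

/-!
Finite-control programs for multihead two-way pushdown machines, in which every head reads its own
tape.  A program with results in `E` is a finite control together with a start and exits labelled
by `E`; programs are composed by `bind`, `iter` and `whileP`.
-/

namespace Pool.Agent.Helper7

/-- What a head at position `p` sees on the tape `u`. -/
def sym {α : Type} (u : List α) (p : ℕ) : Bool × Option α := (decide (p = 0), u[p - 1]?)

/-- Move of a head on a tape of length `n`. -/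
def mv (n p : ℕ) (d : Fin 3) : ℕ :=
  if d = 0 then p - 1 else if d = 1 then p else min (p + 1) (n + 1)

/-- One step of a pushdown machine whose head `j` runs on the tape `v j`. -/
def pdaStep {α : Type} {K : ℕ} {Q Γ : Type}
    (δ : Q → (Fin K → Bool × Option α) → Option Γ → Q × (Fin K → Fin 3) × List Γ)
    (v : Fin K → List α) (c : Q × (Fin K → ℕ) × List Γ) : Q × (Fin K → ℕ) × List Γ :=
  ((δ c.1 (fun j => sym (v j) (c.2.1 j)) c.2.2.head?).1,
   (fun i => mv (v i).length (c.2.1 i) ((δ c.1 (fun j => sym (v j) (c.2.1 j)) c.2.2.head?).2.1 i)),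
   (δ c.1 (fun j => sym (v j) (c.2.1 j)) c.2.2.head?).2.2 ++ c.2.2.tail)

section

variable {α Γ : Type} {K : ℕ}

/-- The observation of all heads. -/
def obs (v : Fin K → List α) (m : (Fin K → ℕ) × List Γ) : Fin K → Bool × Option α :=
  fun j => sym (v j) (m.1 j)

/-- The memory after an action. -/
def upd (v : Fin K → List α) (m : (Fin K → ℕ) × List Γ) (r : (Fin K → Fin 3) × List Γ) :
    (Fin K → ℕ) × List Γ :=
  (fun i => mv (v i).length (m.1 i) (r.1 i), r.2 ++ m.2.tail)

/-- Programs with results in `E`. -/
structure Prog (α Γ : Type) (K : ℕ) (E : Type) : Type 1 where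
  S : Type
  fin : Fintype S
  start : S ⊕ E
  next : S → (Fin K → Bool × Option α) → Option Γ → (S ⊕ E) × (Fin K → Fin 3) × List Γ

attribute [instance] Prog.fin

variable {E F : Type}

/-- `Go p v c m e m'`: from control point `c` with memory `m` the program reaches the exit `e`
with memory `m'`. -/
inductive Prog.Go (p : Prog α Γ K E) (v : Fin K → List α) :
    p.S ⊕ E → (Fin K → ℕ) × List Γ → E → (Fin K → ℕ) × List Γ → Prop
  | done (e : E) (m : (Fin K → ℕ) × List Γ) : Prog.Go p v (Sum.inr e) m e m
  | step (s : p.S) (m : (Fin K → ℕ) × List Γ) (e : E) (m' : (Fin K → ℕ) × List Γ)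
      (h : Prog.Go p v (p.next s (obs v m) m.2.head?).1
        (upd v m (p.next s (obs v m) m.2.head?).2) e m') : Prog.Go p v (Sum.inl s) m e m'

/-- The program, started with memory `m`, exits with `e` and memory `m'`. -/
def Prog.Runs (p : Prog α Γ K E) (v : Fin K → List α) (m : (Fin K → ℕ) × List Γ) (e : E)
    (m' : (Fin K → ℕ) × List Γ) : Prop := p.Go v p.start m e m'

/-- The program that returns at once. -/
def pureP (e : E) : Prog α Γ K E where
  S := Empty
  fin := inferInstance
  start := Sum.inr e
  next := fun s => s.elim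

theorem pureP_runs (e : E) (v : Fin K → List α) (m : (Fin K → ℕ) × List Γ) :
    (pureP e : Prog α Γ K E).Runs v m e m := Prog.Go.done e m

/-- One step. -/
def stepP (f : (Fin K → Bool × Option α) → Option Γ → E × (Fin K → Fin 3) × List Γ) :
    Prog α Γ K E where
  S := Unit
  fin := inferInstance
  start := Sum.inl ()
  next := fun _ o t => (Sum.inr (f o t).1, (f o t).2)

theorem stepP_runs (f : (Fin K → Bool × Option α) → Option Γ → E × (Fin K → Fin 3) × List Γ)
    (v : Fin K → List α) (m : (Fin K → ℕ) × List Γ) :
    (stepP f).Runs v m (f (obs v m) m.2.head?).1 (upd v m (f (obs v m) m.2.head?).2) :=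
  Prog.Go.step _ _ _ _ (Prog.Go.done _ _)

/-- A loop in a single control point: as long as `f` gives an action, do it. -/
def whileP (f : (Fin K → Bool × Option α) → Option Γ → Option ((Fin K → Fin 3) × List Γ)) :
    Prog α Γ K Unit where
  S := Unit
  fin := inferInstance
  start := Sum.inl ()
  next := fun _ o t => match f o t with
    | some r => (Sum.inl (), r)
    | none => (Sum.inr (), (fun _ => 1), t.toList)

lemma toList_append_tail (l : List Γ) : l.head?.toList ++ l.tail = l := by
  cases l <;> rfl

lemma upd_stay (v : Fin K → List α) (m : (Fin K → ℕ) × List Γ) :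
    upd v m ((fun _ => 1), m.2.head?.toList) = m := by
  obtain ⟨p, st⟩ := m
  simp [upd, mv, toList_append_tail]

theorem whileP_done {f : (Fin K → Bool × Option α) → Option Γ → Option ((Fin K → Fin 3) × List Γ)}
    {v : Fin K → List α} {m : (Fin K → ℕ) × List Γ} (h : f (obs v m) m.2.head? = none) :
    (whileP f).Runs v m () m := by
  refine Prog.Go.step _ _ _ _ ?_
  simp only [whileP, h, upd_stay]
  exact Prog.Go.done _ _

theorem whileP_step {f : (Fin K → Bool × Option α) → Option Γ → Option ((Fin K → Fin 3) × List Γ)}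
    {v : Fin K → List α} {m m' : (Fin K → ℕ) × List Γ} {r : (Fin K → Fin 3) × List Γ}
    (h : f (obs v m) m.2.head? = some r) (h' : (whileP f).Runs v (upd v m r) () m') :
    (whileP f).Runs v m () m' := by
  refine Prog.Go.step _ _ _ _ ?_
  simp only [whileP, h]
  exact h'

/-- Lifting a control point of the second program of a composition. -/
def liftB {S : Type} {T : E → Type} (e : E) : (T e) ⊕ F → (S ⊕ (Σ e, T e)) ⊕ F
  | Sum.inl s => Sum.inl (Sum.inr ⟨e, s⟩)
  | Sum.inr x => Sum.inr x

/-- Lifting a control point of the first program of a composition. -/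
def liftA {S : Type} {T : E → Type} (st : (e : E) → (T e) ⊕ F) :
    S ⊕ E → (S ⊕ (Σ e, T e)) ⊕ F
  | Sum.inl s => Sum.inl (Sum.inl s)
  | Sum.inr e => liftB e (st e)

/-- Sequential composition. -/
def Prog.bind [Fintype E] (p : Prog α Γ K E) (f : E → Prog α Γ K F) : Prog α Γ K F where
  S := p.S ⊕ (Σ e, (f e).S)
  fin := inferInstance
  start := liftA (fun e => (f e).start) p.start
  next := fun s o t => match s with
    | Sum.inl s => (liftA (fun e => (f e).start) (p.next s o t).1, (p.next s o t).2)
    | Sum.inr ⟨e, s⟩ => (liftB e ((f e).next s o t).1, ((f e).next s o t).2)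

theorem bind_runs [Fintype E] {p : Prog α Γ K E} {f : E → Prog α Γ K F} {v : Fin K → List α}
    {m m' m'' : (Fin K → ℕ) × List Γ} {e : E} {x : F} (h : p.Runs v m e m')
    (h' : (f e).Runs v m' x m'') : (p.bind f).Runs v m x m'' := by
  have key : ∀ c m e m', p.Go v c m e m' → (f e).Runs v m' x m'' →
      (p.bind f).Go v (liftA (fun e => (f e).start) c) m x m'' := by
    intro c m e m' h
    induction h with
    | done e m =>
      intro h'
      have key2 : ∀ c m x m'', (f e).Go v c m x m'' → (p.bind f).Go v (liftB e c) m x m'' := by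
        intro c m x m'' h
        induction h with
        | done x m => exact Prog.Go.done _ _
        | step s m x m'' h ih =>
          refine Prog.Go.step _ _ _ _ ?_
          exact ih
      exact key2 _ _ _ _ h'
    | step s m e m' h ih =>
      intro h'
      refine Prog.Go.step _ _ _ _ ?_
      exact ih h'
  exact key _ _ _ _ h h'

/-- Lifting a control point of the body of a loop. -/
def liftI {T : E → Type} (e : E) : (T e) ⊕ (E ⊕ F) → (E ⊕ (Σ e, T e)) ⊕ F
  | Sum.inl s => Sum.inl (Sum.inr ⟨e, s⟩)
  | Sum.inr (Sum.inl e') => Sum.inl (Sum.inl e')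
  | Sum.inr (Sum.inr x) => Sum.inr x

/-- Iteration. -/
def iter [Fintype E] (f : E → Prog α Γ K (E ⊕ F)) (e : E) : Prog α Γ K F where
  S := E ⊕ (Σ e, (f e).S)
  fin := inferInstance
  start := Sum.inl (Sum.inl e)
  next := fun s o t => match s with
    | Sum.inl e => (liftI e (f e).start, (fun _ => 1), t.toList)
    | Sum.inr ⟨e, s⟩ => (liftI e ((f e).next s o t).1, ((f e).next s o t).2)

theorem iter_next [Fintype E] (f : E → Prog α Γ K (E ⊕ F)) {v : Fin K → List α} (e₀ : E)
    {y : E ⊕ F} {x : F} {m' m'' : (Fin K → ℕ) × List Γ} (e : E)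
    (hy : (iter f e₀).Go v (liftI e (Sum.inr y)) m' x m'') :
    ∀ c m, (f e).Go v c m y m' → (iter f e₀).Go v (liftI e c) m x m'' := by
  intro c m h
  induction h with
  | done y m => exact hy
  | step s m y m' h ih =>
    refine Prog.Go.step _ _ _ _ ?_
    exact ih hy

theorem iter_irrel [Fintype E] (f : E → Prog α Γ K (E ⊕ F)) {v : Fin K → List α} (e₀ e₁ : E)
    {x : F} {m' : (Fin K → ℕ) × List Γ} :
    ∀ c m, (iter f e₀).Go v c m x m' → (iter f e₁).Go v c m x m' := by
  intro c m h
  induction h with
  | done y m => exact Prog.Go.done _ _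
  | step s m y m' h ih => exact Prog.Go.step _ _ _ _ ih

theorem iter_cont [Fintype E] {f : E → Prog α Γ K (E ⊕ F)} {v : Fin K → List α} {e e' : E}
    {x : F} {m m' m'' : (Fin K → ℕ) × List Γ} (h : (f e).Runs v m (Sum.inl e') m')
    (h' : (iter f e').Runs v m' x m'') : (iter f e).Runs v m x m'' := by
  refine Prog.Go.step _ _ _ _ ?_
  simp only [iter, upd_stay]
  exact iter_next f e (y := Sum.inl e') e (iter_irrel f e' e _ _ h') _ _ h

theorem iter_exit [Fintype E] {f : E → Prog α Γ K (E ⊕ F)} {v : Fin K → List α} {e : E}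
    {x : F} {m m' : (Fin K → ℕ) × List Γ} (h : (f e).Runs v m (Sum.inr x) m') :
    (iter f e).Runs v m x m' := by
  refine Prog.Go.step _ _ _ _ ?_
  simp only [iter, upd_stay]
  exact iter_next f e e (Prog.Go.done _ _) _ _ h

/-- The transition function of the machine of a program. -/
def Prog.delta (p : Prog α Γ K Bool) (s : p.S ⊕ Bool) (o : Fin K → Bool × Option α)
    (t : Option Γ) : (p.S ⊕ Bool) × (Fin K → Fin 3) × List Γ :=
  match s with
  | Sum.inl s => p.next s o t
  | Sum.inr b => (Sum.inr b, (fun _ => 1), t.toList)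

theorem delta_iff {p : Prog α Γ K Bool} {v : Fin K → List α} {m m' : (Fin K → ℕ) × List Γ}
    {b : Bool} (h : p.Runs v m b m') :
    (∃ n, ((pdaStep p.delta v)^[n] (p.start, m)).1 ∈ ({Sum.inr true} : Set (p.S ⊕ Bool))) ↔
      b = true := by
  have key : ∀ c m b m', p.Go v c m b m' →
      ((∃ n, ((pdaStep p.delta v)^[n] (c, m)).1 ∈ ({Sum.inr true} : Set (p.S ⊕ Bool))) ↔
      b = true) := by
    intro c m b m' h
    induction h with
    | done b m =>
      have hfix : ∀ n, (pdaStep p.delta v)^[n] (Sum.inr b, m) = (Sum.inr b, m) := by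
        intro n
        induction n with
        | zero => rfl
        | succ n ih =>
          rw [Function.iterate_succ_apply', ih]
          obtain ⟨q, st⟩ := m
          simp [pdaStep, Prog.delta, mv, toList_append_tail]
      constructor
      · rintro ⟨n, hn⟩
        rw [hfix] at hn
        simpa using hn
      · rintro rfl
        exact ⟨0, rfl⟩
    | step s m b m' h ih =>
      rw [← ih]
      constructor
      · rintro ⟨n, hn⟩
        cases n with
        | zero => simp at hn
        | succ n =>
          rw [Function.iterate_succ_apply] at hn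
          exact ⟨n, hn⟩
      · rintro ⟨n, hn⟩
        refine ⟨n + 1, ?_⟩
        rw [Function.iterate_succ_apply]
        exact hn
  exact key _ _ _ _ h

end

end Pool.Agent.Helper7
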