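import Pool.Agent.Helper7.Final

set_option autoImplicit false

/-!
For every `k ≥ 1`: `k` two-way heads, a pushdown store and one more head which sees only the first
`g n` letters of inputs of length `n`, where `g` is any unbounded function, accept a language which
no two-way deterministic finite automaton with `k + 1` heads accepts.  For `g n = n` this says that
some language accepted by a `2:(k+1)`-DPDA is accepted by no `2:(k+1)`-DFA.
-/

namespace Pool.Agent.Results.MP_4e849b_lc.PushdownBeatsHead

/-- The information a head at position `p` gets on the tape `u` (positions `0 .. |u|+1`): whether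
`p = 0`, and the letter at `p` (none on the right endmarker). -/
def see {α : Type} (u : List α) (p : ℕ) : Bool × Option α := (decide (p = 0), u[p - 1]?)

/-- Moving a head on a tape of length `n`: `0` is left, `1` is stay, `2` is right. -/
def move (n p : ℕ) (d : Fin 3) : ℕ :=
  if d = 0 then p - 1 else if d = 1 then p else min (p + 1) (n + 1)

/-- One step of a deterministic pushdown automaton with `K` two-way heads, head `j` running on the
tape `u j`.  A configuration consists of the state, the head positions and the pushdown. -/
def pdStep {α : Type} {K : ℕ} {Q Γ : Type}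
    (δ : Q → (Fin K → Bool × Option α) → Option Γ → Q × (Fin K → Fin 3) × List Γ)
    (u : Fin K → List α) (c : Q × (Fin K → ℕ) × List Γ) : Q × (Fin K → ℕ) × List Γ :=
  ((δ c.1 (fun j => see (u j) (c.2.1 j)) c.2.2.head?).1,
   (fun i => move (u i).length (c.2.1 i) ((δ c.1 (fun j => see (u j) (c.2.1 j)) c.2.2.head?).2.1 i)),
   (δ c.1 (fun j => see (u j) (c.2.1 j)) c.2.2.head?).2.2 ++ c.2.2.tail)

/-- Acceptance: an accepting state is reached from all heads at `0` and empty pushdown. -/
def PDAccepts {α : Type} {K : ℕ} {Q Γ : Type}
    (δ : Q → (Fin K → Bool × Option α) → Option Γ → Q × (Fin K → Fin 3) × List Γ)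
    (q₀ : Q) (F : Set Q) (u : Fin K → List α) : Prop :=
  ∃ m : ℕ, ((pdStep δ u)^[m] (q₀, (fun _ => 0), [])).1 ∈ F

/-- One step of a two-way deterministic finite automaton with `K` heads. -/
def faStep {α : Type} {K : ℕ} {P : Type}
    (η : P → (Fin K → Bool × Option α) → P × (Fin K → Fin 3))
    (w : List α) (c : P × (Fin K → ℕ)) : P × (Fin K → ℕ) :=
  ((η c.1 (fun j => see w (c.2 j))).1,
   (fun i => move w.length (c.2 i) ((η c.1 (fun j => see w (c.2 j))).2 i)))

/-- Acceptance: an accepting state is reached from all heads at `0`. -/
def FAAccepts {α : Type} {K : ℕ} {P : Type}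
    (η : P → (Fin K → Bool × Option α) → P × (Fin K → Fin 3))
    (p₀ : P) (G : Set P) (w : List α) : Prop :=
  ∃ m : ℕ, ((faStep η w)^[m] (p₀, fun _ => 0)).1 ∈ G

/-- For every `k ≥ 1` there is one deterministic pushdown automaton with `k + 1` two-way heads such
that, for every unbounded `g`, the language it accepts when its last head sees only the first
`g |w|` letters of the input `w` is accepted by no two-way deterministic finite automaton with
`k + 1` heads. -/
theorem result (k : ℕ) (hk : 1 ≤ k) :
    ∃ (α Q Γ : Type) (_ : Fintype α) (_ : Fintype Q) (_ : Fintype Γ)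
      (δ : Q → (Fin (k + 1) → Bool × Option α) → Option Γ →
        Q × (Fin (k + 1) → Fin 3) × List Γ) (q₀ : Q) (F : Set Q),
      ∀ g : ℕ → ℕ, (∀ B, ∃ n, B ≤ g n) →
        ¬ ∃ (P : Type) (_ : Fintype P)
            (η : P → (Fin (k + 1) → Bool × Option α) → P × (Fin (k + 1) → Fin 3))
            (p₀ : P) (G : Set P),
          ∀ w : List α,
            PDAccepts δ q₀ F (fun j => if j = Fin.last k then w.take (g w.length) else w) ↔
              FAAccepts η p₀ G w := by
  refine ⟨Helper7.Letter, (Helper7.univP k).S ⊕ Bool, Helper7.Stk, inferInstance, inferInstance,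
    inferInstance, (Helper7.univP k).delta, (Helper7.univP k).start, {Sum.inr true}, ?_⟩
  rintro g hg ⟨P, hP, η, p₀, G, h⟩
  obtain ⟨w, B, hB, m', hm'⟩ := Helper7.diagonal hk g hg η p₀ G
  have h1 := Helper7.delta_iff hm'
  have h2 : PDAccepts (Helper7.univP k).delta (Helper7.univP k).start {Sum.inr true}
      (fun j => if j = Fin.last k then w.take (g w.length) else w) ↔ B = true := h1
  have h3 : FAAccepts η p₀ G w ↔ ¬ (B = true) := by
    rw [hB]
    push Not
    exact Iff.rfl
  have h4 := h w
  rw [h2, h3] at h4
  exact iff_not_self h4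

end Pool.Agent.Results.MP_4e849b_lc.PushdownBeatsHead
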