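import Pool.Agent.Helper7.Inv

set_option autoImplicit false

/-!
Effect of one round of the main loop on the invariants.
-/

namespace Pool.Agent.Helper7

open Letter Stk

namespace Sim

variable {k : ℕ} {A : Sim k}

theorem bTest_runs {sd : Bool} {p : ℕ} {pos : Fin (k + 1) → ℕ}
    (hlast : pos (Fin.last k) = numOf (rowsW A.rs) A.N sd p)
    (hnum : numOf (rowsW A.rs) A.N sd p ≤ 2 * A.n + 1) (st : List Stk) [Decidable
      (nearS (rowsW A.rs) A.N sd p)] :
    (bTest sd).Runs A.v (pos, st) (decide (nearS (rowsW A.rs) A.N sd p)) (pos, st) := by
  obtain ⟨hbig1, hbig2⟩ := big (A := A)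
  simp only [n] at hbig1 hbig2 hnum
  cases sd with
  | true =>
    simp only [numOf, cond_true] at hlast hnum
    refine bind_runs (nearTest_runs A.hW A.hvl (by omega) pos (by omega) st) ?_
    have e : decide (nearVal (rowsW A.rs) A.N' (pos (Fin.last k)) = some true) =
        decide (nearS (rowsW A.rs) A.N true p) := by
      rw [decide_eq_decide, hlast]
      simp only [nearS, cond_true, nearVal]
      split_ifs with h1 h2
      · simp [h1]
      · simp [h1]
      · simp [h1]
    rw [← e]
    exact pureP_runs _ _ _
  | false =>
    simp only [numOf, cond_false] at hlast hnum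
    have h1 := lookS_runs (fun o _ => isLow (o (Fin.last k)) || atDollar (o (Fin.last k))) A.v
      pos st
    have e : (isLow (obs A.v (pos, st) (Fin.last k)) || atDollar (obs A.v (pos, st) (Fin.last k))) =
        decide (nearS (rowsW A.rs) A.N false p) := by
      rw [Bool.eq_iff_iff, Bool.or_eq_true, decide_eq_true_eq]
      simp only [obs, A.hvl]
      rw [isLow_iff A.hW (by omega), atDollar_iff A.hW (by omega), hlast]
      simp only [nearS, cond_false]
      omega
    rw [← e]
    exact h1

/-- the result of the search for a near coordinate -/
def findVal (W : List Letter) (N : ℕ) (b : Fin (k + 1)) (p : Fin (k + 1) → ℕ) :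
    List (Fin (k + 1)) → Option (Fin (k + 1) × Bool)
  | [] => none
  | a :: l => if a = b then findVal W N b p l else
      match nearVal W N (p a) with
      | some sd => some (a, sd)
      | none => findVal W N b p l

theorem findNear_runs {b : Fin (k + 1)} {π : Equiv.Perm (Fin (k + 1))} (hb : π b = Fin.last k)
    {p : Fin (k + 1) → ℕ} {pos : Fin (k + 1) → ℕ} (hpos : ∀ a, a ≠ b → pos (π a) = p a)
    (hle : ∀ a, p a ≤ A.R) (st : List Stk) (l : List (Fin (k + 1))) :
    (findNear b π l).Runs A.v (pos, st) (findVal (rowsW A.rs) A.N b p l) (pos, st) := by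
  obtain ⟨hbig1, hbig2⟩ := big (A := A)
  simp only [n] at hbig1 hbig2
  induction l with
  | nil => exact pureP_runs _ _ _
  | cons a l ih =>
    by_cases ha : a = b
    · simp only [findNear, findVal, if_pos ha]
      exact ih
    · simp only [findNear, findVal, if_neg ha]
      have h1 := nearTest_runs (h := π a) A.hW (A.hv _ (perm_ne hb ha)) (by omega) pos
        (by rw [hpos a ha]; exact hle a) st
      rw [hpos a ha] at h1
      refine bind_runs h1 ?_
      cases hv : nearVal (rowsW A.rs) A.N (p a) with
      | some sd => exact pureP_runs _ _ _
      | none => exact ih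

lemma findVal_some {W : List Letter} {N : ℕ} {b : Fin (k + 1)} {p : Fin (k + 1) → ℕ}
    {a : Fin (k + 1)} {sd : Bool} (l : List (Fin (k + 1)))
    (h : findVal W N b p l = some (a, sd)) : a ≠ b ∧ nearVal W N (p a) = some sd := by
  induction l with
  | nil => simp [findVal] at h
  | cons a' l ih =>
    by_cases ha : a' = b
    · simp only [findVal, if_pos ha] at h
      exact ih h
    · simp only [findVal, if_neg ha] at h
      cases hv : nearVal W N (p a') with
      | some sd' =>
        rw [hv] at h
        simp only [Option.some.injEq, Prod.mk.injEq] at h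
        obtain ⟨rfl, rfl⟩ := h
        exact ⟨ha, hv⟩
      | none =>
        rw [hv] at h
        exact ih h

lemma findVal_none {W : List Letter} {N : ℕ} {b : Fin (k + 1)} {p : Fin (k + 1) → ℕ}
    (l : List (Fin (k + 1))) (h : findVal W N b p l = none) :
    ∀ a ∈ l, a ≠ b → nearVal W N (p a) = none := by
  induction l with
  | nil => simp
  | cons a' l ih =>
    intro a ha hab
    by_cases ha' : a' = b
    · simp only [findVal, if_pos ha'] at h
      rcases List.mem_cons.1 ha with rfl | h1
      · exact absurd ha' hab
      · exact ih h a h1 hab
    · simp only [findVal, if_neg ha'] at h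
      cases hv : nearVal W N (p a') with
      | some sd' =>
        rw [hv] at h
        simp at h
      | none =>
        rw [hv] at h
        rcases List.mem_cons.1 ha with rfl | h1
        · exact hv
        · exact ih h a h1 hab

theorem roleSwitch_runs {π : Equiv.Perm (Fin (k + 1))} {a : Fin (k + 1)}
    (hne : π a ≠ Fin.last k) {pos : Fin (k + 1) → ℕ} (hle : pos (π a) ≤ A.R) (sd sd' : Bool)
    (hnum : numOf (rowsW A.rs) A.N sd' (pos (π a)) ≤ A.n + A.N' + 1) (st : List Stk) :
    (roleSwitch sd a sd' π).Runs A.v (pos, st) ()
      (Function.update (Function.update pos (π a) (launchPos (rowsW A.rs) A.N sd)) (Fin.last k)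
        (numOf (rowsW A.rs) A.N sd' (pos (π a))), st) := by
  obtain ⟨hbig1, hbig2⟩ := big (A := A)
  simp only [n] at hbig1 hbig2 hnum
  obtain ⟨q, hq⟩ := toNum_runs (h := π a) A.hW (A.hv _ hne) pos hle sd' st
  refine bind_runs hq ?_
  refine bind_runs (goLaunch_runs A.hW (A.hv _ hne) (by omega) _ sd _) ?_
  refine bind_runs (toZero_runs _ _) ?_
  have := popNum_runs (h := Fin.last k) (v := A.v) (Function.update (Function.update
    (Function.update pos (π a) q) (π a) (launchPos (rowsW A.rs) A.N sd)) (Fin.last k) 0)
    (numOf (rowsW A.rs) A.N sd' (pos (π a))) (by rw [A.hvl, tape_length]; simp; omega) st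
  simpa [Function.update_idem] using this

theorem launch_runs {π : Equiv.Perm (Fin (k + 1))} {c : Fin (k + 1)}
    (hne : π c ≠ Fin.last k) {pos : Fin (k + 1) → ℕ} (hle : pos (π c) ≤ A.R)
    (hge : A.n ≤ pos (π c)) (sd sdc : Bool) {x : ℕ} (hx : x ≤ A.n) (st : List Stk) :
    (launch sd c sdc π).Runs A.v (pos, List.replicate x unit ++ bar :: st) ()
      (Function.update (Function.update pos (Fin.last k) x) (π c)
        (launchPos (rowsW A.rs) A.N sd),
        List.replicate (distOf (rowsW A.rs) A.N sdc (pos (π c))) unit ++ bar :: st) := by
  obtain ⟨hbig1, hbig2⟩ := big (A := A)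
  simp only [n] at hbig1 hbig2 hx hge
  refine bind_runs (toZero_runs _ _) ?_
  refine bind_runs (popNum_runs _ x (by rw [A.hvl, tape_length]; simp; omega) _) ?_
  simp only [Function.update_self, Function.update_idem, Nat.zero_add]
  have hpos : Function.update pos (Fin.last k) x (π c) = pos (π c) := Function.update_of_ne hne _ _
  cases sdc with
  | true =>
    refine bind_runs (pushDist_runs_left A.hW (A.hv _ hne) _ (by rw [hpos]; exact hle)
      (by rw [hpos]; exact hge) _) ?_
    have := goLaunch_runs A.hW (A.hv _ hne) (by omega) (Function.update (Function.update pos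
      (Fin.last k) x) (π c) ((rowsW A.rs).length + 1)) sd
      (List.replicate (Function.update pos (Fin.last k) x (π c) - ((rowsW A.rs).length + 1)) unit ++
        bar :: st)
    simpa [Function.update_idem, distOf, hpos] using this
  | false =>
    refine bind_runs (pushDist_runs_right A.hW (A.hv _ hne) _ (by rw [hpos]; exact hle) _) ?_
    have := goLaunch_runs A.hW (A.hv _ hne) (by omega) (Function.update (Function.update pos
      (Fin.last k) x) (π c) ((rowsW A.rs).length + 1 + A.N + 1)) sd
      (List.replicate ((rowsW A.rs).length + 1 + A.N + 1 -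
        Function.update pos (Fin.last k) x (π c)) unit ++ bar :: st)
    simpa [Function.update_idem, distOf, hpos] using this

/-- all coordinates are far from the ends -/
def Far (A : Sim k) (p : Fin (k + 1) → ℕ) : Prop := ∀ a, 2 * A.n < p a ∧ p a + A.n < A.R

theorem fc_step (hC : A.Coded) {b : Fin (k + 1)} {sd : Bool} {π : Equiv.Perm (Fin (k + 1))}
    {X : A.P × (Fin (k + 1) → ℕ)} {T : ℕ} {pos : Fin (k + 1) → ℕ} {st : List Stk}
    (h : A.InvFC b sd π X (T + 1 + 1) pos st) (hG : X.1 ∉ A.G) :
    (∃ b' sd' π' pos' st', (fcBody b sd π).Runs A.v (pos, st) (Sum.inl (true, b', sd', π'))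
        (pos', st') ∧ A.InvFC b' sd' π' (A.stepM X) T pos' st') ∨
    (A.D (A.stepM X).1 = none ∧ Far A (A.stepM X).2 ∧
        ∃ m', (fcBody b sd π).Runs A.v (pos, st) (Sum.inr true) m') ∨
    (∃ dir c π' pos' st', A.D (A.stepM X).1 = some dir ∧ Far A (A.stepM X).2 ∧
        (fcBody b sd π).Runs A.v (pos, st) (Sum.inl (false, c, dir c, π')) (pos', st') ∧
        A.InvFL c (dir c) π' (A.stepM X) T pos' st') := by
  classical
  obtain ⟨hbig1, hbig2⟩ := big (A := A)
  obtain ⟨pos₂, h1, h2, h3⟩ := fc_second hC h hG
  obtain ⟨hnum, hfar⟩ := num_le h.hle h.hnear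
  have hle' := stepM_le h.hle
  have hrp := rowPos_le A.rs (A.hidx (A.stepM X).1)
  have hb := h.hb
  set X' := A.stepM X with hX'
  set S := List.replicate (rowPos A.rs (A.idx X'.1)) unit ++ bar :: List.replicate T clock with hS
  by_cases hn : nearS (rowsW A.rs) A.N sd (X'.2 b)
  · left
    refine ⟨b, sd, π, pos₂, S, h3 _ _ ?_, ⟨hb, h2, h1, hn, hle', hS⟩⟩
    refine bind_runs (bTest_runs h1 hnum _) ?_
    simp only [hn, decide_true, cond_true]
    exact pureP_runs _ _ _
  · have hl := hfar hn
    have hfind := findNear_runs (A := A) hb h2 hle' S (List.finRange (k + 1))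
    -- the common beginning
    have hrun : ∀ y m'', (afterNear b sd π (A.D X'.1)
        (findVal (rowsW A.rs) A.N b X'.2 (List.finRange (k + 1)))).Runs A.v (pos₂, S) y m'' →
        (fcBody b sd π).Runs A.v (pos, st) y m'' := by
      intro y m'' hy
      refine h3 _ _ ?_
      refine bind_runs (bTest_runs h1 hnum _) ?_
      simp only [hn, decide_false, cond_false]
      exact bind_runs hfind hy
    cases hf : findVal (rowsW A.rs) A.N b X'.2 (List.finRange (k + 1)) with
    | some r =>
      obtain ⟨a, sd'⟩ := r
      obtain ⟨hab, hav⟩ := findVal_some _ hf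
      have hne := perm_ne hb hab
      have hns := nearVal_some hav
      left
      have hnum' : numOf (rowsW A.rs) A.N sd' (X'.2 a) ≤ 2 * A.n := by
        cases sd' with
        | true => simpa [nearS, numOf, n] using hns
        | false =>
          simp only [nearS, cond_false] at hns
          simp only [numOf, cond_false, n]; omega
      refine ⟨a, sd', π * Equiv.swap a b, Function.update (Function.update pos₂ (π a)
        (launchPos (rowsW A.rs) A.N sd)) (Fin.last k) (numOf (rowsW A.rs) A.N sd' (pos₂ (π a))),
        S, hrun _ _ ?_, ?_⟩
      · rw [hf]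
        exact bind_runs (roleSwitch_runs hne (by rw [h2 a hab]; exact hle' a) sd sd'
          (by rw [h2 a hab]; omega) S) (pureP_runs _ _ _)
      · refine ⟨by simp [hb], ?_, ?_, hns, hle', hS⟩
        · intro a' ha'
          by_cases hb' : a' = b
          · subst hb'
            simp only [Equiv.Perm.mul_apply, Equiv.swap_apply_right]
            rw [Function.update_of_ne hne, Function.update_self, hl]
          · simp only [Equiv.Perm.mul_apply, Equiv.swap_apply_of_ne_of_ne ha' hb']
            rw [Function.update_of_ne (perm_ne hb hb'),
              Function.update_of_ne (fun h => ha' (π.injective h)), h2 a' hb']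
        · rw [Function.update_self, h2 a hab]
    | none =>
      have hfn := findVal_none _ hf
      have hFar : Far A X'.2 := by
        intro a
        by_cases ha : a = b
        · subst ha
          rw [hl]
          cases sd with
          | true =>
            simp only [launchPos, cond_true, n, R] at *
            have h4 := A.hN
            omega
          | false => simp only [launchPos, cond_false, n, R] at *; omega
        · have := nearVal_none (hfn a (List.mem_finRange a) ha)
          simp only [n, R]
          omega
      right
      cases hD : A.D X'.1 with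
      | none =>
        left
        refine ⟨rfl, hFar, (pos₂, S), hrun _ _ ?_⟩
        rw [hf, hD]
        exact pureP_runs _ _ _
      | some dir =>
        right
        have hob := other_ne A.hk b
        have hne := perm_ne hb hob
        have hfo := hFar (other b)
        refine ⟨dir, other b, π * Equiv.swap b (other b), Function.update (Function.update pos₂
          (Fin.last k) (rowPos A.rs (A.idx X'.1))) (π (other b)) (launchPos (rowsW A.rs) A.N sd),
          List.replicate (distOf (rowsW A.rs) A.N (dir (other b)) (pos₂ (π (other b)))) unit ++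
            bar :: List.replicate T clock, rfl, hFar, hrun _ _ ?_, ?_⟩
        · rw [hf, hD]
          refine bind_runs (launch_runs hne (by rw [h2 _ hob]; exact hle' _)
            (by rw [h2 _ hob]; simp only [n] at *; omega) sd (dir (other b))
            (x := rowPos A.rs (A.idx X'.1)) (by simp only [n]; omega) _) (pureP_runs _ _ _)
        · refine ⟨by simp [hb], ?_, ?_, ?_, ?_⟩
          · intro a' ha'
            by_cases hb' : a' = b
            · subst hb'
              simp only [Equiv.Perm.mul_apply, Equiv.swap_apply_left]
              rw [Function.update_self, hl]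
            · simp only [Equiv.Perm.mul_apply, Equiv.swap_apply_of_ne_of_ne hb' ha']
              rw [Function.update_of_ne (fun h => ha' (π.injective h)),
                Function.update_of_ne (perm_ne hb hb'), h2 a' hb']
          · rw [Function.update_of_ne (Ne.symm hne), Function.update_self]
          · intro a
            have := hFar a
            simp only [n, R] at *
            omega
          · rw [h2 _ hob]

theorem fl_first (hC : A.Coded) {c : Fin (k + 1)} {sd : Bool} {π : Equiv.Perm (Fin (k + 1))}
    {X : A.P × (Fin (k + 1) → ℕ)} {T : ℕ} {pos : Fin (k + 1) → ℕ} {st : List Stk}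
    (h : A.InvFL c sd π X T pos st) :
    ∃ pos₂ : Fin (k + 1) → ℕ, pos₂ (Fin.last k) = rowPos A.rs (A.idx (A.stepM X).1) ∧
      (∀ a, a ≠ c → pos₂ (π a) = (A.stepM X).2 a) ∧
      ∀ y m'', (bif (A.val X.1 oBlank).2.2 then pureP (Sum.inr false) else
        (lookS fun o t => event c π o t).bind fun r => afterEvent c sd π r).Runs A.v
        (pos₂, List.replicate (distOf (rowsW A.rs) A.N sd ((A.stepM X).2 c)) unit ++
          bar :: List.replicate T clock) y m'' → (flBody c sd π).Runs A.v (pos, st) y m'' := by
  obtain ⟨hb, hpos, hlast, hin, rfl⟩ := h
  have ho : (fun j => sym (tape (rowsW A.rs) A.N) (X.2 j)) = (oBlank : Ob k) := by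
    funext j
    have := hin j
    simp only [n, R] at this
    rw [sym_blank (by omega) (by omega)]
    rfl
  obtain ⟨es, hes, hent⟩ := hC X.1 oBlank
  have hX' : A.stepM X = ((A.η X.1 oBlank).1, fun i => mv (tape (rowsW A.rs) A.N).length (X.2 i)
      ((A.η X.1 oBlank).2 i)) := by
    simp only [stepM, ho]
  refine ⟨fun i => mv (A.v i).length (Function.update pos (Fin.last k)
    (rowPos A.rs (A.idx (A.η X.1 oBlank).1)) i) (mvsOf π (A.val X.1 oBlank) i), ?_, ?_, ?_⟩
  · simp [mvsOf, mv_stay, hX']
  · intro a ha
    have hne := perm_ne hb ha
    simp only [Function.update_of_ne hne, mvsOf, if_neg hne, Equiv.symm_apply_apply, hpos a ha,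
      A.hv _ hne, val, hX']
  · intro y m'' hrun
    refine bind_runs (exec_runs A.rs A.hvl (A.idx X.1) (encV (oBlank : Ob k))
      (A.idx (A.η X.1 oBlank).1) (A.val X.1 oBlank) es hes hent (A.hidx _) (mvsOf π)
      (actOf c sd) pos hlast _ _) ?_
    have hact : updN (actOf c sd (A.val X.1 oBlank)) (distOf (rowsW A.rs) A.N sd (X.2 c)) =
        distOf (rowsW A.rs) A.N sd ((A.stepM X).2 c) := by
      have := upd_dist (W := rowsW A.rs) (N := A.N) (p := X.2 c) (sd := sd) (hin c).1
        (hin c).2 ((A.η X.1 oBlank).2 c)
      simp only [actOf, val]
      rw [this]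
      simp only [hX', tape_length]
    rw [hact]
    exact hrun

theorem fl_accept (hC : A.Coded) {c : Fin (k + 1)} {sd : Bool} {π : Equiv.Perm (Fin (k + 1))}
    {X : A.P × (Fin (k + 1) → ℕ)} {T : ℕ} {pos : Fin (k + 1) → ℕ} {st : List Stk}
    (h : A.InvFL c sd π X T pos st) (hG : X.1 ∈ A.G) :
    ∃ m', (flBody c sd π).Runs A.v (pos, st) (Sum.inr false) m' := by
  obtain ⟨pos₂, -, -, h3⟩ := fl_first hC h
  refine ⟨_, h3 _ (pos₂, List.replicate (distOf (rowsW A.rs) A.N sd ((A.stepM X).2 c)) unit ++
          bar :: List.replicate T clock) ?_⟩
  simp only [val, hG, decide_true, cond_true]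
  exact pureP_runs _ _ _

/-- going to the number `|W|+1` or `0` -/
lemma toMark_or (sd : Bool) (pos : Fin (k + 1) → ℕ) (h0 : pos (Fin.last k) = 0)
    (st : List Stk) :
    (bif sd then toMark (Fin.last k) else pureP () : Prog Letter Stk (k + 1) Unit).Runs A.v
      (pos, st) () (Function.update pos (Fin.last k) (bif sd then A.n else 0), st) := by
  cases sd with
  | true => exact toMark_runs A.hW A.hvl pos (by omega) st
  | false =>
    simp only [cond_false]
    have e : Function.update pos (Fin.last k) 0 = pos := by rw [← h0]; simp
    rw [e]
    exact pureP_runs _ _ _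

theorem fl_step (hC : A.Coded) {c : Fin (k + 1)} {sd : Bool} {π : Equiv.Perm (Fin (k + 1))}
    {X : A.P × (Fin (k + 1) → ℕ)} {T : ℕ} {pos : Fin (k + 1) → ℕ} {st : List Stk}
    (h : A.InvFL c sd π X T pos st) (hG : X.1 ∉ A.G)
    (hsafe : (sd = true → (A.stepM X).2 c < A.R) ∧ (sd = false → A.n < (A.stepM X).2 c)) :
    (∃ b' sd' π' pos' st', (flBody c sd π).Runs A.v (pos, st) (Sum.inl (true, b', sd', π'))
        (pos', st') ∧ A.InvFC b' sd' π' (A.stepM X) T pos' st') ∨
    (∃ pos' st', (flBody c sd π).Runs A.v (pos, st) (Sum.inl (false, c, sd, π)) (pos', st') ∧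
        A.InvFL c sd π (A.stepM X) T pos' st') := by
  classical
  obtain ⟨hbig1, hbig2⟩ := big (A := A)
  obtain ⟨pos₂, h1, h2, h3⟩ := fl_first hC h
  have hb := h.hb
  have hin := h.hin
  have hrp := rowPos_le A.rs (A.hidx (A.stepM X).1)
  -- positions after the step
  have hin' : ∀ a, A.n ≤ (A.stepM X).2 a ∧ (A.stepM X).2 a ≤ A.R := by
    intro a
    have := hin a
    simp only [stepM, tape_length, mv, n, R] at *
    split_ifs <;> constructor <;> omega
  set X' := A.stepM X with hX'
  set d := distOf (rowsW A.rs) A.N sd (X'.2 c) with hd
  set S := List.replicate d unit ++ bar :: List.replicate T clock with hS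
  have hrun : ∀ y m'', (afterEvent c sd π (event c π (obs A.v (pos₂, S)) S.head?)).Runs A.v
      (pos₂, S) y m'' → (flBody c sd π).Runs A.v (pos, st) y m'' := by
    intro y m'' hy
    refine h3 _ _ ?_
    simp only [val, hG, decide_false, cond_false]
    exact bind_runs (lookS_runs _ _ _ _) hy
  have hobs : ∀ a, a ≠ c → obs A.v (pos₂, S) (π a) = sym (tape (rowsW A.rs) A.N) (X'.2 a) := by
    intro a ha
    simp only [obs, A.hv _ (perm_ne hb ha), h2 a ha]
  by_cases h0 : d = 0
  · -- the virtual coordinate has reached the marker or the right end
    left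
    have hS' : S = bar :: List.replicate T clock := by rw [hS, h0]; rfl
    have hev : event c π (obs A.v (pos₂, S)) S.head? = some none := by
      rw [hS']; simp [event]
    refine ⟨c, sd, π, Function.update (Function.update pos₂ (Fin.last k) 0) (Fin.last k)
      (bif sd then A.n else 0),
      List.replicate (pos₂ (Fin.last k)) unit ++ bar :: List.replicate T clock,
      hrun _ _ ?_, ?_⟩
    · rw [hev, hS']
      refine bind_runs (popS_runs _ _ _ _) ?_
      refine bind_runs (pushNum_runs _ _) ?_
      refine bind_runs (toMark_or sd _ (by simp) _) ?_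
      exact pureP_runs _ _ _
    · have hc := hin' c
      refine ⟨hb, ?_, ?_, ?_, fun a => (hin' a).2, by rw [h1]⟩
      · intro a ha
        have hne := perm_ne hb ha
        rw [Function.update_of_ne hne, Function.update_of_ne hne, h2 a ha]
      · rw [Function.update_self]
        cases sd with
        | true =>
          simp only [distOf, cond_true, numOf] at hd ⊢
          simp only [n] at *
          omega
        | false =>
          simp only [distOf, cond_false, numOf] at hd ⊢
          omega
      · cases sd with
        | true =>
          simp only [distOf, cond_true, nearS] at hd ⊢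
          simp only [n] at *
          omega
        | false =>
          simp only [distOf, cond_false, nearS] at hd ⊢
          omega
  · obtain ⟨d', hd'⟩ : ∃ d', d = d' + 1 := ⟨d - 1, by omega⟩
    have hhead : S.head? ≠ some bar := by
      rw [hS, hd']; simp [List.replicate_succ]
    by_cases he : ∃ e, atBd (obs A.v (pos₂, S)) c π e
    · -- another coordinate has reached the marker or the right end
      left
      set e := Classical.choose he with hedef
      obtain ⟨hec, hebd⟩ := Classical.choose_spec he
      rw [← hedef] at hec hebd
      have hne := perm_ne hb hec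
      set sde := atDollar (obs A.v (pos₂, S) (π e)) with hsde
      have hev : event c π (obs A.v (pos₂, S)) S.head? = some (some (e, sde)) := by
        simp only [event, if_neg hhead, dif_pos he]
        rfl
      have hRe := hin' e
      have hpe : sde = true ∧ X'.2 e = A.n ∨ sde = false ∧ X'.2 e = A.R := by
        rw [Bool.or_eq_true] at hebd
        rw [hobs e hec] at hebd hsde
        rw [hsde]
        by_cases hx : atDollar (sym (tape (rowsW A.rs) A.N) (X'.2 e)) = true
        · left
          refine ⟨hx, ?_⟩
          rwa [atDollar_iff A.hW hRe.2] at hx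
        · right
          refine ⟨by simpa using hx, ?_⟩
          have := hebd.resolve_left (by rw [hsde]; exact hx)
          rwa [atEnd_iff A.hW hRe.2] at this
      -- the distance of `c` is restored by head `π e`
      have hpd : (popDist (π e) sd).Runs A.v (pos₂, S) ()
          (Function.update pos₂ (π e) (X'.2 c), List.replicate T clock) := by
        have hc := hin' c
        cases sd with
        | true =>
          have := popDist_runs_left A.hW (A.hv _ hne) pos₂ d (by
            simp only [distOf, cond_true] at hd; simp only [n, R] at *; omega)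
            (List.replicate T clock)
          have e1 : (rowsW A.rs).length + 1 + d = X'.2 c := by
            simp only [distOf, cond_true] at hd; simp only [n, R] at *; omega
          rw [e1] at this
          exact this
        | false =>
          have := popDist_runs_right A.hW (A.hv _ hne) pos₂ (by rw [h2 e hec]; exact hRe.2) d
            (List.replicate T clock)
          have e1 : (rowsW A.rs).length + 1 + A.N + 1 - d = X'.2 c := by
            simp only [distOf, cond_false] at hd; simp only [n, R] at *; omega
          rw [e1] at this
          exact this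
      refine ⟨e, sde, π * Equiv.swap c e, Function.update (Function.update (Function.update pos₂
        (π e) (X'.2 c)) (Fin.last k) 0) (Fin.last k) (bif sde then A.n else 0),
        List.replicate (pos₂ (Fin.last k)) unit ++ bar :: List.replicate T clock,
        hrun _ _ ?_, ?_⟩
      · rw [hev]
        refine bind_runs hpd ?_
        have h5 := pushNum_runs (h := Fin.last k) (v := A.v) (Function.update pos₂ (π e) (X'.2 c))
          (List.replicate T clock)
        rw [Function.update_of_ne (Ne.symm hne)] at h5
        refine bind_runs h5 ?_
        refine bind_runs (toMark_or sde _ (by simp) _) ?_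
        exact pureP_runs _ _ _
      · refine ⟨by simp [hb], ?_, ?_, ?_, fun a => (hin' a).2, by rw [h1]⟩
        · intro a ha
          by_cases hac : a = c
          · subst hac
            simp only [Equiv.Perm.mul_apply, Equiv.swap_apply_left]
            rw [Function.update_of_ne hne, Function.update_of_ne hne, Function.update_self]
          · simp only [Equiv.Perm.mul_apply, Equiv.swap_apply_of_ne_of_ne hac ha]
            have hne' := perm_ne hb hac
            rw [Function.update_of_ne hne', Function.update_of_ne hne',
              Function.update_of_ne (fun h => ha (π.injective h)), h2 a hac]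
        · rw [Function.update_self]
          rcases hpe with ⟨h6, h7⟩ | ⟨h6, h7⟩
          · rw [h6, h7]; rfl
          · rw [h6, h7]; simp [numOf]
        · rcases hpe with ⟨h6, h7⟩ | ⟨h6, h7⟩
          · rw [h6, h7]; simp only [nearS, cond_true, n]; omega
          · rw [h6, h7]; simp only [nearS, cond_false, R]; omega
    · -- no event
      right
      have hev : event c π (obs A.v (pos₂, S)) S.head? = none := by
        simp only [event, if_neg hhead, dif_neg he]
      refine ⟨pos₂, S, hrun _ _ ?_, ⟨hb, h2, h1, ?_, hS⟩⟩
      · rw [hev]
        exact pureP_runs _ _ _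
      · intro a
        have ha' := hin' a
        by_cases hac : a = c
        · subst hac
          cases sd with
          | true =>
            have := hsafe.1 rfl
            simp only [distOf, cond_true] at hd
            simp only [n, R] at *
            omega
          | false =>
            have := hsafe.2 rfl
            simp only [distOf, cond_false] at hd
            simp only [n, R] at *
            omega
        · have hna : ¬ atBd (obs A.v (pos₂, S)) c π a := fun h => he ⟨a, h⟩
          simp only [atBd, not_and] at hna
          have := hna hac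
          rw [Bool.or_eq_true, hobs a hac, atDollar_iff A.hW ha'.2, atEnd_iff A.hW ha'.2] at this
          simp only [n, R] at *
          omega

end Sim

end Pool.Agent.Helper7
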