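import Pool.Agent.Helper7.Walk

set_option autoImplicit false

/-!
Exchanging the position of a head with the number on the stack, consuming one clock symbol.
-/

namespace Pool.Agent.Helper7

open Letter Stk

/-- the head is left of the marker -/
def isLow (s : Bool × Option Letter) : Bool :=
  s.1 || (decide (s.2 ≠ some dollar) && decide (s.2 ≠ some blank) && s.2.isSome)

section

variable {K : ℕ} {W : List Letter} {N : ℕ} {v : Fin K → List Letter} {h : Fin K}

lemma isLow_iff (hW : GoodW W) {p : ℕ} (hp : p ≤ W.length + 1 + N + 1) :
    isLow (sym (tape W N) p) = true ↔ p < W.length + 1 := by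
  rcases Nat.lt_trichotomy p (W.length + 1) with h | h | h
  · refine ⟨fun _ => h, fun _ => ?_⟩
    rcases Nat.eq_zero_or_pos p with h0 | h0
    · subst h0
      simp [isLow, sym_zero_fst]
    · obtain ⟨c, hc, -, h1, h2⟩ := sym_code (N := N) hW h0 (by omega)
      simp [isLow, hc, h1, h2]
  · subst h; simp [isLow, sym_dollar]
  · constructor
    · intro h'
      rcases Nat.lt_or_ge (W.length + 1 + N) p with h2 | h2
      · rw [sym_end (by omega)] at h'; simp [isLow] at h'
      · rw [sym_blank h h2] at h'; simp [isLow] at h'
    · intro h'; omega

/-- repeat `addN` -/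
def addTimes (h : Fin K) : ℕ → Prog Letter Stk K Unit
  | 0 => pureP ()
  | n + 1 => (addN h).bind fun _ => addTimes h n

theorem addTimes_runs (hW : GoodW W) (hv : v h = tape W N) (n : ℕ) : ∀ (pos : Fin K → ℕ)
    (_ : pos h + n * (W.length + 1) ≤ W.length + 1 + N + 1) (st : List Stk),
    (addTimes h n).Runs v (pos, st) () (Function.update pos h (pos h + n * (W.length + 1)), st) := by
  induction n with
  | zero =>
    intro pos _ st
    simpa [addTimes] using pureP_runs () v (pos, st)
  | succ n ih =>
    intro pos hp st
    rw [Nat.succ_mul] at hp
    refine bind_runs (addN_runs hW hv pos (by omega) st) ?_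
    have := ih (Function.update pos h (pos h + (W.length + 1))) (by simp; omega) st
    simp only [Function.update_self, Function.update_idem] at this
    rw [Nat.succ_mul, show pos h + (n * (W.length + 1) + (W.length + 1)) =
      pos h + (W.length + 1) + n * (W.length + 1) by ring]
    exact this

/-- body of the encoding loop -/
def encBody (h : Fin K) (_ : Unit) : Prog Letter Stk K (Unit ⊕ Unit) :=
  (lookS fun _ t => decide (t = some unit)).bind fun b =>
    bif b then popS.bind fun _ => (addTimes h 3).bind fun _ => pureP (Sum.inl ())
    else pureP (Sum.inr ())

theorem enc_runs (hW : GoodW W) (hv : v h = tape W N) (x : ℕ) : ∀ (pos : Fin K → ℕ)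
    (_ : pos h + x * (3 * (W.length + 1)) ≤ W.length + 1 + N + 1) (st : List Stk)
    (_ : st.head? ≠ some unit),
    (iter (encBody h) ()).Runs v (pos, List.replicate x unit ++ st) ()
      (Function.update pos h (pos h + x * (3 * (W.length + 1))), st) := by
  induction x with
  | zero =>
    intro pos _ st hst
    simp only [List.replicate_zero, List.nil_append, Nat.zero_mul, Nat.add_zero,
      Function.update_eq_self]
    refine iter_exit ?_
    refine bind_runs (lookS_runs _ _ _ _) ?_
    simp only [hst, decide_false, cond_false]
    exact pureP_runs _ _ _
  | succ x ih =>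
    intro pos hp st hst
    rw [Nat.succ_mul] at hp
    refine iter_cont (e' := ()) (m' := (Function.update pos h (pos h + 3 * (W.length + 1)),
      List.replicate x unit ++ st)) ?_ ?_
    · refine bind_runs (lookS_runs _ _ _ _) ?_
      simp only [List.replicate_succ, List.cons_append, List.head?_cons, decide_true, cond_true]
      refine bind_runs (popS_runs _ _ _ _) ?_
      refine bind_runs (addTimes_runs hW hv 3 _ (by omega) _) ?_
      exact pureP_runs _ _ _
    · have := ih (Function.update pos h (pos h + 3 * (W.length + 1))) (by simp; omega) st hst
      simp only [Function.update_self, Function.update_idem] at this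
      rw [show pos h + (x + 1) * (3 * (W.length + 1)) =
        pos h + 3 * (W.length + 1) + x * (3 * (W.length + 1)) by ring]
      exact this

/-- body of the decoding loop -/
def decBody (h : Fin K) (r : Fin 3) : Prog Letter Stk K (Fin 3 ⊕ Fin 3) :=
  (lookS fun o _ => isLow (o h)).bind fun b =>
    bif b then pureP (Sum.inr r) else (subN h).bind fun _ =>
      if r = 2 then (pushS [unit]).bind fun _ => pureP (Sum.inl 0)
      else pureP (Sum.inl (r + 1))

theorem dec_runs (hW : GoodW W) (hv : v h = tape W N) (P : ℕ) : ∀ (pos : Fin K → ℕ) (r : Fin 3)
    (_ : pos h = P) (_ : P ≤ W.length + 1 + N + 1) (st : List Stk),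
    ∃ r' : Fin 3, r'.val = (r.val + P / (W.length + 1)) % 3 ∧
    (iter (decBody h) r).Runs v (pos, st) r'
      (Function.update pos h (P % (W.length + 1)),
        List.replicate ((r.val + P / (W.length + 1)) / 3) unit ++ st) := by
  induction P using Nat.strong_induction_on with
  | _ P ih =>
    intro pos r hP hle st
    rcases Nat.lt_or_ge P (W.length + 1) with hlt | hge
    · refine ⟨r, ?_, ?_⟩
      · rw [Nat.div_eq_of_lt hlt]; have := r.isLt; omega
      · rw [Nat.div_eq_of_lt hlt, Nat.mod_eq_of_lt hlt]
        have : (r.val + 0) / 3 = 0 := by have := r.isLt; omega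
        rw [this, ← hP]
        simp only [List.replicate_zero, List.nil_append, Function.update_eq_self]
        refine iter_exit ?_
        refine bind_runs (lookS_runs _ _ _ _) ?_
        have h1 : isLow (obs v (pos, st) h) = true := by
          simp only [obs]
          rw [hv, isLow_iff hW (by omega)]; omega
        simp only [h1, cond_true]
        exact pureP_runs _ _ _
    · have h1 : isLow (obs v (pos, st) h) = false := by
        simp only [obs]
        have : ¬ (isLow (sym (v h) (pos h)) = true) := by
          rw [hv, isLow_iff hW (by omega)]; omega
        simpa using this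
      have hdiv : P / (W.length + 1) = (P - (W.length + 1)) / (W.length + 1) + 1 := by
        rw [Nat.div_eq P (W.length + 1), if_pos ⟨by omega, hge⟩]
      have hmod : P % (W.length + 1) = (P - (W.length + 1)) % (W.length + 1) :=
        Nat.mod_eq_sub_mod hge
      by_cases hr : r = 2
      · obtain ⟨r', hr', hrun⟩ := ih (P - (W.length + 1)) (by omega)
          (Function.update pos h (pos h - (W.length + 1))) 0 (by simp [hP]) (by omega)
          ([unit] ++ st)
        refine ⟨r', ?_, ?_⟩
        · rw [hr', hdiv, hr]
          simp only [Fin.val_zero, Fin.val_two]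
          omega
        · refine iter_cont (e' := 0) (m' := (Function.update pos h (pos h - (W.length + 1)),
            [unit] ++ st)) ?_ ?_
          · refine bind_runs (lookS_runs _ _ _ _) ?_
            simp only [h1, cond_false]
            refine bind_runs (subN_runs hW hv pos (by omega) (by omega) st) ?_
            simp only [hr, if_true]
            refine bind_runs (pushS_runs _ _ _ _) ?_
            exact pureP_runs _ _ _
          · simp only [Function.update_idem] at hrun
            rw [hmod, hdiv, hr]
            have e : ((2 : Fin 3).val + ((P - (W.length + 1)) / (W.length + 1) + 1)) / 3 =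
                ((0 : Fin 3).val + (P - (W.length + 1)) / (W.length + 1)) / 3 + 1 := by
              simp only [Fin.val_zero, Fin.val_two]
              omega
            rw [e, List.replicate_succ']
            simpa using hrun
      · obtain ⟨r', hr', hrun⟩ := ih (P - (W.length + 1)) (by omega)
          (Function.update pos h (pos h - (W.length + 1))) (r + 1) (by simp [hP]) (by omega) st
        have hrv : (r + 1).val = r.val + 1 := by
          have := r.isLt
          have h2 : r.val ≠ 2 := fun h => hr (Fin.ext h)
          rw [Fin.val_add]
          simp only [Fin.val_one]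
          omega
        refine ⟨r', ?_, ?_⟩
        · rw [hr', hdiv, hrv]; congr 1; omega
        · refine iter_cont (e' := r + 1) (m' := (Function.update pos h (pos h - (W.length + 1)),
            st)) ?_ ?_
          · refine bind_runs (lookS_runs _ _ _ _) ?_
            simp only [h1, cond_false]
            refine bind_runs (subN_runs hW hv pos (by omega) (by omega) st) ?_
            simp only [hr, if_false]
            exact pureP_runs _ _ _
          · simp only [Function.update_idem] at hrun
            rw [hmod, hdiv]
            rw [hrv] at hrun
            rw [show r.val + ((P - (W.length + 1)) / (W.length + 1) + 1) =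
              r.val + 1 + (P - (W.length + 1)) / (W.length + 1) by omega]
            exact hrun

/-- exchange the position of the head and the number on the stack; consumes a clock symbol and
returns false if there is none -/
def swapP (h : Fin K) : Prog Letter Stk K Bool :=
  (pushNum h).bind fun _ => (iter (encBody h) ()).bind fun _ => popS.bind fun _ =>
  (popNum h).bind fun _ => (lookS fun _ t => decide (t = some clock)).bind fun b =>
  bif b then popS.bind fun _ => (pushS [bar]).bind fun _ => (iter (decBody h) 0).bind fun r =>
    (addTimes h r.val).bind fun _ => pureP true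
  else pureP false

theorem swapP_runs (hW : GoodW W) (hv : v h = tape W N) (pos : Fin K → ℕ) (x y : ℕ)
    (hx : pos h = x) (hy : y < 3 * (W.length + 1))
    (hp : x * (3 * (W.length + 1)) + y ≤ W.length + 1 + N + 1) (st : List Stk) :
    (swapP h).Runs v (pos, List.replicate y unit ++ bar :: clock :: st) true
      (Function.update pos h y, List.replicate x unit ++ bar :: st) := by
  refine bind_runs (pushNum_runs _ _) ?_
  rw [hx]
  refine bind_runs (enc_runs hW hv x _ (by simp; omega) _ (by simp)) ?_
  refine bind_runs (popS_runs _ _ _ _) ?_
  simp only [Function.update_self, Function.update_idem, Nat.zero_add]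
  refine bind_runs (popNum_runs _ y (by rw [hv, tape_length]; simp; omega) _) ?_
  simp only [Function.update_self, Function.update_idem]
  refine bind_runs (lookS_runs _ _ _ _) ?_
  simp only [List.head?_cons, decide_true, cond_true]
  refine bind_runs (popS_runs _ _ _ _) ?_
  refine bind_runs (pushS_runs _ _ _ _) ?_
  obtain ⟨r', hr', hrun⟩ := dec_runs hW hv (x * (3 * (W.length + 1)) + y)
    (Function.update pos h (x * (3 * (W.length + 1)) + y)) 0 (by simp) hp ([bar] ++ st)
  refine bind_runs hrun ?_
  have hn : 0 < W.length + 1 := by omega
  have hdiv : (x * (3 * (W.length + 1)) + y) / (W.length + 1) = 3 * x + y / (W.length + 1) := by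
    rw [show x * (3 * (W.length + 1)) + y = y + (3 * x) * (W.length + 1) by ring,
      Nat.add_mul_div_right _ _ hn]; ring
  have hmod : (x * (3 * (W.length + 1)) + y) % (W.length + 1) = y % (W.length + 1) := by
    rw [show x * (3 * (W.length + 1)) + y = y + (3 * x) * (W.length + 1) by ring,
      Nat.add_mul_mod_self_right]
  have hq : y / (W.length + 1) < 3 := by
    rw [Nat.div_lt_iff_lt_mul hn]; exact hy
  rw [hdiv] at hr'
  have hr2 : r'.val = y / (W.length + 1) := by
    rw [hr']
    generalize y / (W.length + 1) = q at hq
    simp only [Fin.val_zero]; omega
  have hx2 : ((0 : Fin 3).val + (3 * x + y / (W.length + 1))) / 3 = x := by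
    generalize y / (W.length + 1) = q at hq
    simp only [Fin.val_zero]; omega
  rw [hdiv, hmod, hx2, hr2]
  simp only [Function.update_idem]
  have hmul := Nat.div_add_mod y (W.length + 1)
  have hmul2 : y % (W.length + 1) + y / (W.length + 1) * (W.length + 1) = y := by
    rw [Nat.mul_comm]; omega
  have hle : y ≤ W.length + 1 + N + 1 := by omega
  refine bind_runs (addTimes_runs hW hv _ _ (by simp only [Function.update_self]; omega) _) ?_
  simp only [Function.update_self, Function.update_idem, hmul2]
  exact pureP_runs _ _ _

theorem swapP_timeout (hW : GoodW W) (hv : v h = tape W N) (pos : Fin K → ℕ) (x y : ℕ)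
    (hx : pos h = x)
    (hp : x * (3 * (W.length + 1)) + y ≤ W.length + 1 + N + 1) :
    ∃ m', (swapP h).Runs v (pos, List.replicate y unit ++ [bar]) false m' := by
  refine ⟨(Function.update pos h (x * (3 * (W.length + 1)) + y), []), ?_⟩
  refine bind_runs (pushNum_runs _ _) ?_
  rw [hx]
  refine bind_runs (enc_runs hW hv x _ (by simp; omega) _ (by simp)) ?_
  refine bind_runs (popS_runs _ _ _ _) ?_
  simp only [Function.update_self, Function.update_idem, Nat.zero_add]
  refine bind_runs (popNum_runs _ y (by rw [hv, tape_length]; simp; omega) _) ?_
  simp only [Function.update_self, Function.update_idem]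
  refine bind_runs (lookS_runs _ _ _ _) ?_
  simp only [List.head?_nil, reduceCtorEq, decide_false, cond_false]
  exact pureP_runs _ _ _

end

end Pool.Agent.Helper7
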