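import Pool.Agent.Helper7.TEP.Bound

/-!
# Tree evaluation by small unambiguous thrifty branching programs
-/

namespace Pool.Agent.Results.MP_4e849b_lc.UnambiguousEvaluation

open Pool.Agent.Helper6.TreeEval

/-- **Main theorem.** For all `h ≥ 1` and `k ≥ 2` the tree evaluation problem for the complete
binary tree with `h` levels and values in `Fin k` is solved by an unambiguous nondeterministic
thrifty branching program with at most `k ^ 5 * 2 ^ (80 (h + √(h b (1 + log₂ b))))` states,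
`b = ⌈log₂ k⌉`. -/
theorem result (h k : ℕ) (hh : 1 ≤ h) (hk : 2 ≤ k) :
    ∃ B : NBP h k, B.Solves ∧ B.IsThrifty ∧ B.Unambiguous ∧
      (Fintype.card B.State : ℝ) ≤
        (k : ℝ) ^ 5 * 2 ^ (80 * (h + Real.sqrt (h * Nat.clog 2 k *
          (1 + Real.logb 2 (Nat.clog 2 k))))) := by
  obtain ⟨B, hB1, hB2, hB3, hB4⟩ := Pool.Agent.Helper7.TEP.exists_small_program h k hh hk
    (Nat.clog 2 k) (Nat.log 2 (Nat.clog 2 k) + 1) rfl rfl
  refine ⟨B, hB1, hB2, hB3, hB4.trans ?_⟩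
  have hb1 : 1 ≤ Nat.clog 2 k := Nat.clog_pos (by norm_num) hk
  have h1 : ((Nat.log 2 (Nat.clog 2 k) + 1 : ℕ) : ℝ) ≤ 1 + Real.logb 2 (Nat.clog 2 k) := by
    push_cast
    have h2 := Real.natLog_le_logb (Nat.clog 2 k) 2
    push_cast at h2
    linarith
  have h2 : Real.sqrt (h * Nat.clog 2 k * ((Nat.log 2 (Nat.clog 2 k) + 1 : ℕ) : ℝ)) ≤
      Real.sqrt (h * Nat.clog 2 k * (1 + Real.logb 2 (Nat.clog 2 k))) := by
    apply Real.sqrt_le_sqrt
    gcongr
  have h3 : (0 : ℝ) ≤ h := Nat.cast_nonneg h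
  have h4 := Real.sqrt_nonneg (h * Nat.clog 2 k * (1 + Real.logb 2 (Nat.clog 2 k)))
  gcongr
  · norm_num
  · linarith

end Pool.Agent.Results.MP_4e849b_lc.UnambiguousEvaluation
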