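import Pool.Agent.Helper7.Prog

set_option autoImplicit false

/-!
Walking loops and small arithmetic of head positions on tapes of the form `W $ blank ... blank`.
-/

namespace Pool.Agent.Helper7

/-- Input letters. -/
inductive Letter
  | one | zero | sep | row | dollar | blank
  deriving DecidableEq

instance : Fintype Letter :=
  ⟨{Letter.one, Letter.zero, Letter.sep, Letter.row, Letter.dollar, Letter.blank},
    fun x => by cases x <;> simp⟩

/-- Stack symbols. -/
inductive Stk
  | clock | unit | bar
  deriving DecidableEq

instance : Fintype Stk := ⟨{Stk.clock, Stk.unit, Stk.bar}, fun x => by cases x <;> simp⟩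

open Letter Stk

/-- The tape `W $ blank^N`. -/
def tape (W : List Letter) (N : ℕ) : List Letter := W ++ dollar :: List.replicate N blank

/-- Good code words: nonempty, without dollar and blank. -/
def GoodW (W : List Letter) : Prop := W ≠ [] ∧ ∀ c ∈ W, c ≠ dollar ∧ c ≠ blank

section syms

variable {W : List Letter} {N : ℕ}

lemma tape_length : (tape W N).length = W.length + 1 + N := by
  simp [tape]; omega

lemma sym_zero_fst (u : List Letter) : (sym u 0).1 = true := by simp [sym]

lemma sym_pos_fst (u : List Letter) {p : ℕ} (h : p ≠ 0) : (sym u p).1 = false := by simp [sym, h]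

lemma sym_zero_snd (hW : GoodW W) : ∃ c, (sym (tape W N) 0).2 = some c ∧ c ≠ dollar ∧ c ≠ blank := by
  obtain ⟨h1, h2⟩ := hW
  cases W with
  | nil => exact absurd rfl h1
  | cons c W => exact ⟨c, by simp [sym, tape], h2 c (by simp)⟩

lemma sym_code (hW : GoodW W) {p : ℕ} (h0 : 1 ≤ p) (h : p ≤ W.length) :
    ∃ c, (sym (tape W N) p).2 = some c ∧ W[p - 1]? = some c ∧ c ≠ dollar ∧ c ≠ blank := by
  have hlt : p - 1 < W.length := by omega
  refine ⟨W[p - 1], ?_, ?_, hW.2 _ (List.getElem_mem _)⟩
  · simp [sym, tape, List.getElem?_append_left hlt, List.getElem?_eq_getElem hlt]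
  · simp [List.getElem?_eq_getElem hlt]

lemma sym_dollar : sym (tape W N) (W.length + 1) = (false, some dollar) := by
  simp [sym, tape]

lemma sym_blank {p : ℕ} (h1 : W.length + 1 < p) (h2 : p ≤ W.length + 1 + N) :
    sym (tape W N) p = (false, some blank) := by
  have h3 : W.length ≤ p - 1 := by omega
  have h4 : p - 1 - W.length = (p - W.length - 2) + 1 := by omega
  have h5 : p - W.length - 2 < N := by omega
  simp only [sym, tape, List.getElem?_append_right h3, h4, List.getElem?_cons_succ,
    List.getElem?_replicate, h5, if_true]
  simp; omega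

lemma sym_end {p : ℕ} (h1 : p = W.length + 1 + N + 1) : sym (tape W N) p = (false, none) := by
  subst h1
  have : (tape W N).length ≤ W.length + 1 + N + 1 - 1 := by rw [tape_length]; omega
  simp only [sym]
  rw [List.getElem?_eq_none this]
  simp

end syms

/-- stop at the left end -/
def atZero (s : Bool × Option Letter) : Bool := s.1
/-- stop at the marker -/
def atDollar (s : Bool × Option Letter) : Bool := decide (s.2 = some dollar)
/-- stop at the right end -/
def atEnd (s : Bool × Option Letter) : Bool := s.2.isNone

section stops

variable {W : List Letter} {N : ℕ}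

lemma atZero_iff (u : List Letter) (p : ℕ) : atZero (sym u p) = true ↔ p = 0 := by
  simp [atZero, sym]

lemma atDollar_iff (hW : GoodW W) {p : ℕ} (hp : p ≤ W.length + 1 + N + 1) :
    atDollar (sym (tape W N) p) = true ↔ p = W.length + 1 := by
  simp only [atDollar, decide_eq_true_eq]
  rcases Nat.lt_trichotomy p (W.length + 1) with h | h | h
  · constructor
    · intro h'
      rcases Nat.eq_zero_or_pos p with h0 | h0
      · subst h0
        obtain ⟨c, hc, h1, h2⟩ := sym_zero_snd (N := N) hW
        rw [hc] at h'
        exact absurd (Option.some.inj h') h1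
      · obtain ⟨c, hc, -, h1, h2⟩ := sym_code (N := N) hW h0 (by omega)
        rw [hc] at h'
        exact absurd (Option.some.inj h') h1
    · intro h'; omega
  · subst h; simp [sym_dollar]
  · constructor
    · intro h'
      rcases Nat.lt_or_ge (W.length + 1 + N) p with h2 | h2
      · rw [sym_end (by omega)] at h'; simp at h'
      · rw [sym_blank h h2] at h'; simp at h'
    · intro h'; omega

lemma atEnd_iff (hW : GoodW W) {p : ℕ} (hp : p ≤ W.length + 1 + N + 1) :
    atEnd (sym (tape W N) p) = true ↔ p = W.length + 1 + N + 1 := by
  simp only [atEnd]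
  rcases Nat.lt_trichotomy p (W.length + 1) with h | h | h
  · rcases Nat.eq_zero_or_pos p with h0 | h0
    · subst h0
      obtain ⟨c, hc, h1, h2⟩ := sym_zero_snd (N := N) hW
      rw [hc]; simp
    · obtain ⟨c, hc, -, h1, h2⟩ := sym_code (N := N) hW h0 (by omega)
      rw [hc]; simp; omega
  · subst h; simp [sym_dollar]; omega
  · rcases Nat.lt_or_ge (W.length + 1 + N) p with h2 | h2
    · rw [sym_end (by omega)]; simp; omega
    · rw [sym_blank h h2]; simp; omega

end stops

section

variable {α Γ : Type} {K : ℕ}

/-- Move one head. -/
def oneH (h : Fin K) (d : Fin 3) : Fin K → Fin 3 := fun i => if i = h then d else 1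

lemma upd_oneH (v : Fin K → List α) (pos : Fin K → ℕ) (st : List Γ) (h : Fin K) (d : Fin 3)
    (l : List Γ) : upd v (pos, st) (oneH h d, l) =
      (Function.update pos h (mv (v h).length (pos h) d), l ++ st.tail) := by
  refine Prod.ext ?_ rfl
  funext i
  by_cases hi : i = h
  · subst hi; simp [upd, oneH]
  · simp [upd, oneH, hi, mv]

/-- walking loop: head `h` moves in direction `d` until `stop`, pushing `l` at every move -/
def walk (h : Fin K) (d : Fin 3) (stop : Bool × Option α → Bool) (l : List Γ) : Prog α Γ K Unit :=
  whileP (fun o t => if stop (o h) then none else some (oneH h d, l ++ t.toList))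

theorem walk_runs {h : Fin K} {d : Fin 3} {stop : Bool × Option α → Bool} {l : List Γ}
    {v : Fin K → List α} (m : ℕ) : ∀ (pos : Fin K → ℕ) (st : List Γ) (g : ℕ → ℕ),
    g 0 = pos h → (∀ i < m, stop (sym (v h) (g i)) = false ∧ mv (v h).length (g i) d = g (i + 1)) →
    stop (sym (v h) (g m)) = true →
    (walk h d stop l).Runs v (pos, st) () (Function.update pos h (g m),
      (List.replicate m l).flatten ++ st) := by
  induction m with
  | zero =>
    intro pos st g h0 _ hs
    have : Function.update pos h (g 0) = pos := by rw [h0]; simp
    simp only [this, List.replicate_zero, List.flatten_nil, List.nil_append]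
    refine whileP_done ?_
    rw [h0] at hs
    simp [obs, hs]
  | succ m ih =>
    intro pos st g h0 hi hs
    obtain ⟨h1, h2⟩ := hi 0 (Nat.succ_pos m)
    refine whileP_step (r := (oneH h d, l ++ st.head?.toList)) ?_ ?_
    · rw [h0] at h1
      simp [obs, h1]
    · rw [upd_oneH, ← h0, h2, List.append_assoc, toList_append_tail]
      have := ih (Function.update pos h (g 1)) (l ++ st) (fun i => g (i + 1)) (by simp)
        (fun i hi' => hi (i + 1) (by omega)) hs
      simp only [Function.update_idem] at this
      rw [List.replicate_succ']
      simpa [walk] using this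

/-- popping loop: head `h` moves in direction `d` as long as the top is `u`, popping it -/
def popWalk (u : Γ) [DecidableEq Γ] (h : Fin K) (d : Fin 3) : Prog α Γ K Unit :=
  whileP (fun _ t => if t = some u then some (oneH h d, []) else none)

theorem popWalk_runs {u : Γ} [DecidableEq Γ] {h : Fin K} {d : Fin 3} {v : Fin K → List α}
    {st : List Γ} (hst : st.head? ≠ some u) (m : ℕ) : ∀ (pos : Fin K → ℕ) (g : ℕ → ℕ),
    g 0 = pos h → (∀ i < m, mv (v h).length (g i) d = g (i + 1)) →
    (popWalk u h d).Runs v (pos, List.replicate m u ++ st) () (Function.update pos h (g m), st) := by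
  induction m with
  | zero =>
    intro pos g h0 _
    have : Function.update pos h (g 0) = pos := by rw [h0]; simp
    simp only [this, List.replicate_zero, List.nil_append]
    refine whileP_done ?_
    simp [hst]
  | succ m ih =>
    intro pos g h0 hi
    have h2 := hi 0 (Nat.succ_pos m)
    refine whileP_step (r := (oneH h d, [])) ?_ ?_
    · simp [List.replicate_succ]
    · rw [upd_oneH, ← h0, h2]
      have := ih (Function.update pos h (g 1)) (fun i => g (i + 1)) (by simp)
        (fun i hi' => hi (i + 1) (by omega))
      simp only [Function.update_idem] at this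
      simpa [popWalk, List.replicate_succ] using this

/-- popping loop which also stops on `stop` -/
def popUntil (u : Γ) [DecidableEq Γ] (h : Fin K) (d : Fin 3) (stop : Bool × Option α → Bool) :
    Prog α Γ K Unit :=
  whileP (fun o t => if t = some u ∧ stop (o h) = false then some (oneH h d, []) else none)

theorem popUntil_runs {u : Γ} [DecidableEq Γ] {h : Fin K} {d : Fin 3}
    {stop : Bool × Option α → Bool} {v : Fin K → List α}
    {st : List Γ} (hst : st.head? ≠ some u) (j : ℕ) : ∀ (m : ℕ) (pos : Fin K → ℕ) (g : ℕ → ℕ),
    g 0 = pos h → j ≤ m →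
    (∀ i < j, stop (sym (v h) (g i)) = false ∧ mv (v h).length (g i) d = g (i + 1)) →
    (j = m ∨ stop (sym (v h) (g j)) = true) →
    (popUntil u h d stop).Runs v (pos, List.replicate m u ++ st) ()
      (Function.update pos h (g j), List.replicate (m - j) u ++ st) := by
  induction j with
  | zero =>
    intro m pos g h0 _ _ hs
    have : Function.update pos h (g 0) = pos := by rw [h0]; simp
    simp only [this, Nat.sub_zero]
    refine whileP_done ?_
    rcases hs with rfl | hs
    · simp [hst]
    · rw [h0] at hs
      simp [obs, hs]
  | succ j ih =>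
    intro m pos g h0 hjm hi hs
    obtain ⟨h1, h2⟩ := hi 0 (Nat.succ_pos j)
    obtain ⟨m, rfl⟩ : ∃ m', m = m' + 1 := ⟨m - 1, by omega⟩
    refine whileP_step (r := (oneH h d, [])) ?_ ?_
    · rw [h0] at h1
      simp [List.replicate_succ, obs, h1]
    · rw [upd_oneH, ← h0, h2]
      have := ih m (Function.update pos h (g 1)) (fun i => g (i + 1)) (by simp) (by omega)
        (fun i hi' => hi (i + 1) (by omega)) (by
          rcases hs with hs | hs
          · left; omega
          · right; exact hs)
      simp only [Function.update_idem] at this
      have e : m + 1 - (j + 1) = m - j := by omega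
      rw [e]
      simpa [popUntil, List.replicate_succ] using this

/-- push a word -/
def pushS (l : List Γ) : Prog α Γ K Unit := stepP (fun _ t => ((), (fun _ => 1), l ++ t.toList))

theorem pushS_runs (l : List Γ) (v : Fin K → List α) (pos : Fin K → ℕ) (st : List Γ) :
    (pushS l).Runs v (pos, st) () (pos, l ++ st) := by
  have h := stepP_runs (fun _ t => ((), (fun _ => 1), l ++ t.toList)) v (pos, st)
  have e : upd v (pos, st) ((fun _ => 1), l ++ st.head?.toList) = (pos, l ++ st) := by
    simp [upd, mv, toList_append_tail]
  simp only at h
  rw [e] at h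
  exact h

/-- pop the top symbol -/
def popS : Prog α Γ K Unit := stepP (fun _ _ => ((), (fun _ => 1), []))

theorem popS_runs (x : Γ) (v : Fin K → List α) (pos : Fin K → ℕ) (st : List Γ) :
    (popS).Runs v (pos, x :: st) () (pos, st) := by
  have h := stepP_runs (fun _ _ => ((), (fun _ => 1), [])) v (pos, x :: st)
  have e : upd v (pos, x :: st) ((fun _ => 1), []) = (pos, st) := by
    simp [upd, mv]
  simp only at h
  rw [e] at h
  exact h

/-- one move of one head -/
def moveS (h : Fin K) (d : Fin 3) : Prog α Γ K Unit :=
  stepP (fun _ t => ((), oneH h d, t.toList))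

theorem moveS_runs (h : Fin K) (d : Fin 3) (v : Fin K → List α) (pos : Fin K → ℕ) (st : List Γ) :
    (moveS h d).Runs v (pos, st) () (Function.update pos h (mv (v h).length (pos h) d), st) := by
  have h1 := stepP_runs (fun _ t => ((), oneH h d, t.toList)) v (pos, st)
  simp only [upd_oneH] at h1
  rw [toList_append_tail] at h1
  exact h1

/-- look without doing anything -/
def lookS {E : Type} (f : (Fin K → Bool × Option α) → Option Γ → E) : Prog α Γ K E :=
  stepP (fun o t => (f o t, (fun _ => 1), t.toList))

theorem lookS_runs {E : Type} (f : (Fin K → Bool × Option α) → Option Γ → E)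
    (v : Fin K → List α) (pos : Fin K → ℕ) (st : List Γ) :
    (lookS f).Runs v (pos, st) (f (obs v (pos, st)) st.head?) (pos, st) := by
  have h1 := stepP_runs (fun o t => (f o t, (fun _ => 1), t.toList)) v (pos, st)
  have e := upd_stay v (pos, st)
  simp only at h1 e
  rw [e] at h1
  exact h1

end

section arith

variable {K : ℕ} {W : List Letter} {N : ℕ} {v : Fin K → List Letter} {h : Fin K}

/-- walk to the left end -/
def toZero (h : Fin K) : Prog Letter Stk K Unit := walk h 0 atZero []
/-- walk to the left end, pushing a unit per move, after pushing a bar -/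
def pushNum (h : Fin K) : Prog Letter Stk K Unit :=
  (pushS [bar]).bind fun _ => walk h 0 atZero [unit]
/-- walk right to the marker -/
def toMark (h : Fin K) : Prog Letter Stk K Unit := walk h 2 atDollar []
/-- walk right to the right end -/
def toEnd (h : Fin K) : Prog Letter Stk K Unit := walk h 2 atEnd []
/-- pop a number, walking right -/
def popNum (h : Fin K) : Prog Letter Stk K Unit :=
  (popWalk unit h 2).bind fun _ => popS
/-- pop a number, walking left -/
def popNumL (h : Fin K) : Prog Letter Stk K Unit :=
  (popWalk unit h 0).bind fun _ => popS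

lemma mv_left (n p : ℕ) : mv n p 0 = p - 1 := by simp [mv]
lemma mv_stay (n p : ℕ) : mv n p 1 = p := by simp [mv]
lemma mv_right {n p : ℕ} (h : p ≤ n) : mv n p 2 = p + 1 := by
  simp [mv]; omega

theorem toZero_runs (pos : Fin K → ℕ) (st : List Stk) :
    (toZero h).Runs v (pos, st) () (Function.update pos h 0, st) := by
  have := walk_runs (h := h) (d := 0) (stop := atZero) (l := ([] : List Stk)) (v := v)
    (pos h) pos st (fun i => pos h - i) (by simp) (fun i hi => ⟨by
      have : ¬ (atZero (sym (v h) (pos h - i)) = true) := by rw [atZero_iff]; omega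
      simpa using this, by rw [mv_left]; omega⟩) (by rw [atZero_iff]; omega)
  simpa [toZero] using this

theorem pushNum_runs (pos : Fin K → ℕ) (st : List Stk) :
    (pushNum h).Runs v (pos, st) () (Function.update pos h 0,
      List.replicate (pos h) unit ++ bar :: st) := by
  refine bind_runs (pushS_runs _ _ _ _) ?_
  have := walk_runs (h := h) (d := 0) (stop := atZero) (l := [unit]) (v := v)
    (pos h) pos ([bar] ++ st) (fun i => pos h - i) (by simp) (fun i hi => ⟨by
      have : ¬ (atZero (sym (v h) (pos h - i)) = true) := by rw [atZero_iff]; omega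
      simpa using this, by rw [mv_left]; omega⟩) (by rw [atZero_iff]; omega)
  simpa using this

theorem toMark_runs (hW : GoodW W) (hv : v h = tape W N) (pos : Fin K → ℕ)
    (hp : pos h ≤ W.length + 1) (st : List Stk) :
    (toMark h).Runs v (pos, st) () (Function.update pos h (W.length + 1), st) := by
  have := walk_runs (h := h) (d := 2) (stop := atDollar) (l := ([] : List Stk)) (v := v)
    (W.length + 1 - pos h) pos st (fun i => pos h + i) (by simp) (fun i hi => ⟨by
      have : ¬ (atDollar (sym (v h) (pos h + i)) = true) := by
        rw [hv, atDollar_iff hW (by omega)]; omega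
      simpa using this, by rw [hv, mv_right (by rw [tape_length]; omega)]; omega⟩)
      (by rw [hv, atDollar_iff hW (by omega)]; omega)
  have e : pos h + (W.length + 1 - pos h) = W.length + 1 := by omega
  simpa [toMark, e] using this

theorem toEnd_runs (hW : GoodW W) (hv : v h = tape W N) (pos : Fin K → ℕ)
    (hp : pos h ≤ W.length + 1 + N + 1) (st : List Stk) :
    (toEnd h).Runs v (pos, st) () (Function.update pos h (W.length + 1 + N + 1), st) := by
  have := walk_runs (h := h) (d := 2) (stop := atEnd) (l := ([] : List Stk)) (v := v)
    (W.length + 1 + N + 1 - pos h) pos st (fun i => pos h + i) (by simp) (fun i hi => ⟨by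
      have : ¬ (atEnd (sym (v h) (pos h + i)) = true) := by
        rw [hv, atEnd_iff hW (by omega)]; omega
      simpa using this, by rw [hv, mv_right (by rw [tape_length]; omega)]; omega⟩)
      (by rw [hv, atEnd_iff hW (by omega)]; omega)
  have e : pos h + (W.length + 1 + N + 1 - pos h) = W.length + 1 + N + 1 := by omega
  simpa [toEnd, e] using this

theorem popNum_runs (pos : Fin K → ℕ) (m : ℕ) (hm : pos h + m ≤ (v h).length + 1)
    (st : List Stk) :
    (popNum h).Runs v (pos, List.replicate m unit ++ bar :: st) ()
      (Function.update pos h (pos h + m), st) := by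
  refine bind_runs (popWalk_runs (h := h) (d := 2) (v := v) (st := bar :: st) (by simp) m pos
    (fun i => pos h + i) (by simp) (fun i hi => by rw [mv_right (by omega)]; omega)) ?_
  exact popS_runs _ _ _ _

theorem popNumL_runs (pos : Fin K → ℕ) (m : ℕ) (st : List Stk) :
    (popNumL h).Runs v (pos, List.replicate m unit ++ bar :: st) ()
      (Function.update pos h (pos h - m), st) := by
  refine bind_runs (popWalk_runs (h := h) (d := 0) (v := v) (st := bar :: st) (by simp) m pos
    (fun i => pos h - i) (by simp) (fun i hi => by rw [mv_left]; omega)) ?_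
  exact popS_runs _ _ _ _

/-- add `|W|+1` to the position -/
def addN (h : Fin K) : Prog Letter Stk K Unit :=
  (pushNum h).bind fun _ => (toMark h).bind fun _ => popNum h

theorem addN_runs (hW : GoodW W) (hv : v h = tape W N) (pos : Fin K → ℕ)
    (hp : pos h + (W.length + 1) ≤ W.length + 1 + N + 1) (st : List Stk) :
    (addN h).Runs v (pos, st) () (Function.update pos h (pos h + (W.length + 1)), st) := by
  refine bind_runs (pushNum_runs _ _) ?_
  refine bind_runs (toMark_runs hW hv _ (by simp) _) ?_
  have := popNum_runs (h := h) (v := v)
    (Function.update (Function.update pos h 0) h (W.length + 1)) (pos h)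
    (by rw [hv, tape_length]; simp; omega) st
  simpa [Function.update_idem, Nat.add_comm (W.length + 1) (pos h)] using this

/-- subtract `|W|+1` from the position -/
def subN (h : Fin K) : Prog Letter Stk K Unit :=
  (pushNum h).bind fun _ => (popUntil unit h 2 atDollar).bind fun _ =>
    (toZero h).bind fun _ => popNum h

theorem subN_runs (hW : GoodW W) (hv : v h = tape W N) (pos : Fin K → ℕ)
    (hp : pos h ≤ W.length + 1 + N + 1) (hp' : W.length + 1 ≤ pos h) (st : List Stk) :
    (subN h).Runs v (pos, st) () (Function.update pos h (pos h - (W.length + 1)), st) := by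
  refine bind_runs (pushNum_runs _ _) ?_
  have h1 := popUntil_runs (u := unit) (h := h) (d := 2) (stop := atDollar) (v := v)
    (st := bar :: st) (by simp) (W.length + 1) (pos h) (Function.update pos h 0) (fun i => i)
    (by simp) hp' (fun i hi => ⟨by
      have : ¬ (atDollar (sym (v h) i) = true) := by
        rw [hv, atDollar_iff hW (by omega)]; omega
      simpa using this, by rw [hv, mv_right (by rw [tape_length]; omega)]⟩)
    (Or.inr (by rw [hv, atDollar_iff hW (by omega)]))
  refine bind_runs h1 ?_
  refine bind_runs (toZero_runs _ _) ?_
  have := popNum_runs (h := h) (v := v) (Function.update (Function.update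
    (Function.update pos h 0) h (W.length + 1)) h 0) (pos h - (W.length + 1))
    (by rw [hv, tape_length]; simp; omega) st
  simpa [Function.update_idem] using this

end arith

end Pool.Agent.Helper7
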